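import Mathlib
import Pool.Agent.LGO.S.Dich
import Pool.Agent.ZPB.BFun

/-!
# LGO/T: almost all roots of the minimal equation are values

`V ⊆ ℂⁿ` an irreducible curve, `x_j` not constant, `W = P / Q` a rational function on `V`; `R` an equation of `W` over the polynomials in
`x_j` of minimal degree.  For all `t` outside a countable set every root `y` of `R(t, ·)` is a value `W(x)`, `x ∈ V`, `x_j = t`, `Q(x) ≠ 0`.

PROOF.  `K, π` from `exists_fun` (`Pool/Agent/ZPB/BFun.lean`: `π F = 0` iff `F` vanishes on `V`; `IsCF K`); `ξ = π (X j)`, transcendental over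
`ℂ` (otherwise it is a constant `c`, `ℂ` is algebraically closed, and `x j = c` on `V`, against `hj`; see `Dich_bdd` in
`LGO/S/Dich.lean`), `W = π P / π Q` (`π Q ≠ 0`).  By `IsCF.dep` there is `R ≠ 0` with `Σ_l R_l(ξ) W ^ l = 0` (translate `MvPolynomial (Fin 2) ℂ` to
`Polynomial (Polynomial ℂ)`: `MvPolynomial.finSuccEquiv`, or see `exists_funQ` in `LGO/G/FunF.lean`, where the same translation is
done for `Dep`).  Choose such an `R` with `r = natDegree R` minimal (`WellFounded.min` / `Nat.find`).  `r > 0`, because `R_0(ξ) ≠ 0` for `R_0 ≠ 0`.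
The second claim: multiply by `(π Q) ^ r` and use `π F = 0` iff `F = 0` on `V`.

Countability.  Let `A ⊆ K` be the `ℂ`-subalgebra (or only the subspace) spanned by the countably many elements `π (monomial) * (π Q)⁻¹ ^ k`.
The set of the `t` with `R_r(t) = 0` (`R_r` the leading coefficient) is finite.  Let `t` be in the set, `R_r(t) ≠ 0`, and `y` a root of
`R_t = Σ_l R_l(t) Y ^ l` such that `P ≠ y Q` at all `x ∈ V` with `Q(x) ≠ 0`, `x_j = t`.  `R_t = (Y - y) S_t`, `S_t ∈ ℂ[Y]` of degree `r - 1`
with leading coefficient `R_r(t)`.  `Q` vanishes at all common zeros of the vanishing ideal `I` of `V`, `X_j - t` and `P - y Q`; by the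
Nullstellensatz (`MvPolynomial.vanishingIdeal_zeroLocus_eq_radical`, see `Dich_unit` in `LGO/S/Dich.lean`) there are `e ≥ 1` and
`α, β` with `Q ^ e - α (X_j - t) - β (P - y Q) ∈ I`.  Apply `π`, divide by `(π Q) ^ e`: `1 = α' (ξ - t) + β' (W - y)` with `α', β' ∈ A`
(`P - y Q = Q (W - y)`, `β' = π β / (π Q) ^ (e - 1)`).  Multiply by `S_t(W) ∈ A`: `S_t(W) = α' S_t(W) (ξ - t) + β' R_t(W)` and
`R_t(W) = R_t(W) - Σ_l R_l(ξ) W ^ l = - Σ_l (R_l(ξ) - R_l(t)) W ^ l ∈ (ξ - t) A`.  So `z_t = S_t(W) / (ξ - t) ∈ A`.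
The `z_t` are linearly independent over `ℂ`: let `Σ_{t ∈ s} a_t z_t = 0`; multiply by `∏_{t ∈ s} (ξ - t)`: an equation for `W` over `ℂ[ξ]` of
degree at most `r - 1`, so all its coefficients vanish (minimality of `r`, a nonzero polynomial of smaller degree would be a smaller `R`);
the coefficient of `W ^ (r - 1)` is `Σ_t a_t R_r(t) ∏_{t' ≠ t} (ξ - t')`; `ξ` is transcendental, so this polynomial is zero, evaluate at `t`:
`a_t = 0`.  (Or use `Transcendental.linearIndependent_sub_inv` and the linear independence of `1, W, .., W ^ (r - 1)` over `ℂ(ξ)`.)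
A linearly independent family in a space spanned by a countable set is countable (`LinearIndependent.cardinal_le_rank`, see
`Dich_bdd`).
-/

namespace Pool.Agent.LGO.T

open MvPolynomial Pool.Agent.Hhelper14.ZPL

/-- the value at `(ξ, W)` of a polynomial with polynomial coefficients -/
private noncomputable def Lift_ev {K : Type} [Field K] [Algebra ℂ K] (ξ W : K) (R : Polynomial (Polynomial ℂ)) : K :=
  R.eval₂ ((Polynomial.aeval ξ : Polynomial ℂ →ₐ[ℂ] K) : Polynomial ℂ →+* K) W

private theorem Lift_ev_sum {K : Type} [Field K] [Algebra ℂ K] (ξ W : K) (R : Polynomial (Polynomial ℂ)) :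
    Lift_ev ξ W R = ∑ l ∈ Finset.range (R.natDegree + 1), Polynomial.aeval ξ (R.coeff l) * W ^ l := by
  rw [Lift_ev, Polynomial.eval₂_eq_sum_range]
  rfl

/-- polynomials in two variables as polynomials with polynomial coefficients -/
private theorem Lift_two {K : Type} [Field K] [Algebra ℂ K] {g : MvPolynomial (Fin 2) ℂ}
    (hg : g ≠ 0) (t x : K) (h : aeval ![t, x] g = 0) :
    ∃ P : Polynomial (Polynomial ℂ), P ≠ 0 ∧ Lift_ev t x P = 0 := by
  let e : MvPolynomial (Fin 2) ℂ →ₐ[ℂ] Polynomial (Polynomial ℂ) :=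
    aeval ![Polynomial.C Polynomial.X, Polynomial.X]
  refine ⟨e g, ?_, ?_⟩
  · intro h0
    let f : Polynomial (Polynomial ℂ) →+* MvPolynomial (Fin 2) ℂ :=
      Polynomial.eval₂RingHom
        ((Polynomial.aeval (X 0 : MvPolynomial (Fin 2) ℂ)) : Polynomial ℂ →ₐ[ℂ] _).toRingHom (X 1)
    have h1 : ∀ p : MvPolynomial (Fin 2) ℂ, f (e p) = p := by
      intro p
      induction p using MvPolynomial.induction_on with
      | C r =>
        have : e (C r) = Polynomial.C (Polynomial.C r) := by
          rw [show (C r : MvPolynomial (Fin 2) ℂ) = algebraMap ℂ _ r from rfl, AlgHom.commutes]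
          rfl
        rw [this]
        simp [f]
      | add p q hp hq => rw [map_add, map_add, hp, hq]
      | mul_X p i hp =>
        rw [map_mul, map_mul, hp]
        congr 1
        fin_cases i
        · simp [e, f]
        · simp [e, f]
    apply hg
    rw [← h1 g, h0, map_zero]
  · have h2 : ∀ p : MvPolynomial (Fin 2) ℂ, Lift_ev t x (e p) = aeval ![t, x] p := by
      intro p
      induction p using MvPolynomial.induction_on with
      | C r =>
        have : e (C r) = Polynomial.C (Polynomial.C r) := by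
          rw [show (C r : MvPolynomial (Fin 2) ℂ) = algebraMap ℂ _ r from rfl, AlgHom.commutes]
          rfl
        rw [this]
        simp [Lift_ev]
      | add p q hp hq =>
        rw [map_add, map_add, ← hp, ← hq]
        simp only [Lift_ev, Polynomial.eval₂_add]
      | mul_X p i hp =>
        rw [map_mul, map_mul, ← hp]
        have h3 : Lift_ev t x (e p * e (X i)) = Lift_ev t x (e p) * Lift_ev t x (e (X i)) := by
          simp only [Lift_ev, Polynomial.eval₂_mul]
        rw [h3]
        congr 1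
        fin_cases i
        · simp [e, Lift_ev]
        · simp [e, Lift_ev]
    rw [h2, h]

/-- a relation of minimal degree -/
private theorem Lift_min {K : Type} [Field K] [Algebra ℂ K] (hK : Pool.Agent.ZPB.IsCF K) {ξ : K}
    (hξ : Transcendental ℂ ξ) (W : K) :
    ∃ R : Polynomial (Polynomial ℂ), R ≠ 0 ∧ Lift_ev ξ W R = 0 ∧ 0 < R.natDegree ∧
      ∀ M : Polynomial (Polynomial ℂ), M.natDegree < R.natDegree → Lift_ev ξ W M = 0 → M = 0 := by
  classical
  have hex : ∃ r : ℕ, ∃ R : Polynomial (Polynomial ℂ), R ≠ 0 ∧ Lift_ev ξ W R = 0 ∧ R.natDegree = r := by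
    obtain ⟨g, hg, hg0⟩ := hK.dep ξ W
    obtain ⟨R, hR, hR0⟩ := Lift_two hg ξ W hg0
    exact ⟨_, R, hR, hR0, rfl⟩
  obtain ⟨R, hR, hR0, hRd⟩ := Nat.find_spec hex
  refine ⟨R, hR, hR0, ?_, ?_⟩
  · rw [Nat.pos_iff_ne_zero]
    intro h0
    apply hR
    have h1 := Polynomial.eq_C_of_natDegree_eq_zero h0
    rw [h1, Lift_ev, Polynomial.eval₂_C] at hR0
    have h2 : R.coeff 0 = 0 := by
      by_contra hne
      exact hξ ⟨R.coeff 0, hne, hR0⟩
    rw [h1, h2, Polynomial.C_0]
  · intro M hM hM0
    by_contra hne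
    rw [hRd] at hM
    exact Nat.find_min hex hM ⟨M, hne, hM0, rfl⟩

private theorem Lift_aeval_mem {K : Type} [Field K] [Algebra ℂ K] (A : Subalgebra ℂ K) {w : K} (hw : w ∈ A)
    (p : Polynomial ℂ) : Polynomial.aeval w p ∈ A := by
  rw [Polynomial.aeval_eq_sum_range]
  exact sum_mem fun i _ => A.smul_mem (pow_mem hw i) _

/-- the elements `S_t(W) / (ξ - t)` are linearly independent -/
private theorem Lift_indep {K : Type} [Field K] [Algebra ℂ K] {ξ : K} (hξ : Transcendental ℂ ξ) (W : K) {r : ℕ}
    (hr : 0 < r) (hmin : ∀ M : Polynomial (Polynomial ℂ), M.natDegree < r → Lift_ev ξ W M = 0 → M = 0)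
    (T : Set ℂ) (S : T → Polynomial ℂ) (hS : ∀ t, (S t).natDegree ≤ r - 1) (hS0 : ∀ t, (S t).coeff (r - 1) ≠ 0) :
    LinearIndependent ℂ fun t : T => Polynomial.aeval W (S t) / (ξ - algebraMap ℂ K t) := by
  classical
  have hne : ∀ t : ℂ, ξ - algebraMap ℂ K t ≠ 0 := by
    intro t h
    apply hξ
    rw [sub_eq_zero] at h
    rw [h]
    exact isAlgebraic_algebraMap t
  rw [linearIndependent_iff']
  intro s g hg t₀ ht₀
  set M : Polynomial (Polynomial ℂ) := ∑ t ∈ s, Polynomial.C (Polynomial.C (g t) *
    ∏ t' ∈ s.erase t, (Polynomial.X - Polynomial.C (t' : ℂ))) * (S t).map Polynomial.C with hM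
  have hdeg : M.natDegree < r := by
    have h1 : M.natDegree ≤ r - 1 := by
      rw [hM]
      refine Polynomial.natDegree_sum_le_of_forall_le _ _ fun t _ => ?_
      refine (Polynomial.natDegree_C_mul_le _ _).trans ?_
      exact Polynomial.natDegree_map_le.trans (hS t)
    omega
  have hev : Lift_ev ξ W M = 0 := by
    have h1 : Lift_ev ξ W M = ∑ t ∈ s, (algebraMap ℂ K (g t) * ∏ t' ∈ s.erase t, (ξ - algebraMap ℂ K (t' : ℂ))) *
        Polynomial.aeval W (S t) := by
      rw [hM, Lift_ev, Polynomial.eval₂_finsetSum]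
      refine Finset.sum_congr rfl fun t _ => ?_
      rw [Polynomial.eval₂_mul, Polynomial.eval₂_C, Polynomial.eval₂_map]
      congr 1
      · simp [map_mul, map_prod]
      · rw [Polynomial.aeval_def]
        congr 1
        ext c
        simp
    rw [h1]
    have h2 : (∏ t' ∈ s, (ξ - algebraMap ℂ K (t' : ℂ))) *
        ∑ t ∈ s, g t • (Polynomial.aeval W (S t) / (ξ - algebraMap ℂ K (t : ℂ))) = 0 := by
      rw [hg, mul_zero]
    rw [← h2, Finset.mul_sum]
    refine Finset.sum_congr rfl fun t ht => ?_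
    rw [← Finset.mul_prod_erase s (fun t' : T => ξ - algebraMap ℂ K (t' : ℂ)) ht, Algebra.smul_def]
    have h3 := hne t
    field_simp
  have hM0 := hmin M hdeg hev
  have hc : (M.coeff (r - 1)).eval (t₀ : ℂ) = 0 := by rw [hM0]; simp
  rw [hM, Polynomial.finsetSum_coeff, Polynomial.eval_finsetSum, Finset.sum_eq_single_of_mem t₀ ht₀] at hc
  · rw [Polynomial.coeff_C_mul, Polynomial.coeff_map, Polynomial.eval_mul, Polynomial.eval_mul,
      Polynomial.eval_C, Polynomial.eval_C, Polynomial.eval_prod] at hc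
    have h3 : ∏ t' ∈ s.erase t₀, (Polynomial.X - Polynomial.C (t' : ℂ)).eval (t₀ : ℂ) ≠ 0 := by
      rw [Finset.prod_ne_zero_iff]
      intro t' ht'
      rw [Polynomial.eval_sub, Polynomial.eval_X, Polynomial.eval_C, sub_ne_zero]
      intro h
      exact (Finset.ne_of_mem_erase ht') (Subtype.ext h).symm
    rcases mul_eq_zero.1 hc with h | h
    · rcases mul_eq_zero.1 h with h | h
      · exact h
      · exact absurd h h3
    · exact absurd h (hS0 t₀)
  · intro t ht hne'
    rw [Polynomial.coeff_C_mul, Polynomial.eval_mul, Polynomial.eval_mul, Polynomial.eval_prod,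
      Finset.prod_eq_zero (Finset.mem_erase.2 ⟨hne'.symm, ht₀⟩), mul_zero, zero_mul]
    rw [Polynomial.eval_sub, Polynomial.eval_X, Polynomial.eval_C, sub_self]

/-- the Nullstellensatz for a value `y` which is not taken on the fibre `x_j = t` -/
private theorem Lift_null {n : ℕ} {V : Set (Fin n → ℂ)} (hV : Pool.Agent.Hhelper14.ZPL.IsIrredClosed V) (j : Fin n)
    (P Q : MvPolynomial (Fin n) ℂ) {t y : ℂ} (h : ∀ x ∈ V, eval x Q ≠ 0 → x j = t → eval x P ≠ y * eval x Q) :
    ∃ (e : ℕ) (α β : MvPolynomial (Fin n) ℂ),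
      Q ^ e - (α * (X j - C t) + β * (P - C y * Q)) ∈ vanishingIdeal ℂ V := by
  set J : Ideal (MvPolynomial (Fin n) ℂ) := vanishingIdeal ℂ V ⊔
    Ideal.span {(X j - C t : MvPolynomial (Fin n) ℂ), P - C y * Q} with hJ
  have h1 : Q ∈ vanishingIdeal ℂ (zeroLocus ℂ J) := by
    rw [mem_vanishingIdeal_iff]
    intro x hx
    have hx1 : x ∈ V := by
      rw [← hV.2]
      intro p hp
      exact hx p (Ideal.mem_sup_left hp)
    have hx2 := hx (X j - C t) (Ideal.mem_sup_right (Ideal.subset_span (by simp)))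
    have hx3 := hx (P - C y * Q) (Ideal.mem_sup_right (Ideal.subset_span (by simp)))
    rw [aeval_eq_eval] at hx2 hx3 ⊢
    simp only [map_sub, map_mul, eval_X, eval_C] at hx2 hx3
    by_contra hne
    exact h x hx1 hne (sub_eq_zero.1 hx2) (sub_eq_zero.1 hx3)
  rw [vanishingIdeal_zeroLocus_eq_radical (k := ℂ) (K := ℂ) J] at h1
  obtain ⟨e, he⟩ := h1
  rw [hJ, Submodule.mem_sup] at he
  obtain ⟨a, ha, b, hb, hab⟩ := he
  obtain ⟨α, β, hαβ⟩ := Ideal.mem_span_pair.1 hb
  refine ⟨e, α, β, ?_⟩
  rw [hαβ, ← hab]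
  have : a + b - b = a := by ring
  rw [this]
  exact ha

theorem lift {n : ℕ} {V : Set (Fin n → ℂ)} (hV : Pool.Agent.Hhelper14.ZPL.IsIrredClosed V)
    (hdim : Pool.Agent.Hhelper14.ZPL.dim V = 1) (j : Fin n) (hj : ∀ c : ℂ, ∃ x ∈ V, x j ≠ c)
    (P Q : MvPolynomial (Fin n) ℂ) (hQ : ∃ x ∈ V, eval x Q ≠ 0) :
    ∃ R : Polynomial (Polynomial ℂ), 0 < R.natDegree ∧
      (∀ x ∈ V, ∑ l ∈ Finset.range (R.natDegree + 1), (R.coeff l).eval (x j) * eval x P ^ l *
        eval x Q ^ (R.natDegree - l) = 0) ∧
      {t : ℂ | ∃ y : ℂ, ∑ l ∈ Finset.range (R.natDegree + 1), (R.coeff l).eval t * y ^ l = 0 ∧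
        ∀ x ∈ V, eval x Q ≠ 0 → x j = t → eval x P ≠ y * eval x Q}.Countable := by
  classical
  obtain ⟨K, hKf, hKa, π, hCF, hπ0, -⟩ := Pool.Agent.ZPB.exists_fun hV hdim
  have hQπ : π Q ≠ 0 := by
    intro h
    obtain ⟨x, hx, hxQ⟩ := hQ
    exact hxQ ((hπ0 Q).1 h x hx)
  set ξ : K := π (X j) with hξdef
  set W : K := π P / π Q with hWdef
  have hπC : ∀ c : ℂ, π (C c) = algebraMap ℂ K c := fun c => π.commutes c
  have hξ : Transcendental ℂ ξ := by
    rcases Pool.Agent.ZPB.trans_or_const ξ with h | ⟨c, hc⟩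
    · exact h
    · exfalso
      have h1 : π (X j - C c) = 0 := by
        rw [map_sub, hπC, ← hξdef, hc, sub_self]
      obtain ⟨x, hx, hne⟩ := hj c
      have h2 := (hπ0 _).1 h1 x hx
      rw [map_sub, eval_X, eval_C, sub_eq_zero] at h2
      exact hne h2
  have hne : ∀ t : ℂ, ξ - algebraMap ℂ K t ≠ 0 := by
    intro t h
    apply hξ
    rw [sub_eq_zero] at h
    rw [h]
    exact isAlgebraic_algebraMap t
  obtain ⟨R, hR, hR0, hr, hmin⟩ := Lift_min hCF hξ W
  set r := R.natDegree with hrdef
  have hPW : π P = W * π Q := by rw [hWdef, div_mul_cancel₀ _ hQπ]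
  refine ⟨R, hr, ?_, ?_⟩
  · -- the equation on `V`
    have h1 : π (∑ l ∈ Finset.range (r + 1), Polynomial.aeval (X j : MvPolynomial (Fin n) ℂ) (R.coeff l) * P ^ l *
        Q ^ (r - l)) = 0 := by
      have h2 : Lift_ev ξ W R * π Q ^ r = 0 := by rw [hR0, zero_mul]
      rw [← h2, Lift_ev_sum, map_sum, Finset.sum_mul]
      refine Finset.sum_congr rfl fun l hl => ?_
      have hl' : l ≤ r := Nat.lt_succ_iff.1 (Finset.mem_range.1 hl)
      rw [map_mul, map_mul, map_pow, map_pow, hPW, mul_pow, ← Polynomial.aeval_algHom_apply]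
      have h3 : π Q ^ r = π Q ^ l * π Q ^ (r - l) := by rw [← pow_add, Nat.add_sub_cancel' hl']
      rw [h3]
      ring
    intro x hx
    have h2 := (hπ0 _).1 h1 x hx
    rw [map_sum] at h2
    rw [← h2]
    refine Finset.sum_congr rfl fun l _ => ?_
    rw [map_mul, map_mul, map_pow, map_pow]
    congr 2
    have h3 : eval x (Polynomial.aeval (X j : MvPolynomial (Fin n) ℂ) (R.coeff l)) =
        (aeval x : MvPolynomial (Fin n) ℂ →ₐ[ℂ] ℂ) (Polynomial.aeval (X j : MvPolynomial (Fin n) ℂ) (R.coeff l)) := by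
      rw [aeval_eq_eval]
    rw [h3, ← Polynomial.aeval_algHom_apply, aeval_X]
    simp
  · -- countability
    set φ : MvPolynomial (Option (Fin n)) ℂ →ₐ[ℂ] K :=
      aeval fun o : Option (Fin n) => o.elim (π Q)⁻¹ (fun i => π (X i)) with hφ
    have hmem : ∀ F, π F ∈ φ.range := by
      intro F
      induction F using MvPolynomial.induction_on with
      | C c =>
        rw [hπC]
        exact Subalgebra.algebraMap_mem _ c
      | add p q hp hq =>
        rw [map_add]
        exact add_mem hp hq
      | mul_X p i hp =>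
        rw [map_mul]
        refine MulMemClass.mul_mem hp ⟨X (some i), ?_⟩
        simp [hφ]
    have hinv : (π Q)⁻¹ ∈ φ.range := ⟨X none, by simp [hφ]⟩
    have hWm : W ∈ φ.range := by
      rw [hWdef, div_eq_mul_inv]
      exact MulMemClass.mul_mem (hmem P) hinv
    set T : Set ℂ := {t : ℂ | (∃ y : ℂ, ∑ l ∈ Finset.range (r + 1), (R.coeff l).eval t * y ^ l = 0 ∧
        ∀ x ∈ V, eval x Q ≠ 0 → x j = t → eval x P ≠ y * eval x Q) ∧ (R.coeff r).eval t ≠ 0} with hT
    have hlead : R.coeff r ≠ 0 := by
      rw [hrdef]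
      exact Polynomial.leadingCoeff_ne_zero.2 hR
    have hTc : T.Countable := by
      have hex : ∀ t : T, ∃ S : Polynomial ℂ, S.natDegree ≤ r - 1 ∧ S.coeff (r - 1) ≠ 0 ∧
          Polynomial.aeval W S / (ξ - algebraMap ℂ K t) ∈ φ.range := by
        rintro ⟨t, ⟨y, hy, hyV⟩, htr⟩
        set Rt : Polynomial ℂ := R.map (Polynomial.evalRingHom t) with hRt
        have hRtc : ∀ l, Rt.coeff l = (R.coeff l).eval t := by
          intro l
          rw [hRt, Polynomial.coeff_map]
          rfl
        have hRtd : Rt.natDegree = r := by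
          apply le_antisymm
          · exact Polynomial.natDegree_map_le
          · apply Polynomial.le_natDegree_of_ne_zero
            rw [hRtc]
            exact htr
        have hroot : Rt.IsRoot y := by
          rw [Polynomial.IsRoot.def, Polynomial.eval_eq_sum_range, hRtd]
          rw [← hy]
          refine Finset.sum_congr rfl fun l _ => ?_
          rw [hRtc]
        obtain ⟨S, hS⟩ := Polynomial.dvd_iff_isRoot.2 hroot
        have hRt0 : Rt ≠ 0 := by
          intro h
          rw [h, Polynomial.natDegree_zero] at hRtd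
          omega
        have hS0 : S ≠ 0 := by
          intro h
          rw [h, mul_zero] at hS
          exact hRt0 hS
        have hSd : S.natDegree = r - 1 := by
          have h1 := congrArg Polynomial.natDegree hS
          rw [hRtd, Polynomial.natDegree_mul (Polynomial.X_sub_C_ne_zero y) hS0, Polynomial.natDegree_X_sub_C] at h1
          omega
        refine ⟨S, hSd.le, ?_, ?_⟩
        · rw [← hSd]
          exact Polynomial.leadingCoeff_ne_zero.2 hS0
        · obtain ⟨e, α, β, hαβ⟩ := Lift_null hV j P Q hyV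
          have h1 : π (Q ^ e - (α * (X j - C t) + β * (P - C y * Q))) = 0 := by
            rw [hπ0]
            intro x hx
            have := mem_vanishingIdeal_iff.1 hαβ x hx
            rw [aeval_eq_eval] at this
            exact this
          have h2 : π Q ^ e = π α * (ξ - algebraMap ℂ K t) + π β * π Q * (W - algebraMap ℂ K y) := by
            rw [map_sub, sub_eq_zero] at h1
            simp only [map_add, map_mul, map_sub, map_pow, hπC] at h1
            rw [h1, hPW]
            ring
          have hD : ∀ l, ∃ D : Polynomial ℂ, R.coeff l = Polynomial.C ((R.coeff l).eval t) +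
              (Polynomial.X - Polynomial.C t) * D := by
            intro l
            obtain ⟨D, hD⟩ := Polynomial.X_sub_C_dvd_sub_C_eval (a := t) (p := R.coeff l)
            exact ⟨D, by rw [← hD]; ring⟩
          choose D hD using hD
          set E : K := ∑ l ∈ Finset.range (r + 1), Polynomial.aeval ξ (D l) * W ^ l with hE
          have hEm : E ∈ φ.range :=
            sum_mem fun l _ => MulMemClass.mul_mem (Lift_aeval_mem _ (hmem (X j)) _) (pow_mem hWm l)
          have h3 : Polynomial.aeval W Rt + (ξ - algebraMap ℂ K t) * E = 0 := by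
            rw [← hR0, Lift_ev_sum, Polynomial.aeval_eq_sum_range, hRtd, hE, Finset.mul_sum,
              ← Finset.sum_add_distrib]
            refine Finset.sum_congr rfl fun l _ => ?_
            rw [hRtc, Algebra.smul_def]
            conv_rhs => rw [hD l]
            rw [map_add, map_mul, map_sub, Polynomial.aeval_X, Polynomial.aeval_C, Polynomial.aeval_C]
            ring
          have h4 : Polynomial.aeval W Rt = (W - algebraMap ℂ K y) * Polynomial.aeval W S := by
            rw [hS, map_mul, map_sub, Polynomial.aeval_X, Polynomial.aeval_C]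
          have h5 : Polynomial.aeval W S / (ξ - algebraMap ℂ K t) =
              (π α * Polynomial.aeval W S - π β * π Q * E) * (π Q)⁻¹ ^ e := by
            have hQe : π Q ^ e ≠ 0 := pow_ne_zero e hQπ
            rw [div_eq_iff (hne t), inv_pow]
            have h6 : Polynomial.aeval W S * π Q ^ e =
                (π α * Polynomial.aeval W S - π β * π Q * E) * (ξ - algebraMap ℂ K t) := by
              rw [h2]
              rw [h4] at h3
              linear_combination (π β * π Q) * h3
            have h7 : Polynomial.aeval W S = (π α * Polynomial.aeval W S - π β * π Q * E) *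
                (ξ - algebraMap ℂ K t) * (π Q ^ e)⁻¹ := by
              rw [← h6, mul_assoc, mul_inv_cancel₀ hQe, mul_one]
            calc Polynomial.aeval W S = (π α * Polynomial.aeval W S - π β * π Q * E) *
                (ξ - algebraMap ℂ K t) * (π Q ^ e)⁻¹ := h7
              _ = _ := by ring
          rw [h5]
          exact MulMemClass.mul_mem (sub_mem (MulMemClass.mul_mem (hmem α) (Lift_aeval_mem _ hWm S))
            (MulMemClass.mul_mem (MulMemClass.mul_mem (hmem β) (hmem Q)) hEm)) (pow_mem hinv e)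
      choose S hS1 hS2 hS3 using hex
      have hli := Lift_indep hξ W hr (fun M hM => hmin M hM) T S hS1 hS2
      have hli2 : LinearIndependent ℂ fun t : T =>
          (⟨Polynomial.aeval W (S t) / (ξ - algebraMap ℂ K t), hS3 t⟩ : φ.range) := by
        refine LinearIndependent.of_comp φ.range.val.toLinearMap ?_
        exact hli
      have h6 := hli2.cardinal_le_rank
      have h7 : Module.rank ℂ φ.range ≤ Cardinal.aleph0 := by
        have h8 : Module.rank ℂ φ.range ≤ Module.rank ℂ (MvPolynomial (Option (Fin n)) ℂ) :=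
          LinearMap.rank_le_of_surjective φ.rangeRestrict.toLinearMap φ.rangeRestrict_surjective
        refine h8.trans ?_
        rw [← (basisMonomials (Option (Fin n)) ℂ).mk_eq_rank'']
        exact Cardinal.mk_le_aleph0
      exact Cardinal.mk_le_aleph0_iff.1 (h6.trans h7)
    have hfin : {t : ℂ | (R.coeff r).IsRoot t}.Finite := Polynomial.finite_setOfPred_isRoot hlead
    refine (hfin.countable.union hTc).mono ?_
    rintro t ⟨y, hy, hyV⟩
    by_cases h : (R.coeff r).eval t = 0
    · exact Or.inl h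
    · exact Or.inr ⟨⟨y, hy, hyV⟩, h⟩

end Pool.Agent.LGO.T
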