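import Mathlib

/-!
# LGO/T: from a bound for the roots to a bound for the coefficients

PROOFS.  `vieta_div`: induction on `L.natDegree`.  Degree `0`: `L = C l`, `l ≠ 0`; `A = L * (C l⁻¹ * A)`, and `‖A(t)‖ ≤ C ‖l‖ max 1 ‖t‖ ^ N` for
all `t` gives `natDegree A ≤ N` (if `natDegree A > N` then `‖A(t)‖ / ‖t‖ ^ N → ∞`, see `Polynomial.div_tendsto_...` /
`Polynomial.tendsto_norm_atTop`, or use the elementary estimate `‖a_d‖ ‖t‖ ^ d ≤ ‖A(t)‖ + C' ‖t‖ ^ (d - 1)` for `‖t‖ ≥ 1`).
Degree `> 0`: `L` has a root `z` (`IsAlgClosed.exists_root`), so `A(z) = 0`, `L = (X - C z) L'`, `A = (X - C z) A'`; the inequality holds for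
`A', L'` at every `t ≠ z` (divide by `‖t - z‖`), and at `z` by continuity (both sides are continuous and `{z}ᶜ` is dense).
`vieta_bound`: `r = R.natDegree`.  For `t ∉ S` which is not a root of `R.leadingCoeff ≠ 0` the polynomial `R_t = Σ_l C (R_l(t)) Y ^ l`
(that is `R.map (Polynomial.evalRingHom t)`) has degree `r` and splits, all its roots have norm at most `B = C max 1 ‖t‖ ^ k`; divide by the leading coefficient:
`Polynomial.coeff_le_of_roots_le`: `‖R_l(t)‖ ≤ ‖R_r(t)‖ B ^ (r - l) * r.choose l`.  So `‖R_l(t)‖ ≤ C' ‖R_r(t)‖ max 1 ‖t‖ ^ (k (r - l))` for all `t`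
outside a countable set, and by continuity for all `t` (the complement of a countable set is dense in `ℂ`: `Set.Countable.dense_compl`).
`vieta_div` with `L = R.leadingCoeff`.  (If `C < 0` there are no roots at all outside `S`, impossible for `r > 0`; one may replace `C` by `max C 1`.)
-/

namespace Pool.Agent.LGO.T

open Polynomial

private theorem Vieta_growth (N : ℕ) : ∀ (B : ℂ[X]) (C : ℝ),
    (∀ t : ℂ, 1 ≤ ‖t‖ → ‖B.eval t‖ ≤ C * ‖t‖ ^ N) → B.natDegree ≤ N := by
  induction N with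
  | zero =>
    intro B C h
    by_contra hcon
    push Not at hcon
    have hd : 0 < B.degree := natDegree_pos_iff_degree_pos.1 hcon
    have hz : Filter.Tendsto (fun n : ℕ => ‖((n : ℂ))‖) Filter.atTop Filter.atTop := by
      simp only [Complex.norm_natCast]
      exact tendsto_natCast_atTop_atTop
    have h1 := B.tendsto_norm_atTop hd hz
    have h2 := (h1.eventually_gt_atTop C).and (Filter.eventually_ge_atTop 1)
    obtain ⟨n, hn1, hn2⟩ := h2.exists
    have h3 := h (n : ℂ) (by rw [Complex.norm_natCast]; exact_mod_cast hn2)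
    rw [pow_zero, mul_one] at h3
    linarith
  | succ N ih =>
    intro B C h
    have h1 : B.divX.natDegree ≤ N := by
      refine ih B.divX (C + ‖B.coeff 0‖) fun t ht => ?_
      have h2 : B.eval t = B.divX.eval t * t + B.coeff 0 := by
        conv_lhs => rw [← divX_mul_X_add B]
        simp
      have h3 : ‖B.divX.eval t‖ * ‖t‖ ≤ (C * ‖t‖ ^ N + ‖B.coeff 0‖) * ‖t‖ := by
        have h4 : B.divX.eval t * t = B.eval t - B.coeff 0 := by rw [h2]; ring
        rw [← norm_mul, h4]
        refine (norm_sub_le _ _).trans ?_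
        have h5 := h t ht
        have h6 : ‖B.coeff 0‖ ≤ ‖B.coeff 0‖ * ‖t‖ := le_mul_of_one_le_right (norm_nonneg _) ht
        rw [pow_succ] at h5
        nlinarith
      have ht0 : 0 < ‖t‖ := by linarith
      have h7 := le_of_mul_le_mul_right h3 ht0
      refine h7.trans ?_
      have h8 : (1 : ℝ) ≤ ‖t‖ ^ N := one_le_pow₀ ht
      have h9 : ‖B.coeff 0‖ ≤ ‖B.coeff 0‖ * ‖t‖ ^ N := le_mul_of_one_le_right (norm_nonneg _) h8
      linarith
    rw [natDegree_divX_eq_natDegree_tsub_one] at h1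
    omega

private theorem Vieta_dense {f g : ℂ → ℝ} (hf : Continuous f) (hg : Continuous g) {S : Set ℂ}
    (hS : S.Countable) (h : ∀ t ∉ S, f t ≤ g t) (t : ℂ) : f t ≤ g t := by
  have hd : Dense Sᶜ := hS.dense_compl ℂ
  have hc : IsClosed {t | f t ≤ g t} := isClosed_le hf hg
  have h1 : closure Sᶜ ⊆ {t | f t ≤ g t} := closure_minimal (fun t ht => h t ht) hc
  exact h1 (hd t)

private theorem Vieta_aux (C : ℝ) (N : ℕ) (n : ℕ) : ∀ A L : ℂ[X], L ≠ 0 → L.natDegree = n →
    (∀ t : ℂ, ‖A.eval t‖ ≤ C * ‖L.eval t‖ * max 1 ‖t‖ ^ N) →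
    ∃ c : ℂ[X], A = L * c ∧ c.natDegree ≤ N := by
  induction n with
  | zero =>
    intro A L hL hn h
    obtain ⟨l, hl⟩ : ∃ l, L = Polynomial.C l := ⟨_, eq_C_of_natDegree_eq_zero hn⟩
    have hl0 : l ≠ 0 := by
      rintro rfl
      exact hL (by rw [hl, C_0])
    refine ⟨Polynomial.C l⁻¹ * A, ?_, ?_⟩
    · rw [hl, ← mul_assoc, ← C_mul, mul_inv_cancel₀ hl0, C_1, one_mul]
    · have h1 : A.natDegree ≤ N := by
        refine Vieta_growth N A (C * ‖l‖) fun t ht => ?_
        have h2 := h t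
        rw [hl, eval_C, max_eq_right ht] at h2
        exact h2
      exact (natDegree_C_mul_le _ _).trans h1
  | succ n ih =>
    intro A L hL hn h
    have hdeg : L.degree ≠ 0 := by
      intro h0
      have := natDegree_eq_zero_iff_degree_le_zero.2 h0.le
      omega
    obtain ⟨z, hz⟩ := IsAlgClosed.exists_root L hdeg
    have hAz : A.IsRoot z := by
      have h1 := h z
      rw [hz.eq_zero, norm_zero, mul_zero, zero_mul] at h1
      exact norm_le_zero_iff.1 h1
    obtain ⟨L', hL'⟩ := dvd_iff_isRoot.2 hz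
    obtain ⟨A', hA'⟩ := dvd_iff_isRoot.2 hAz
    have hL0 : L' ≠ 0 := by
      rintro rfl
      exact hL (by rw [hL', mul_zero])
    have hn' : L'.natDegree = n := by
      rw [hL', natDegree_mul (X_sub_C_ne_zero z) hL0, natDegree_X_sub_C] at hn
      omega
    have hcont : ∀ t : ℂ, ‖A'.eval t‖ ≤ C * ‖L'.eval t‖ * max 1 ‖t‖ ^ N := by
      refine Vieta_dense (S := {z}) A'.continuous.norm
        (((continuous_const.mul L'.continuous.norm).mul
          ((continuous_const.max continuous_norm).pow N))) (Set.countable_singleton z) fun t ht => ?_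
      have h1 := h t
      rw [hL', hA', eval_mul, eval_mul, norm_mul, norm_mul] at h1
      have h2 : 0 < ‖(X - Polynomial.C z).eval t‖ := by
        rw [norm_pos_iff, eval_sub, eval_X, eval_C, sub_ne_zero]
        exact ht
      refine le_of_mul_le_mul_left ?_ h2
      refine h1.trans (le_of_eq ?_)
      ring
    obtain ⟨c, hc1, hc2⟩ := ih A' L' hL0 hn' hcont
    exact ⟨c, by rw [hA', hc1, hL', mul_assoc], hc2⟩

theorem vieta_div (A L : ℂ[X]) (hL : L ≠ 0) (C : ℝ) (N : ℕ)
    (h : ∀ t : ℂ, ‖A.eval t‖ ≤ C * ‖L.eval t‖ * max 1 ‖t‖ ^ N) :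
    ∃ c : ℂ[X], A = L * c ∧ c.natDegree ≤ N := by
  exact Vieta_aux C N _ A L hL rfl h

theorem vieta_bound (R : Polynomial (Polynomial ℂ)) (hr : 0 < R.natDegree) (k : ℕ) (C : ℝ)
    {S : Set ℂ} (hS : S.Countable)
    (h : ∀ t ∉ S, ∀ y : ℂ, ∑ l ∈ Finset.range (R.natDegree + 1), (R.coeff l).eval t * y ^ l = 0 →
      ‖y‖ ≤ C * max 1 ‖t‖ ^ k) :
    ∃ c : ℕ → ℂ[X], ∀ l < R.natDegree, R.coeff l = R.leadingCoeff * c l ∧
      (c l).natDegree ≤ k * (R.natDegree - l) := by
  obtain ⟨r, hr'⟩ : ∃ r, r = R.natDegree := ⟨_, rfl⟩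
  have hR0 : R ≠ 0 := by
    rintro rfl
    simp at hr
  have hL : R.leadingCoeff ≠ 0 := leadingCoeff_ne_zero.2 hR0
  have key : ∀ l, l < R.natDegree → ∀ t : ℂ, ‖(R.coeff l).eval t‖ ≤
      ((max C 0) ^ (R.natDegree - l) * (R.natDegree.choose l)) * ‖R.leadingCoeff.eval t‖ *
        max 1 ‖t‖ ^ (k * (R.natDegree - l)) := by
    intro l hl
    have hS' : (S ∪ {t | R.leadingCoeff.eval t = 0}).Countable := by
      refine hS.union (Set.Finite.countable ?_)
      refine (R.leadingCoeff.roots.toFinset.finite_toSet).subset fun t ht => ?_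
      rw [Finset.mem_coe, Multiset.mem_toFinset, mem_roots hL]
      exact ht
    refine Vieta_dense (R.coeff l).continuous.norm
        (((continuous_const.mul R.leadingCoeff.continuous.norm).mul
          ((continuous_const.max continuous_norm).pow _))) hS' fun t ht => ?_
    rw [Set.mem_union, not_or] at ht
    obtain ⟨ht1, ht2⟩ := ht
    have ht3 : R.leadingCoeff.eval t ≠ 0 := ht2
    obtain ⟨P, hP⟩ : ∃ P : ℂ[X], P = Polynomial.C (R.leadingCoeff.eval t)⁻¹ * R.map (evalRingHom t) := ⟨_, rfl⟩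
    have hcoef : ∀ i, P.coeff i = (R.leadingCoeff.eval t)⁻¹ * (R.coeff i).eval t := by
      intro i
      rw [hP, coeff_C_mul, coeff_map]
      rfl
    have hnd : (R.map (evalRingHom t)).natDegree = R.natDegree := natDegree_map_of_leadingCoeff_ne_zero _ ht3
    have hPd : P.natDegree = R.natDegree := by
      rw [hP, natDegree_C_mul (inv_ne_zero ht3), hnd]
    have hmon : P.Monic := by
      unfold Monic leadingCoeff
      rw [hPd, hcoef]
      exact inv_mul_cancel₀ ht3
    have hroot : ∀ z ∈ (P.map (RingHom.id ℂ)).roots, ‖z‖ ≤ max C 0 * max 1 ‖t‖ ^ k := by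
      intro z hz
      rw [Polynomial.map_id, mem_roots hmon.ne_zero, IsRoot.def, eval_eq_sum_range, hPd] at hz
      have h1 := h t ht1 z (by
        have h2 : (R.leadingCoeff.eval t)⁻¹ * ∑ l ∈ Finset.range (R.natDegree + 1), (R.coeff l).eval t * z ^ l = 0 := by
          rw [Finset.mul_sum, ← hz]
          refine Finset.sum_congr rfl fun i _ => ?_
          rw [hcoef]
          ring
        exact (mul_eq_zero.1 h2).resolve_left (inv_ne_zero ht3))
      refine h1.trans ?_
      gcongr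
      exact le_max_left _ _
    have h3 := coeff_le_of_roots_le l hmon (IsAlgClosed.splits _) hroot
    rw [Polynomial.map_id, hPd, hcoef, norm_mul, norm_inv] at h3
    have h4 : 0 < ‖R.leadingCoeff.eval t‖ := norm_pos_iff.2 ht3
    rw [inv_mul_le_iff₀ h4] at h3
    refine h3.trans (le_of_eq ?_)
    rw [mul_pow, ← pow_mul]
    ring
  have h5 : ∀ l, ∃ c : ℂ[X], l < R.natDegree → R.coeff l = R.leadingCoeff * c ∧
      c.natDegree ≤ k * (R.natDegree - l) := by
    intro l
    by_cases hl : l < R.natDegree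
    · obtain ⟨c, h6, h7⟩ := vieta_div (R.coeff l) R.leadingCoeff hL _ _ (key l hl)
      exact ⟨c, fun _ => ⟨h6, h7⟩⟩
    · exact ⟨0, fun h => absurd h hl⟩
  choose c hc using h5
  exact ⟨c, hc⟩

end Pool.Agent.LGO.T
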