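import Mathlib
import Pool.Agent.LGO.T.Vieta
import Pool.Agent.LGO.T.Lift

/-!
# LGO/T: the certificate over the complex numbers

PROOF.  `R` and the countable set `S₀` from `lift`; `S = S₀ ∪ {x j | x ∈ E}`.  For `t ∉ S` and a root `y` of `R(t, ·)`: there is `x ∈ V` with
`Q(x) ≠ 0`, `x j = t`, `P(x) = y Q(x)`, and `x ∉ E`; so `‖y‖ ‖Q(x)‖ = ‖P(x)‖ ≤ C ‖Q(x)‖ max 1 ‖t‖ ^ k`, `‖y‖ ≤ C max 1 ‖t‖ ^ k`.
`vieta_bound`: `R_l = R_r c_l`, `r = natDegree R`, `natDegree (c l) ≤ k (r - l)`.  The relation of `lift` is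
`R_r(x_j) * (P ^ r + Σ_{l < r} c_l(x_j) P ^ l Q ^ (r - l)) = 0` on `V`.  `V` is irreducible (`hV.1`: the vanishing ideal is prime) and
`R_r(x_j)` does not vanish identically on `V`: otherwise `∏ (x_j - z)` over the roots `z` of `R_r` vanishes on `V`, so one factor
`x_j - z` does, against `hj`.  So the second factor vanishes on `V`.
-/

namespace Pool.Agent.LGO.T

open MvPolynomial Pool.Agent.Hhelper14.ZPL

private theorem WtC_ev {n : ℕ} (j : Fin n) (x : Fin n → ℂ) (L : Polynomial ℂ) :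
    aeval x (Polynomial.aeval (X j : MvPolynomial (Fin n) ℂ) L) = L.eval (x j) := by
  rw [← Polynomial.aeval_algHom_apply, aeval_X, Polynomial.coe_aeval_eq_eval]

private theorem WtC_root {n : ℕ} {V : Set (Fin n → ℂ)} (hV : (vanishingIdeal ℂ V).IsPrime) (j : Fin n)
    (L : Polynomial ℂ) (hL : L ≠ 0) (h : ∀ x ∈ V, L.eval (x j) = 0) : ∃ z : ℂ, ∀ x ∈ V, x j = z := by
  have hs : L.Splits := IsAlgClosed.splits L
  have h2 : Polynomial.aeval (X j : MvPolynomial (Fin n) ℂ) L ∈ vanishingIdeal ℂ V := by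
    rw [mem_vanishingIdeal_iff]
    intro x hx
    rw [WtC_ev]
    exact h x hx
  rw [hs.eq_prod_roots, map_mul, map_multiset_prod] at h2
  rcases hV.mem_or_mem h2 with h3 | h3
  · exfalso
    apply hV.ne_top
    apply Ideal.eq_top_of_isUnit_mem _ h3
    rw [Polynomial.aeval_C]
    exact (IsUnit.mk0 _ (Polynomial.leadingCoeff_ne_zero.2 hL)).map _
  · rw [hV.multiset_prod_mem_iff_exists_mem] at h3
    obtain ⟨p, hp, hpI⟩ := h3
    rw [Multiset.map_map, Multiset.mem_map] at hp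
    obtain ⟨a, -, rfl⟩ := hp
    refine ⟨a, fun x hx => ?_⟩
    have h4 := (mem_vanishingIdeal_iff.1 hpI) x hx
    rw [Function.comp_apply, WtC_ev, Polynomial.eval_sub, Polynomial.eval_X, Polynomial.eval_C] at h4
    exact sub_eq_zero.1 h4

theorem wtC {n : ℕ} {V : Set (Fin n → ℂ)} (hV : Pool.Agent.Hhelper14.ZPL.IsIrredClosed V)
    (hdim : Pool.Agent.Hhelper14.ZPL.dim V = 1) (j : Fin n) (hj : ∀ c : ℂ, ∃ x ∈ V, x j ≠ c)
    (P Q : MvPolynomial (Fin n) ℂ) (hQ : ∃ x ∈ V, eval x Q ≠ 0) (k : ℕ) (C : ℝ)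
    {E : Set (Fin n → ℂ)} (hE : E.Finite)
    (h : ∀ x ∈ V, x ∉ E → ‖eval x P‖ ≤ C * ‖eval x Q‖ * max 1 ‖x j‖ ^ k) :
    ∃ (r : ℕ) (c : ℕ → Polynomial ℂ), 0 < r ∧ (∀ l < r, (c l).natDegree ≤ k * (r - l)) ∧
      ∀ x ∈ V, eval x P ^ r + ∑ l ∈ Finset.range r, (c l).eval (x j) * eval x P ^ l *
        eval x Q ^ (r - l) = 0 := by
  obtain ⟨R, hr0, hrel, hcount⟩ := lift hV hdim j hj P Q hQ
  have hR0 : R.leadingCoeff ≠ 0 := by
    rw [Polynomial.leadingCoeff_ne_zero]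
    rintro rfl
    simp at hr0
  obtain ⟨c, hc⟩ := vieta_bound R hr0 k C (hcount.union (hE.image fun x => x j).countable) (by
    intro t ht y hy
    rw [Set.mem_union, not_or] at ht
    obtain ⟨ht1, ht2⟩ := ht
    have h1 : ¬ ∀ x ∈ V, eval x Q ≠ 0 → x j = t → eval x P ≠ y * eval x Q := fun h' => ht1 ⟨y, hy, h'⟩
    push Not at h1
    obtain ⟨x, hxV, hxQ, hxt, hxP⟩ := h1
    have hxE : x ∉ E := fun hx => ht2 ⟨x, hx, hxt⟩
    have h2 := h x hxV hxE
    rw [hxP, norm_mul, hxt] at h2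
    have hQ0 : 0 < ‖eval x Q‖ := norm_pos_iff.2 hxQ
    have h3 : ‖y‖ * ‖eval x Q‖ ≤ (C * max 1 ‖t‖ ^ k) * ‖eval x Q‖ := by linarith
    exact le_of_mul_le_mul_right h3 hQ0)
  refine ⟨R.natDegree, c, hr0, fun l hl => (hc l hl).2, ?_⟩
  set r := R.natDegree with hr
  have hprime := hV.1
  set G : MvPolynomial (Fin n) ℂ := Polynomial.aeval (X j : MvPolynomial (Fin n) ℂ) R.leadingCoeff with hG
  set F : MvPolynomial (Fin n) ℂ := P ^ r + ∑ l ∈ Finset.range r,
    Polynomial.aeval (X j : MvPolynomial (Fin n) ℂ) (c l) * P ^ l * Q ^ (r - l) with hF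
  have hFe : ∀ x, aeval x F = eval x P ^ r + ∑ l ∈ Finset.range r, (c l).eval (x j) * eval x P ^ l *
      eval x Q ^ (r - l) := by
    intro x
    rw [hF, map_add, map_sum, map_pow]
    congr 1
    apply Finset.sum_congr rfl
    intro l _
    rw [map_mul, map_mul, map_pow, map_pow, WtC_ev]
    rfl
  have hGF : G * F ∈ vanishingIdeal ℂ V := by
    rw [mem_vanishingIdeal_iff]
    intro x hx
    rw [map_mul, hFe x, hG, WtC_ev]
    have h1 := hrel x hx
    rw [Finset.sum_range_succ, Nat.sub_self, pow_zero, mul_one] at h1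
    have h2 : ∑ l ∈ Finset.range r, (R.coeff l).eval (x j) * eval x P ^ l * eval x Q ^ (r - l) =
        R.leadingCoeff.eval (x j) * ∑ l ∈ Finset.range r, (c l).eval (x j) * eval x P ^ l * eval x Q ^ (r - l) := by
      rw [Finset.mul_sum]
      apply Finset.sum_congr rfl
      intro l hl
      rw [(hc l (Finset.mem_range.1 hl)).1, Polynomial.eval_mul]
      ring
    rw [h2] at h1
    have h3 : (R.coeff r).eval (x j) = R.leadingCoeff.eval (x j) := rfl
    rw [h3] at h1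
    linear_combination h1
  rcases hprime.mem_or_mem hGF with h1 | h1
  · exfalso
    obtain ⟨z, hz⟩ := WtC_root hprime j R.leadingCoeff hR0 (fun x hx => by
      have h2 := (mem_vanishingIdeal_iff.1 h1) x hx
      rwa [hG, WtC_ev] at h2)
    obtain ⟨x, hx, hne⟩ := hj z
    exact hne (hz x hx)
  · intro x hx
    rw [← hFe x]
    exact (mem_vanishingIdeal_iff.1 h1) x hx

end Pool.Agent.LGO.T
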