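import Mathlib
import Pool.Agent.LGO.U.BCusp
import Pool.Agent.LGO.Q.Loc
import Pool.Agent.LGO.Q.Ent
import Pool.Agent.LGO.Mul.Disc

/-!
# LGO/T: lemmas for the local identities

PROOFS (the private lemmas `RLoc_pow12`, `RLoc_lip`, `RLoc_pw`, `RLoc_n1`, `RLoc_n2` of `LGO/U/RLoc.lean` are close).
`pow_lip`: `x ^ n - y ^ n = (x - y) Σ x ^ j y ^ (n - 1 - j)` (`mul_geom_sum₂` / `Commute.mul_geom_sum₂`).
`disc_lip`: `τ ↦ Δ(τ)` is holomorphic on the upper half plane, so it is Lipschitz and bounded near `τ₀` (as `RLoc_lip`).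
`root_n`: `a ^ n - b ^ n = ∏_ζ (a - ζ b)`, `ζ` the `n`-th roots of unity (`IsPrimitiveRoot.pow_sub_pow_eq_prod_sub_mul`, see `root12` in
`LGO/U/RRoot.lean`); the smallest of the factors.
`pw`: `E ^ m T ≤ K ^ m M ^ m (d₁ + d₂ + d₃) ^ m T ≤ (3 K) ^ m M ^ m (d₁ ^ m + d₂ ^ m + d₃ ^ m) T` (`(x + y + z) ^ m ≤ (3 max) ^ m`).
`entries`: `N = det g`.  `‖g₁₀ τ + g₁₁‖ ^ 2 Im τ' = N Im τ` (`norm_sq_denom` in `LGO/Q/Ent.lean`), `Im τ' ≥ e`, `Im τ` and `‖τ‖` bounded and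
`Im τ ≥ Im τ₀ / 2`: so `‖g₁₀ τ + g₁₁‖ ^ 2 ≤ C N`, `≤ (C N) ^ 2`; `|g₁₀| Im τ ≤ ‖g₁₀ τ + g₁₁‖` and `|g₁₁| ≤ ‖g₁₀ τ + g₁₁‖ + |g₁₀| ‖τ‖`.
Not both are `0` because `det g > 0`.  `‖z₀‖ ≤ |g₁₀| ‖τ₀‖ + |g₁₁|`.
`z_lip`: `z = g₁₀ τ + g₁₁`, `z₀ = g₁₀ τ₀ + g₁₁`: `‖z - z₀‖ = |g₁₀| ‖τ - τ₀‖ ≤ C N ‖τ - τ₀‖`, `‖z‖, ‖z₀‖ ≤ C N`, so
`‖z ^ 12 - z₀ ^ 12‖ ≤ 12 (C N) ^ 11 C N ‖τ - τ₀‖` (`pow_lip`), `X = z ^ 12 Δ(τ)`, `X₀ = z₀ ^ 12 Δ(τ₀)`: `‖X‖, ‖X₀‖ ≤ C' N ^ 12` and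
`‖X - X₀‖ ≤ ‖z ^ 12 - z₀ ^ 12‖ ‖Δ(τ)‖ + ‖z₀‖ ^ 12 ‖Δ(τ) - Δ(τ₀)‖ ≤ C' N ^ 12 ‖τ - τ₀‖` (`disc_lip`), and again `pow_lip` for the `p`-th powers
(`p = 0` is trivial).
-/

namespace Pool.Agent.LGO.T

open UpperHalfPlane Pool.Agent.Hhelper14.ZP Pool.Agent.EllSch Pool.Agent.LGO

theorem pow_lip (n : ℕ) {x y : ℂ} {M : ℝ} (hx : ‖x‖ ≤ M) (hy : ‖y‖ ≤ M) :
    ‖x ^ n - y ^ n‖ ≤ n * M ^ (n - 1) * ‖x - y‖ := by
  have hM : 0 ≤ M := (norm_nonneg x).trans hx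
  rw [← (Commute.all x y).mul_geom_sum₂ n, norm_mul, mul_comm]
  refine mul_le_mul_of_nonneg_right ?_ (norm_nonneg _)
  calc ‖∑ i ∈ Finset.range n, x ^ i * y ^ (n - 1 - i)‖ ≤
        ∑ i ∈ Finset.range n, ‖x ^ i * y ^ (n - 1 - i)‖ := norm_sum_le _ _
    _ ≤ ∑ i ∈ Finset.range n, M ^ (n - 1) := by
        apply Finset.sum_le_sum
        intro i hi
        have hi' : i < n := Finset.mem_range.mp hi
        rw [norm_mul, norm_pow, norm_pow]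
        calc ‖x‖ ^ i * ‖y‖ ^ (n - 1 - i) ≤ M ^ i * M ^ (n - 1 - i) := by gcongr
          _ = M ^ (n - 1) := by rw [← pow_add]; congr 1; omega
    _ = n * M ^ (n - 1) := by simp

private theorem LocC_lip (τ₀ : ℍ) : ∃ (C r : ℝ), 1 ≤ C ∧ 0 < r ∧ r ≤ (τ₀ : ℂ).im / 2 ∧
    ∀ τ : ℍ, ‖(τ : ℂ) - (τ₀ : ℂ)‖ ≤ r →
      ‖ModularForm.discriminant τ - ModularForm.discriminant τ₀‖ ≤ C * ‖(τ : ℂ) - (τ₀ : ℂ)‖ := by
  have h1 : DifferentiableOn ℂ (fun z : ℂ => ModularForm.discriminant (ofComplex z))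
      {z : ℂ | 0 < z.im} :=
    (UpperHalfPlane.mdifferentiable_iff).mp (CuspForm.discriminant.holo')
  have h2 : DifferentiableAt ℂ (fun z : ℂ => ModularForm.discriminant (ofComplex z)) (τ₀ : ℂ) :=
    h1.differentiableAt (isOpen_uhp.mem_nhds τ₀.im_pos)
  obtain ⟨C, hC⟩ := (DifferentiableAt.isBigO_sub h2).bound
  obtain ⟨ε, hε, hb⟩ := Metric.eventually_nhds_iff.mp hC
  refine ⟨max 1 C, min (ε / 2) ((τ₀ : ℂ).im / 2), le_max_left _ _, ?_, min_le_right _ _,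
    fun τ hτ => ?_⟩
  · have := τ₀.im_pos
    exact lt_min (by linarith) (by simpa using this)
  · have h3 : dist (τ : ℂ) (τ₀ : ℂ) < ε := by
      rw [dist_eq_norm]
      have := hτ.trans (min_le_left _ _)
      linarith
    have h4 := hb h3
    simp only [ofComplex_apply] at h4
    refine h4.trans (mul_le_mul_of_nonneg_right (le_max_right _ _) (norm_nonneg _))

theorem disc_lip (τ₀ : ℍ) : ∃ (C r : ℝ), 1 ≤ C ∧ 0 < r ∧ r ≤ (τ₀ : ℂ).im / 2 ∧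
    ∀ τ : ℍ, ‖(τ : ℂ) - (τ₀ : ℂ)‖ ≤ r → ‖ModularForm.discriminant τ‖ ≤ C ∧
      ‖ModularForm.discriminant τ - ModularForm.discriminant τ₀‖ ≤ C * ‖(τ : ℂ) - (τ₀ : ℂ)‖ := by
  obtain ⟨C, r, hC, hr, hr2, h⟩ := LocC_lip τ₀
  have h0 : 0 ≤ ‖ModularForm.discriminant τ₀‖ := norm_nonneg _
  have h1 : 0 ≤ C * r := by positivity
  refine ⟨C + ‖ModularForm.discriminant τ₀‖ + C * r, r, by linarith, hr, hr2, fun τ hτ => ?_⟩
  have h2 := h τ hτ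
  have h3 : C * ‖(τ : ℂ) - (τ₀ : ℂ)‖ ≤ C * r := mul_le_mul_of_nonneg_left hτ (by linarith)
  constructor
  · have h4 : ‖ModularForm.discriminant τ‖ ≤ ‖ModularForm.discriminant τ - ModularForm.discriminant τ₀‖ +
        ‖ModularForm.discriminant τ₀‖ := by
      have h5 := norm_add_le (ModularForm.discriminant τ - ModularForm.discriminant τ₀)
        (ModularForm.discriminant τ₀)
      rwa [sub_add_cancel] at h5
    linarith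
  · refine h2.trans (mul_le_mul_of_nonneg_right (by linarith) (norm_nonneg _))

theorem root_n (n : ℕ) (hn : 0 < n) (a b : ℂ) :
    ∃ ζ : ℂ, ζ ^ n = 1 ∧ ‖a - ζ * b‖ ^ n ≤ ‖a ^ n - b ^ n‖ := by
  have hprim : IsPrimitiveRoot (Complex.exp (2 * Real.pi * Complex.I / (n : ℕ))) n :=
    Complex.isPrimitiveRoot_exp n hn.ne'
  have hprod : a ^ n - b ^ n =
      ∏ ζ ∈ Polynomial.nthRootsFinset n (1 : ℂ), (a - ζ * b) :=
    hprim.pow_sub_pow_eq_prod_sub_mul a b hn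
  have hcard : (Polynomial.nthRootsFinset n (1 : ℂ)).card = n := hprim.card_nthRootsFinset
  have hne : (Polynomial.nthRootsFinset n (1 : ℂ)).Nonempty := by
    rw [← Finset.card_pos, hcard]; exact hn
  obtain ⟨ζ, hζ, hmin⟩ := Finset.exists_min_image _ (fun ζ : ℂ => ‖a - ζ * b‖) hne
  refine ⟨ζ, (Polynomial.mem_nthRootsFinset hn 1).1 hζ, ?_⟩
  rw [hprod, norm_prod]
  calc ‖a - ζ * b‖ ^ n = ∏ _ζ' ∈ Polynomial.nthRootsFinset n (1 : ℂ), ‖a - ζ * b‖ := by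
        rw [Finset.prod_const, hcard]
    _ ≤ ∏ ζ' ∈ Polynomial.nthRootsFinset n (1 : ℂ), ‖a - ζ' * b‖ :=
        Finset.prod_le_prod (fun _ _ => norm_nonneg _) fun ζ' h' => hmin ζ' h'

theorem pw {E K M T d₁ d₂ d₃ c : ℝ} {m : ℕ} (hm : 0 < m) (hE : 0 ≤ E) (hK : 0 ≤ K)
    (hM : 0 ≤ M) (hT : 0 ≤ T) (h1 : 0 ≤ d₁) (h2 : 0 ≤ d₂) (h3 : 0 ≤ d₃)
    (h : E ≤ K * M * (d₁ + d₂ + d₃)) (c1 : d₁ ^ m * T ≤ c) (c2 : d₂ ^ m * T ≤ c)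
    (c3 : d₃ ^ m * T ≤ c) : E ^ m * T ≤ 3 * (3 * K) ^ m * c * M ^ m := by
  have _ := hm
  have p1 : 0 ≤ d₁ ^ m := pow_nonneg h1 m
  have p2 : 0 ≤ d₂ ^ m := pow_nonneg h2 m
  have p3 : 0 ≤ d₃ ^ m := pow_nonneg h3 m
  have key : (d₁ + d₂ + d₃) ^ m ≤ 3 ^ m * (d₁ ^ m + d₂ ^ m + d₃ ^ m) := by
    rcases le_total d₁ d₂ with h12 | h12
    · rcases le_total d₂ d₃ with h23 | h23
      · calc (d₁ + d₂ + d₃) ^ m ≤ (3 * d₃) ^ m := pow_le_pow_left₀ (by positivity) (by linarith) m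
          _ = 3 ^ m * d₃ ^ m := mul_pow _ _ _
          _ ≤ _ := mul_le_mul_of_nonneg_left (by linarith) (by positivity)
      · calc (d₁ + d₂ + d₃) ^ m ≤ (3 * d₂) ^ m := pow_le_pow_left₀ (by positivity) (by linarith) m
          _ = 3 ^ m * d₂ ^ m := mul_pow _ _ _
          _ ≤ _ := mul_le_mul_of_nonneg_left (by linarith) (by positivity)
    · rcases le_total d₁ d₃ with h13 | h13
      · calc (d₁ + d₂ + d₃) ^ m ≤ (3 * d₃) ^ m := pow_le_pow_left₀ (by positivity) (by linarith) m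
          _ = 3 ^ m * d₃ ^ m := mul_pow _ _ _
          _ ≤ _ := mul_le_mul_of_nonneg_left (by linarith) (by positivity)
      · calc (d₁ + d₂ + d₃) ^ m ≤ (3 * d₁) ^ m := pow_le_pow_left₀ (by positivity) (by linarith) m
          _ = 3 ^ m * d₁ ^ m := mul_pow _ _ _
          _ ≤ _ := mul_le_mul_of_nonneg_left (by linarith) (by positivity)
  calc E ^ m * T ≤ (K * M * (d₁ + d₂ + d₃)) ^ m * T := by gcongr
    _ = (K * M) ^ m * ((d₁ + d₂ + d₃) ^ m * T) := by rw [mul_pow]; ring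
    _ ≤ (K * M) ^ m * ((3 ^ m * (d₁ ^ m + d₂ ^ m + d₃ ^ m)) * T) := by gcongr
    _ = (K * M) ^ m * (3 ^ m * (d₁ ^ m * T + d₂ ^ m * T + d₃ ^ m * T)) := by ring
    _ ≤ (K * M) ^ m * (3 ^ m * (c + c + c)) := by gcongr
    _ = 3 * (3 * K) ^ m * c * M ^ m := by rw [mul_pow, mul_pow]; ring

/-- the entries of the matrix -/
theorem entries (τ₀ : ℍ) {e : ℝ} (he : 0 < e) :
    ∃ C : ℝ, 1 ≤ C ∧ ∀ (τ τ' : ℍ) (g : Matrix (Fin 2) (Fin 2) ℤ) (N : ℕ),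
      ‖(τ : ℂ) - (τ₀ : ℂ)‖ ≤ (τ₀ : ℂ).im / 2 → e ≤ (τ' : ℂ).im → g.det = N → 0 < N →
      Maps g (τ : ℂ) (τ' : ℂ) →
        ¬ (g 1 1 = 0 ∧ g 1 0 = 0) ∧ |((g 1 1 : ℤ) : ℝ)| ≤ C * N ∧ |((g 1 0 : ℤ) : ℝ)| ≤ C * N ∧
        ‖(g 1 0 : ℂ) * τ + (g 1 1 : ℂ)‖ ≤ C * N ∧ ‖(g 1 0 : ℂ) * τ₀ + (g 1 1 : ℂ)‖ ≤ C * N := by
  set y : ℝ := (τ₀ : ℂ).im with hy
  have hy0 : 0 < y := τ₀.im_pos
  set T : ℝ := ‖(τ₀ : ℂ)‖ + y with hT
  have hT0 : 0 < T := by have := norm_nonneg (τ₀ : ℂ); linarith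
  set L : ℝ := 3 / 2 * y / e + 1 with hL
  have hL0 : 0 < L := by positivity
  have hL1 : 1 ≤ L := by
    have : 0 ≤ 3 / 2 * y / e := by positivity
    linarith
  set Kq : ℝ := 2 * L / y with hKq
  have hKq0 : 0 < Kq := by positivity
  set Kp : ℝ := L + Kq * T with hKp
  have hKp0 : 0 < Kp := by positivity
  set K0 : ℝ := Kq * T + Kp with hK0
  have hK00 : 0 < K0 := by positivity
  refine ⟨L + Kq + Kp + K0, by linarith, fun τ τ' g N0 hτ him' hdet hN00 hgmaps => ?_⟩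
  set d : ℝ := ‖(τ : ℂ) - (τ₀ : ℂ)‖ with hd
  have g7 : |(τ : ℂ).im - y| ≤ y / 2 := by
    have h1 := Complex.abs_im_le_norm ((τ : ℂ) - (τ₀ : ℂ))
    rw [Complex.sub_im] at h1
    exact h1.trans hτ
  have g8 := abs_le.mp g7
  have hτT : ‖(τ : ℂ)‖ ≤ T := by
    have h1 : ‖(τ : ℂ)‖ ≤ ‖(τ₀ : ℂ)‖ + d := by
      have h2 := norm_add_le (τ₀ : ℂ) ((τ : ℂ) - (τ₀ : ℂ))
      rwa [add_sub_cancel] at h2
    linarith
  have hτ₀T : ‖(τ₀ : ℂ)‖ ≤ T := by linarith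
  set N : ℝ := (N0 : ℝ) with hN
  have hdetN : (g.det : ℝ) = N := by rw [hdet, hN]; simp
  have hN1 : 1 ≤ N := by
    rw [hN]
    exact_mod_cast hN00
  have hN0 : 0 < N := by linarith
  have hgpos : 0 < g.det := by rw [hdet]; exact_mod_cast hN00
  set p : ℤ := g 1 1 with hp
  set q : ℤ := g 1 0 with hq
  have k1 : ‖(q : ℂ) * (τ : ℂ) + (p : ℂ)‖ ≤ L * N := by
    have h1 := norm_sq_denom hgmaps
    rw [hdetN] at h1
    have h2 : ‖(q : ℂ) * (τ : ℂ) + (p : ℂ)‖ ^ 2 * e ≤ N * (3 / 2 * y) := by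
      calc ‖(q : ℂ) * (τ : ℂ) + (p : ℂ)‖ ^ 2 * e ≤
            ‖(q : ℂ) * (τ : ℂ) + (p : ℂ)‖ ^ 2 * (τ' : ℂ).im := by gcongr
        _ = N * (τ : ℂ).im := h1
        _ ≤ N * (3 / 2 * y) := by
            refine mul_le_mul_of_nonneg_left ?_ hN0.le
            linarith [g8.2]
    rw [← le_div_iff₀ he] at h2
    have h3 : ‖(q : ℂ) * (τ : ℂ) + (p : ℂ)‖ ^ 2 ≤ (L * N) ^ 2 := by
      have h4 : N * (3 / 2 * y) / e ≤ L * N := by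
        have e1 : N * (3 / 2 * y) / e = 3 / 2 * y / e * N := by ring
        rw [e1]
        exact mul_le_mul_of_nonneg_right (by linarith) hN0.le
      have h5 : 1 ≤ L * N := one_le_mul_of_one_le_of_one_le hL1 hN1
      nlinarith
    exact (abs_le_of_sq_le_sq' h3 (by positivity)).2
  have hqn : ‖(q : ℂ)‖ = |(q : ℝ)| := by
    rw [← Complex.ofReal_intCast, Complex.norm_real, Real.norm_eq_abs]
  have hpn : ‖(p : ℂ)‖ = |(p : ℝ)| := by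
    rw [← Complex.ofReal_intCast, Complex.norm_real, Real.norm_eq_abs]
  have k2 : |(q : ℝ)| ≤ Kq * N := by
    have h1 : |(q : ℝ) * (τ : ℂ).im| ≤ L * N := by
      have e2 := (Complex.abs_im_le_norm ((q : ℂ) * (τ : ℂ) + (p : ℂ))).trans k1
      have e3 : ((q : ℂ) * (τ : ℂ) + (p : ℂ)).im = (q : ℝ) * (τ : ℂ).im := by
        simp [Complex.mul_im]
      rwa [e3] at e2
    have hpos : 0 < (τ : ℂ).im := τ.im_pos
    rw [abs_mul, abs_of_pos hpos] at h1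
    have h2 : |(q : ℝ)| * (y / 2) ≤ L * N := by
      refine le_trans (mul_le_mul_of_nonneg_left ?_ (abs_nonneg _)) h1
      have := g8.1
      change y / 2 ≤ (τ : ℂ).im
      linarith
    rw [hKq, div_mul_eq_mul_div, le_div_iff₀ hy0]
    linarith
  have k3 : |(p : ℝ)| ≤ Kp * N := by
    rw [← hpn]
    calc ‖(p : ℂ)‖ = ‖((q : ℂ) * (τ : ℂ) + (p : ℂ)) - (q : ℂ) * (τ : ℂ)‖ := by congr 1; ring
      _ ≤ ‖(q : ℂ) * (τ : ℂ) + (p : ℂ)‖ + ‖(q : ℂ) * (τ : ℂ)‖ := norm_sub_le _ _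
      _ = ‖(q : ℂ) * (τ : ℂ) + (p : ℂ)‖ + |(q : ℝ)| * ‖(τ : ℂ)‖ := by rw [norm_mul, hqn]
      _ ≤ L * N + Kq * N * T := by gcongr
      _ = Kp * N := by rw [hKp]; ring
  have k4 : ∀ z : ℂ, ‖z‖ ≤ T → ‖(q : ℂ) * z + (p : ℂ)‖ ≤ K0 * N := by
    intro z hz
    calc ‖(q : ℂ) * z + (p : ℂ)‖ ≤ ‖(q : ℂ) * z‖ + ‖(p : ℂ)‖ := norm_add_le _ _
      _ = |(q : ℝ)| * ‖z‖ + |(p : ℝ)| := by rw [norm_mul, hqn, hpn]
      _ ≤ Kq * N * T + Kp * N := by gcongr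
      _ = K0 * N := by rw [hK0]; ring
  refine ⟨?_, k3.trans (mul_le_mul_of_nonneg_right (by linarith) hN0.le),
    k2.trans (mul_le_mul_of_nonneg_right (by linarith) hN0.le),
    (k4 _ hτT).trans (mul_le_mul_of_nonneg_right (by linarith) hN0.le),
    (k4 _ hτ₀T).trans (mul_le_mul_of_nonneg_right (by linarith) hN0.le)⟩
  rintro ⟨h1, h2⟩
  rw [Matrix.det_fin_two, ← hp, ← hq, h1, h2] at hgpos
  simp at hgpos

/-- the comparison of `(z ^ 12 Δ(τ)) ^ p` with its value at `τ₀` -/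
theorem z_lip (τ₀ : ℍ) (p : ℕ) {e : ℝ} (he : 0 < e) : ∃ (C r : ℝ), 1 ≤ C ∧ 0 < r ∧
    ∀ (τ τ' : ℍ) (g : Matrix (Fin 2) (Fin 2) ℤ) (N : ℕ),
      ‖(τ : ℂ) - (τ₀ : ℂ)‖ ≤ r → e ≤ (τ' : ℂ).im → g.det = N → 0 < N →
      Maps g (τ : ℂ) (τ' : ℂ) →
        ¬ (g 1 1 = 0 ∧ g 1 0 = 0) ∧ |((g 1 1 : ℤ) : ℝ)| ≤ C * N ∧ |((g 1 0 : ℤ) : ℝ)| ≤ C * N ∧
        ‖(((g 1 0 : ℂ) * τ + (g 1 1 : ℂ)) ^ 12 * ModularForm.discriminant τ) ^ p‖ ≤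
          C * (N : ℝ) ^ (12 * p) ∧
        ‖(((g 1 0 : ℂ) * τ + (g 1 1 : ℂ)) ^ 12 * ModularForm.discriminant τ) ^ p -
          (((g 1 0 : ℂ) * τ₀ + (g 1 1 : ℂ)) ^ 12 * ModularForm.discriminant τ₀) ^ p‖ ≤
          C * (N : ℝ) ^ (12 * p) * ‖(τ : ℂ) - (τ₀ : ℂ)‖ := by
  obtain ⟨C1, hC1, hent⟩ := entries τ₀ he
  obtain ⟨C2, r, hC2, hr, hr2, hdl⟩ := disc_lip τ₀
  set A : ℝ := C1 ^ 12 * C2 with hA
  have hA0 : 0 ≤ A := by positivity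
  have hAp : 0 ≤ A ^ p := pow_nonneg hA0 p
  have hK : 0 ≤ 13 * p * A ^ p := by positivity
  refine ⟨C1 + A ^ p + 13 * p * A ^ p, r, by linarith, hr, fun τ τ' g N hτ him hdet hN hmaps => ?_⟩
  obtain ⟨e1, e2, e3, e4, e5⟩ := hent τ τ' g N (hτ.trans hr2) him hdet hN hmaps
  obtain ⟨d1, d2⟩ := hdl τ hτ
  have d3 : ‖ModularForm.discriminant τ₀‖ ≤ C2 := (hdl τ₀ (by rw [sub_self, norm_zero]; exact hr.le)).1
  have hN1 : (1 : ℝ) ≤ N := by exact_mod_cast hN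
  have hN0 : (0 : ℝ) < N := by linarith
  have hNp : (0 : ℝ) ≤ (N : ℝ) ^ (12 * p) := by positivity
  set d : ℝ := ‖(τ : ℂ) - (τ₀ : ℂ)‖ with hd
  have hd0 : 0 ≤ d := norm_nonneg _
  set z : ℂ := (g 1 0 : ℂ) * (τ : ℂ) + (g 1 1 : ℂ) with hz
  set z₀ : ℂ := (g 1 0 : ℂ) * (τ₀ : ℂ) + (g 1 1 : ℂ) with hz₀
  have hqn : ‖((g 1 0 : ℤ) : ℂ)‖ = |((g 1 0 : ℤ) : ℝ)| := by
    rw [← Complex.ofReal_intCast, Complex.norm_real, Real.norm_eq_abs]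
  have hzz : ‖z ^ 12 - z₀ ^ 12‖ ≤ 12 * C1 ^ 12 * (N : ℝ) ^ 12 * d := by
    have h1 := pow_lip 12 e4 e5
    have h2 : z - z₀ = ((g 1 0 : ℤ) : ℂ) * ((τ : ℂ) - (τ₀ : ℂ)) := by rw [hz, hz₀]; ring
    rw [h2, norm_mul, hqn, ← hd] at h1
    calc ‖z ^ 12 - z₀ ^ 12‖ ≤ (12 : ℕ) * (C1 * N) ^ (12 - 1) * (|((g 1 0 : ℤ) : ℝ)| * d) := h1
      _ ≤ (12 : ℕ) * (C1 * N) ^ (12 - 1) * (C1 * N * d) := by gcongr
      _ = _ := by push_cast; ring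
  have hX : ‖z ^ 12 * ModularForm.discriminant τ‖ ≤ A * (N : ℝ) ^ 12 := by
    rw [norm_mul, norm_pow]
    calc ‖z‖ ^ 12 * ‖ModularForm.discriminant τ‖ ≤ (C1 * N) ^ 12 * C2 := by gcongr
      _ = _ := by rw [hA]; ring
  have hX₀ : ‖z₀ ^ 12 * ModularForm.discriminant τ₀‖ ≤ A * (N : ℝ) ^ 12 := by
    rw [norm_mul, norm_pow]
    calc ‖z₀‖ ^ 12 * ‖ModularForm.discriminant τ₀‖ ≤ (C1 * N) ^ 12 * C2 := by gcongr
      _ = _ := by rw [hA]; ring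
  have hXX : ‖z ^ 12 * ModularForm.discriminant τ - z₀ ^ 12 * ModularForm.discriminant τ₀‖ ≤
      13 * (A * (N : ℝ) ^ 12) * d := by
    have e : z ^ 12 * ModularForm.discriminant τ - z₀ ^ 12 * ModularForm.discriminant τ₀ =
        (z ^ 12 - z₀ ^ 12) * ModularForm.discriminant τ +
          z₀ ^ 12 * (ModularForm.discriminant τ - ModularForm.discriminant τ₀) := by ring
    rw [e]
    refine (norm_add_le _ _).trans ?_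
    rw [norm_mul, norm_mul, norm_pow]
    calc ‖z ^ 12 - z₀ ^ 12‖ * ‖ModularForm.discriminant τ‖ +
          ‖z₀‖ ^ 12 * ‖ModularForm.discriminant τ - ModularForm.discriminant τ₀‖ ≤
        (12 * C1 ^ 12 * (N : ℝ) ^ 12 * d) * C2 + (C1 * N) ^ 12 * (C2 * d) := by gcongr
      _ = _ := by rw [hA]; ring
  have hpow : (A * (N : ℝ) ^ 12) ^ p = A ^ p * (N : ℝ) ^ (12 * p) := by
    rw [mul_pow, ← pow_mul]
  refine ⟨e1, e2.trans (mul_le_mul_of_nonneg_right (by linarith) hN0.le),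
    e3.trans (mul_le_mul_of_nonneg_right (by linarith) hN0.le), ?_, ?_⟩
  · rw [norm_pow]
    calc ‖z ^ 12 * ModularForm.discriminant τ‖ ^ p ≤ (A * (N : ℝ) ^ 12) ^ p := by gcongr
      _ = A ^ p * (N : ℝ) ^ (12 * p) := hpow
      _ ≤ _ := mul_le_mul_of_nonneg_right (by linarith) hNp
  · have h1 := pow_lip p hX hX₀
    have h2 : p * (A * (N : ℝ) ^ 12) ^ (p - 1) * (13 * (A * (N : ℝ) ^ 12) * d) =
        13 * p * A ^ p * (N : ℝ) ^ (12 * p) * d := by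
      rcases Nat.eq_zero_or_pos p with hp | hp
      · subst hp; simp
      · have e : (A * (N : ℝ) ^ 12) ^ (p - 1) * (A * (N : ℝ) ^ 12) = (A * (N : ℝ) ^ 12) ^ p := by
          rw [← pow_succ]; congr 1; omega
        calc p * (A * (N : ℝ) ^ 12) ^ (p - 1) * (13 * (A * (N : ℝ) ^ 12) * d) =
            13 * p * ((A * (N : ℝ) ^ 12) ^ (p - 1) * (A * (N : ℝ) ^ 12)) * d := by ring
          _ = 13 * p * (A ^ p * (N : ℝ) ^ (12 * p)) * d := by rw [e, hpow]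
          _ = _ := by ring
    calc _ ≤ p * (A * (N : ℝ) ^ 12) ^ (p - 1) *
          ‖z ^ 12 * ModularForm.discriminant τ - z₀ ^ 12 * ModularForm.discriminant τ₀‖ := h1
      _ ≤ p * (A * (N : ℝ) ^ 12) ^ (p - 1) * (13 * (A * (N : ℝ) ^ 12) * d) := by gcongr
      _ = 13 * p * A ^ p * (N : ℝ) ^ (12 * p) * d := h2
      _ ≤ (C1 + A ^ p + 13 * p * A ^ p) * (N : ℝ) ^ (12 * p) * d := by
          refine mul_le_mul_of_nonneg_right (mul_le_mul_of_nonneg_right (by linarith) hNp) hd0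

end Pool.Agent.LGO.T
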