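import Mathlib
import Pool.Agent.LGO.T.LocC
import Pool.Agent.LGO.U.BCusp
import Pool.Agent.LGO.U.BArch
import Pool.Agent.LGO.Mul.Unif

/-!
# LGO/T: the local identity near a point `x_a = ∞`, `x_b = β`

`u = x_a`, `v = x_b`, `W = Φ u ^ p` is near `κ`, `Ξ = B ^ p Φ`, `T` the size of the function `Y`.

PROOF of `loc_idA`, compare `loc_id` in `LGO/U/RLoc.lean`.  Constants depend on `τ₀, w, κ, p, C₂, m₁` only.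
(1) `j_local` (`LGO/Q/Loc.lean`) at `τ₀`: `τ` with `j(τ) = v`, `‖τ - τ₀‖ ^ m₀ ≤ C ‖v - j(τ₀)‖`, for `‖v - j(τ₀)‖` small, which holds because
`‖v - j(τ₀)‖ ^ m₁ ≤ C₂ / T` and `T` is large; so `‖τ - τ₀‖ ≤ r` (`r` from `z_lip` with `e = 1 / 2`).  `Unif_exists_red` (`Mul/Unif.lean`): `τ'` reduced with
`j(τ') = u`, `Im τ' ≥ 1 / 2` (`RLoc_n1`).  `exists_prim_mdeg` (with `IsB.isog`): `g` primitive, `det g = N = mdeg v u > 0`, `Maps g τ τ'`.  `z = g₁₀ τ + g₁₁`,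
`X = z ^ 12 Δ(τ)`, `X₀ = z₀ ^ 12 Δ(τ₀)`.
(2) `B_cusp`: `‖X u - B‖ ‖u‖ ≤ C ‖B‖`.  `T ≤ C₂ ‖u‖ ^ m₁`, `T` large: `‖u‖ ≥ 1`, and `≥ C`.  So `‖X u‖ ≤ 2 ‖B‖` and, by `pow_lip` with `M = 2 ‖B‖`,
`‖(X u) ^ p - B ^ p‖ ≤ C' ‖B‖ ^ p / ‖u‖`.  Multiply by `‖Φ‖`: `‖X ^ p W - Ξ‖ ≤ C' ‖Ξ‖ / ‖u‖`.
(3) `z_lip`: `‖X ^ p‖ ≤ C N ^ (12 p)`, `‖X ^ p - X₀ ^ p‖ ≤ C N ^ (12 p) ‖τ - τ₀‖`.
(4) `κ X₀ ^ p - Ξ = κ (X₀ ^ p - X ^ p) + X ^ p (κ - W) + (X ^ p W - Ξ)`, so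
`‖κ X₀ ^ p - Ξ‖ ≤ K (N ^ (12 p) + ‖Ξ‖) (‖τ - τ₀‖ + ‖W - κ‖ + 1 / ‖u‖)`.
(5) `m = m₀ m₁`: `‖τ - τ₀‖ ^ m T ≤ C ^ m₁ ‖v - j(τ₀)‖ ^ m₁ T ≤ C'`; `‖W - κ‖ ≤ 1` for `T ≥ C₂`, so `‖W - κ‖ ^ m T ≤ ‖W - κ‖ ^ m₁ T ≤ C₂`;
`(1 / ‖u‖) ^ m T ≤ (1 / ‖u‖) ^ m₁ T ≤ C₂`.  `pw`.
(6) `disc(w, w τ₀) = G2 w (w τ₀) ^ 3 - 27 G3 w (w τ₀) ^ 2 = w ^ (-12) (2 π) ^ 12 Δ(τ₀)` (`BDef_disc_w` in `LGO/U/BDef.lean`), so with `a = g₁₁`, `b = g₁₀`: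
`κ (disc * (a w + b (w τ₀)) ^ 12) ^ p - (2 π) ^ (12 p) Ξ = (2 π) ^ (12 p) (κ X₀ ^ p - Ξ)`.

PROOF of `loc_formA`.  Choose `ρ₀` with `κ disc ^ p ρ₀ ^ (12 p) = Ξ` (`disc ≠ 0`: `disc_ne_zero_w`; `IsAlgClosed.exists_pow_nat_eq`), and `root_n` with
`n = 12 p` for `a w + b (w τ₀)` and `2 π i ρ₀` (`i ^ (12 p) = 1`): `ζ`; `ρ = ζ ρ₀`.  `‖κ disc ^ p‖ ‖.. - 2 π i ρ‖ ^ (12 p) ≤ ‖κ (disc (..) ^ 12) ^ p - (2 π) ^ (12 p) Ξ‖`.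
See `loc_form` in `LGO/U/RLoc.lean`.
-/

namespace Pool.Agent.LGO.T

open UpperHalfPlane Pool.Agent.Hhelper14.ZP Pool.Agent.EllSch Pool.Agent.LGO Pool.Agent.LGO.U

private theorem LocA_him {τ' : ℍ} (hred : Red (τ' : ℂ)) : 1 / 2 ≤ (τ' : ℂ).im := by
  have h1 := hred.one_le
  have h2 := hred.re_le
  have h3 := hred.im_pos
  have h4 : 1 ≤ ‖(τ' : ℂ)‖ ^ 2 := by nlinarith
  rw [Complex.sq_norm, Complex.normSq_apply] at h4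
  have h5 : (τ' : ℂ).re * (τ' : ℂ).re ≤ 1 / 4 := by
    have h6 := abs_le.mp h2
    nlinarith [h6.1, h6.2]
  by_contra h7
  rw [not_le] at h7
  nlinarith

private theorem LocA_small {x c e T : ℝ} {m : ℕ} (hm : 0 < m) (he : 0 < e) (hT : 0 < T)
    (h : x ^ m * T ≤ c) (h1 : c / e ^ m ≤ T) : x ≤ e := by
  have hem : 0 < e ^ m := by positivity
  rw [div_le_iff₀ hem] at h1
  have h3 : x ^ m * T ≤ e ^ m * T := by rw [mul_comm (e ^ m)]; exact h.trans h1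
  exact le_of_pow_le_pow_left₀ hm.ne' he.le (le_of_mul_le_mul_right h3 hT)

private theorem LocA_large {s c R T : ℝ} {m : ℕ} (hm : 0 < m) (hs : 0 ≤ s) (hc : 0 < c)
    (h : T ≤ c * s ^ m) (h1 : c * R ^ m ≤ T) : R ≤ s :=
  le_of_pow_le_pow_left₀ hm.ne' hs (le_of_mul_le_mul_left (h1.trans h) hc)

private theorem LocA_two {X u B Φ : ℂ} {CB : ℝ} (p : ℕ) (hCB : 1 ≤ CB)
    (h : ‖X * u - B‖ * ‖u‖ ≤ CB * ‖B‖) (hu : CB ≤ ‖u‖) :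
    ‖X ^ p * (Φ * u ^ p) - B ^ p * Φ‖ * ‖u‖ ≤ p * 2 ^ (p - 1) * CB * ‖B ^ p * Φ‖ := by
  have hu0 : 0 < ‖u‖ := by linarith
  have hB0 : 0 ≤ ‖B‖ := norm_nonneg _
  have h1 : ‖X * u - B‖ ≤ ‖B‖ := by
    have h2 : ‖X * u - B‖ * ‖u‖ ≤ ‖B‖ * ‖u‖ := by
      refine h.trans ?_
      rw [mul_comm]
      exact mul_le_mul_of_nonneg_left hu hB0
    exact le_of_mul_le_mul_right h2 hu0
  have h2 : ‖X * u‖ ≤ 2 * ‖B‖ := by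
    calc ‖X * u‖ = ‖(X * u - B) + B‖ := by congr 1; ring
      _ ≤ ‖X * u - B‖ + ‖B‖ := norm_add_le _ _
      _ ≤ 2 * ‖B‖ := by linarith
  have h3 := pow_lip p h2 (by linarith : ‖B‖ ≤ 2 * ‖B‖)
  have h4 : X ^ p * (Φ * u ^ p) - B ^ p * Φ = ((X * u) ^ p - B ^ p) * Φ := by
    rw [mul_pow]
    ring
  rw [h4, norm_mul, norm_mul, norm_pow]
  rcases Nat.eq_zero_or_pos p with rfl | hp
  · simp
  · obtain ⟨k, rfl⟩ : ∃ k, p = k + 1 := ⟨p - 1, by omega⟩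
    rw [Nat.add_sub_cancel] at h3 ⊢
    calc ‖(X * u) ^ (k + 1) - B ^ (k + 1)‖ * ‖Φ‖ * ‖u‖ ≤
          ((k + 1 : ℕ) * (2 * ‖B‖) ^ k * ‖X * u - B‖) * ‖Φ‖ * ‖u‖ := by gcongr
      _ = (k + 1 : ℕ) * (2 * ‖B‖) ^ k * ‖Φ‖ * (‖X * u - B‖ * ‖u‖) := by ring
      _ ≤ (k + 1 : ℕ) * (2 * ‖B‖) ^ k * ‖Φ‖ * (CB * ‖B‖) := by gcongr
      _ = _ := by rw [mul_pow]; ring

private theorem LocA_comb {κ P P₀ W Ξ : ℂ} {M d₁ s Cz K3 : ℝ} (hM : 0 ≤ M) (hd₁ : 0 ≤ d₁)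
    (hs : 0 < s) (hCz : 0 ≤ Cz) (hK3 : 0 ≤ K3) (h1 : ‖P‖ ≤ Cz * M)
    (h2 : ‖P - P₀‖ ≤ Cz * M * d₁) (h3 : ‖P * W - Ξ‖ * s ≤ K3 * ‖Ξ‖) :
    ‖κ * P₀ - Ξ‖ ≤ (‖κ‖ * Cz + Cz + K3) * (M + ‖Ξ‖) * (d₁ + ‖W - κ‖ + 1 / s) := by
  have e : κ * P₀ - Ξ = κ * (P₀ - P) + P * (κ - W) + (P * W - Ξ) := by ring
  have h3' : ‖P * W - Ξ‖ ≤ K3 * ‖Ξ‖ * (1 / s) := by
    rw [mul_one_div]
    rwa [le_div_iff₀ hs]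
  have p1 : 0 ≤ 1 / s := by positivity
  have p2 : 0 ≤ ‖Ξ‖ := norm_nonneg _
  have p3 : 0 ≤ ‖W - κ‖ := norm_nonneg _
  have h5 : ‖κ * P₀ - Ξ‖ ≤ ‖κ‖ * (Cz * M * d₁) + Cz * M * ‖W - κ‖ + K3 * ‖Ξ‖ * (1 / s) := by
    rw [e]
    refine (norm_add_le _ _).trans (add_le_add ((norm_add_le _ _).trans (add_le_add ?_ ?_)) h3')
    · rw [norm_mul, norm_sub_rev]
      gcongr
    · rw [norm_mul, norm_sub_rev κ]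
      gcongr
  refine h5.trans ?_
  have r1 : ‖κ‖ * (Cz * M * d₁) ≤
      ‖κ‖ * Cz * ((M + ‖Ξ‖) * (d₁ + ‖W - κ‖ + 1 / s)) := by
    have : ‖κ‖ * (Cz * M * d₁) = ‖κ‖ * Cz * (M * d₁) := by ring
    rw [this]
    refine mul_le_mul_of_nonneg_left ?_ (by positivity)
    exact mul_le_mul (by linarith) (by linarith) hd₁ (by linarith)
  have r2 : Cz * M * ‖W - κ‖ ≤ Cz * ((M + ‖Ξ‖) * (d₁ + ‖W - κ‖ + 1 / s)) := by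
    rw [mul_assoc Cz]
    refine mul_le_mul_of_nonneg_left ?_ hCz
    exact mul_le_mul (by linarith) (by linarith) p3 (by linarith)
  have r3 : K3 * ‖Ξ‖ * (1 / s) ≤ K3 * ((M + ‖Ξ‖) * (d₁ + ‖W - κ‖ + 1 / s)) := by
    rw [mul_assoc K3]
    refine mul_le_mul_of_nonneg_left ?_ hK3
    exact mul_le_mul (by linarith) (by linarith) p1 (by linarith)
  nlinarith [r1, r2, r3]

private theorem LocA_S (a1 a2 a3 a4 a5 a6 : ℝ) : ∃ S : ℝ, 1 ≤ S ∧ a1 ≤ S ∧ a2 ≤ S ∧ a3 ≤ S ∧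
    a4 ≤ S ∧ a5 ≤ S ∧ a6 ≤ S := by
  refine ⟨1 + |a1| + |a2| + |a3| + |a4| + |a5| + |a6|, ?_, ?_, ?_, ?_, ?_, ?_, ?_⟩ <;>
    linarith [abs_nonneg a1, abs_nonneg a2, abs_nonneg a3, abs_nonneg a4, abs_nonneg a5,
      abs_nonneg a6, le_abs_self a1, le_abs_self a2, le_abs_self a3, le_abs_self a4,
      le_abs_self a5, le_abs_self a6]

theorem loc_idA {w : ℂ} (hw : w ≠ 0) (τ₀ : ℍ) (κ : ℂ) (p : ℕ) (C₂ : ℝ) (m₁ : ℕ) (hm₁ : 0 < m₁) :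
    ∃ (C : ℝ) (m : ℕ), 1 ≤ C ∧ 0 < m ∧ ∀ (T : ℝ) (u v B Φ : ℂ), C ≤ T → T ≤ C₂ * ‖u‖ ^ m₁ →
      ‖v - jInv τ₀‖ ^ m₁ * T ≤ C₂ → ‖Φ * u ^ p - κ‖ ^ m₁ * T ≤ C₂ → NCM v → IsB v u B →
        ∃ a b : ℤ, ¬ (a = 0 ∧ b = 0) ∧ |(a : ℝ)| ≤ C * mdeg v u ∧ |(b : ℝ)| ≤ C * mdeg v u ∧
          ‖κ * ((G2 w (w * τ₀) ^ 3 - 27 * G3 w (w * τ₀) ^ 2) *
              ((a : ℂ) * w + b * (w * τ₀)) ^ 12) ^ p - (2 * Real.pi) ^ (12 * p) * (B ^ p * Φ)‖ ^ m *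
            T ≤ C * ((mdeg v u : ℝ) ^ (12 * p) + ‖B ^ p * Φ‖) ^ m := by
  obtain ⟨Cz, r, hCz, hr, hz⟩ := z_lip τ₀ p (show (0 : ℝ) < 1 / 2 by norm_num)
  obtain ⟨CB, hCB, hcusp⟩ := B_cusp
  obtain ⟨CJ, m₀, ε, hCJ, hm₀, hε, hJ⟩ := j_local τ₀
  obtain ⟨c, hc⟩ : ∃ x : ℝ, x = max 1 C₂ := ⟨_, rfl⟩
  have hc1 : 1 ≤ c := by rw [hc]; exact le_max_left _ _
  have hcC : C₂ ≤ c := by rw [hc]; exact le_max_right _ _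
  have hc0 : 0 < c := by linarith
  obtain ⟨c', hc'⟩ : ∃ x : ℝ, x = CJ ^ m₁ * c + c := ⟨_, rfl⟩
  have hJ0 : 0 ≤ CJ ^ m₁ * c := by positivity
  have hc'0 : 0 ≤ c' := by rw [hc']; linarith
  obtain ⟨K3, hK3⟩ : ∃ x : ℝ, x = p * 2 ^ (p - 1) * CB := ⟨_, rfl⟩
  have hK30 : 0 ≤ K3 := by rw [hK3]; positivity
  obtain ⟨K, hK⟩ : ∃ x : ℝ, x = ‖κ‖ * Cz + Cz + K3 := ⟨_, rfl⟩
  have hK0 : 0 ≤ K := by rw [hK]; positivity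
  obtain ⟨m, hm⟩ : ∃ x : ℕ, x = m₀ * m₁ := ⟨_, rfl⟩
  have hm0 : 0 < m := by rw [hm]; exact Nat.mul_pos hm₀ hm₁
  have hmm : m₁ ≤ m := by rw [hm]; exact Nat.le_mul_of_pos_left m₁ hm₀
  obtain ⟨F, hF⟩ : ∃ x : ℝ, x = (2 * Real.pi) ^ (12 * p * m) * (3 * (3 * K) ^ m * c') :=
    ⟨_, rfl⟩
  have hF0 : 0 ≤ F := by rw [hF]; positivity
  obtain ⟨S, hS1, hS2, hS3, hS4, hS5, hS6, hS7⟩ :=
    LocA_S (c / (ε / 2) ^ m₁) (c' / r ^ m) (c / 1 ^ m₁) (c * CB ^ m₁) Cz F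
  refine ⟨S, m, hS1, hm0, fun T u v B Φ hST hT1 hT2 hT3 hnc hisB => ?_⟩
  have hT0 : 0 < T := by linarith
  have hu0 : 0 ≤ ‖u‖ := norm_nonneg _
  have hTc : T ≤ c * ‖u‖ ^ m₁ := hT1.trans (by gcongr)
  have hTv : ‖v - jInv τ₀‖ ^ m₁ * T ≤ c := hT2.trans hcC
  have hTW : ‖Φ * u ^ p - κ‖ ^ m₁ * T ≤ c := hT3.trans hcC
  -- `v` is near `j(τ₀)`
  have g4 : ‖v - jInv τ₀‖ < ε := by
    have := LocA_small hm₁ (half_pos hε) hT0 hTv (hS2.trans hST)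
    linarith
  obtain ⟨τ, hτv, hτ⟩ := hJ v g4
  obtain ⟨d, hd⟩ : ∃ x : ℝ, x = ‖(τ : ℂ) - (τ₀ : ℂ)‖ := ⟨_, rfl⟩
  have hd0 : 0 ≤ d := by rw [hd]; exact norm_nonneg _
  rw [← hd] at hτ
  have g5 : d ^ m * T ≤ CJ ^ m₁ * c := by
    calc d ^ m * T = (d ^ m₀) ^ m₁ * T := by rw [hm, pow_mul]
      _ ≤ (CJ * ‖v - jInv τ₀‖) ^ m₁ * T := by gcongr
      _ = CJ ^ m₁ * (‖v - jInv τ₀‖ ^ m₁ * T) := by rw [mul_pow]; ring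
      _ ≤ CJ ^ m₁ * c := by gcongr
  have g5' : d ^ m * T ≤ c' := by rw [hc']; linarith
  have g6 : d ≤ r := LocA_small hm0 hr hT0 g5' (hS3.trans hST)
  have g7 : ‖Φ * u ^ p - κ‖ ≤ 1 := LocA_small hm₁ one_pos hT0 hTW (hS4.trans hST)
  have g8 : CB ≤ ‖u‖ := LocA_large hm₁ hu0 hc0 hTc (hS5.trans hST)
  have hupos : 0 < ‖u‖ := by linarith
  have g9 : ‖Φ * u ^ p - κ‖ ^ m * T ≤ c' := by
    calc ‖Φ * u ^ p - κ‖ ^ m * T ≤ ‖Φ * u ^ p - κ‖ ^ m₁ * T :=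
          mul_le_mul_of_nonneg_right (pow_le_pow_of_le_one (norm_nonneg _) g7 hmm) hT0.le
      _ ≤ c := hTW
      _ ≤ c' := by rw [hc']; linarith
  have g10 : (1 / ‖u‖) ^ m * T ≤ c' := by
    have h1 : 1 / ‖u‖ ≤ 1 := by
      rw [div_le_one hupos]
      linarith
    have h2 : 0 ≤ 1 / ‖u‖ := by positivity
    calc (1 / ‖u‖) ^ m * T ≤ (1 / ‖u‖) ^ m₁ * T :=
          mul_le_mul_of_nonneg_right (pow_le_pow_of_le_one h2 h1 hmm) hT0.le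
      _ ≤ (1 / ‖u‖) ^ m₁ * (c * ‖u‖ ^ m₁) := by gcongr
      _ = c := by
          rw [one_div, inv_pow]
          field_simp
      _ ≤ c' := by rw [hc']; linarith
  -- `τ'` and `g`
  obtain ⟨τ', hred, hτ'⟩ := Unif_exists_red u
  obtain ⟨g, hgdet, hgpos, hgprim, hgmaps⟩ : ∃ g : Matrix (Fin 2) (Fin 2) ℤ,
      g.det = mdeg v u ∧ 0 < g.det ∧ Prim g ∧ Maps g (τ : ℂ) (τ' : ℂ) := by
    have h1 := hisB.isog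
    rw [← hτv, ← hτ'] at h1
    have h2 := exists_prim_mdeg h1
    rwa [hτv, hτ'] at h2
  have him' := LocA_him hred
  have hNpos : 0 < mdeg v u := by
    rw [hgdet] at hgpos
    exact_mod_cast hgpos
  obtain ⟨z1, z2, z3, z4, z5⟩ := hz τ τ' g (mdeg v u) (by rw [← hd]; exact g6) him' hgdet hNpos
    hgmaps
  rw [← hd] at z5
  have k1 := hcusp τ τ' g B (by rw [hτv]; exact hnc) hred hgprim hgpos hgmaps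
    (by rw [hτv, hτ']; exact hisB)
  rw [hτ'] at k1
  obtain ⟨N, hN⟩ : ∃ x : ℝ, x = (mdeg v u : ℝ) := ⟨_, rfl⟩
  rw [← hN] at z2 z3 z4 z5
  have hN0 : 0 ≤ N := by rw [hN]; exact Nat.cast_nonneg _
  rw [← hN]
  obtain ⟨z₀, hz₀⟩ : ∃ z : ℂ, z = (g 1 0 : ℂ) * (τ₀ : ℂ) + (g 1 1 : ℂ) := ⟨_, rfl⟩
  rw [← hz₀] at z5
  have k2 := LocA_two p (Φ := Φ) hCB k1 g8
  rw [← hK3] at k2
  have k3 := LocA_comb (κ := κ) (pow_nonneg hN0 (12 * p)) hd0 hupos (by linarith : 0 ≤ Cz) hK30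
    z4 z5 k2
  rw [← hK] at k3
  have k4 := pw hm0 (norm_nonneg _) hK0 (by positivity : 0 ≤ N ^ (12 * p) + ‖B ^ p * Φ‖) hT0.le
    hd0 (norm_nonneg _) (by positivity : 0 ≤ 1 / ‖u‖) k3 g5' g9 g10
  refine ⟨g 1 1, g 1 0, z1, ?_, ?_, ?_⟩
  · exact z2.trans (mul_le_mul_of_nonneg_right hS6 hN0)
  · exact z3.trans (mul_le_mul_of_nonneg_right hS6 hN0)
  · have h1 : κ * ((G2 w (w * τ₀) ^ 3 - 27 * G3 w (w * τ₀) ^ 2) *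
        (((g 1 1 : ℤ) : ℂ) * w + ((g 1 0 : ℤ) : ℂ) * (w * τ₀)) ^ 12) ^ p -
          (2 * Real.pi) ^ (12 * p) * (B ^ p * Φ) =
        (2 * Real.pi : ℂ) ^ (12 * p) *
          (κ * (z₀ ^ 12 * ModularForm.discriminant τ₀) ^ p - B ^ p * Φ) := by
      have h4 : (((g 1 1 : ℤ) : ℂ) * w + ((g 1 0 : ℤ) : ℂ) * (w * τ₀)) ^ 12 =
          w ^ 12 * z₀ ^ 12 := by
        rw [← mul_pow, hz₀]
        congr 1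
        ring
      have h5 : (G2 w (w * τ₀) ^ 3 - 27 * G3 w (w * τ₀) ^ 2) *
          (((g 1 1 : ℤ) : ℂ) * w + ((g 1 0 : ℤ) : ℂ) * (w * τ₀)) ^ 12 =
          (2 * Real.pi : ℂ) ^ 12 * (z₀ ^ 12 * ModularForm.discriminant τ₀) := by
        rw [h4, BDef_disc_w τ₀ hw]
        field_simp
      rw [h5, mul_pow ((2 * Real.pi : ℂ) ^ 12), ← pow_mul]
      ring
    rw [h1, norm_mul, mul_pow]
    have h5 : ‖(2 * Real.pi : ℂ) ^ (12 * p)‖ ^ m = (2 * Real.pi) ^ (12 * p * m) := by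
      rw [norm_pow, ← pow_mul]
      congr 1
      rw [norm_mul, Complex.norm_real, Real.norm_eq_abs, abs_of_pos Real.pi_pos]
      simp
    rw [h5]
    calc (2 * Real.pi) ^ (12 * p * m) *
          ‖κ * (z₀ ^ 12 * ModularForm.discriminant τ₀) ^ p - B ^ p * Φ‖ ^ m * T =
          (2 * Real.pi) ^ (12 * p * m) *
            (‖κ * (z₀ ^ 12 * ModularForm.discriminant τ₀) ^ p - B ^ p * Φ‖ ^ m * T) := by ring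
      _ ≤ (2 * Real.pi) ^ (12 * p * m) *
            (3 * (3 * K) ^ m * c' * (N ^ (12 * p) + ‖B ^ p * Φ‖) ^ m) := by gcongr
      _ = F * (N ^ (12 * p) + ‖B ^ p * Φ‖) ^ m := by rw [hF]; ring
      _ ≤ S * (N ^ (12 * p) + ‖B ^ p * Φ‖) ^ m := by gcongr

theorem loc_formA {w : ℂ} (hw : w ≠ 0) (τ₀ : ℍ) {κ : ℂ} (hκ : κ ≠ 0) {p : ℕ} (hp : 0 < p)
    (C₂ : ℝ) (m₁ : ℕ) (hm₁ : 0 < m₁) :
    ∃ (C : ℝ) (m : ℕ), 1 ≤ C ∧ 0 < m ∧ ∀ (T : ℝ) (u v B Φ : ℂ), C ≤ T → T ≤ C₂ * ‖u‖ ^ m₁ →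
      ‖v - jInv τ₀‖ ^ m₁ * T ≤ C₂ → ‖Φ * u ^ p - κ‖ ^ m₁ * T ≤ C₂ → NCM v → IsB v u B →
        ∃ (a b : ℤ) (ρ : ℂ), ¬ (a = 0 ∧ b = 0) ∧ |(a : ℝ)| ≤ C * mdeg v u ∧
          |(b : ℝ)| ≤ C * mdeg v u ∧
          κ * (G2 w (w * τ₀) ^ 3 - 27 * G3 w (w * τ₀) ^ 2) ^ p * ρ ^ (12 * p) = B ^ p * Φ ∧
          ‖(a : ℂ) * w + b * (w * τ₀) - 2 * Real.pi * Complex.I * ρ‖ ^ (12 * p * m) * T ≤
            C * ((mdeg v u : ℝ) ^ (12 * p) + ‖B ^ p * Φ‖) ^ m := by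
  obtain ⟨C, m, hC, hm, h⟩ := loc_idA hw τ₀ κ p C₂ m₁ hm₁
  obtain ⟨Δ₀, hΔ₀⟩ : ∃ x : ℂ, x = G2 w (w * τ₀) ^ 3 - 27 * G3 w (w * τ₀) ^ 2 := ⟨_, rfl⟩
  have hΔ : Δ₀ ≠ 0 := by rw [hΔ₀]; exact disc_ne_zero_w τ₀ hw
  obtain ⟨D, hDdef⟩ : ∃ x : ℂ, x = κ * Δ₀ ^ p := ⟨_, rfl⟩
  have hD : D ≠ 0 := by rw [hDdef]; exact mul_ne_zero hκ (pow_ne_zero _ hΔ)
  have hD' : 0 < ‖D‖ := norm_pos_iff.mpr hD
  have hn : 0 < 12 * p := by omega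
  refine ⟨max C (C / ‖D‖ ^ m), m, hC.trans (le_max_left _ _), hm,
    fun T u v B Φ hT h1 h2 h3 hnc hB => ?_⟩
  have hCT : C ≤ T := (le_max_left _ _).trans hT
  have hT0 : 0 ≤ T := by linarith
  obtain ⟨a, b, hab, ha, hb, hE⟩ := h T u v B Φ hCT h1 h2 h3 hnc hB
  rw [← hΔ₀] at hE ⊢
  obtain ⟨ρ₀, hρ₀⟩ := IsAlgClosed.exists_pow_nat_eq (B ^ p * Φ / D) (n := 12 * p) hn
  have hρ₁ : D * ρ₀ ^ (12 * p) = B ^ p * Φ := by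
    rw [hρ₀]
    field_simp
  obtain ⟨ζ, hζ, hroot⟩ := root_n (12 * p) hn ((a : ℂ) * w + b * (w * τ₀))
    (2 * Real.pi * Complex.I * ρ₀)
  have hI : Complex.I ^ (12 * p) = 1 := by
    rw [show 12 * p = 4 * (3 * p) by ring, pow_mul, Complex.I_pow_four, one_pow]
  have hmd : (0 : ℝ) ≤ (mdeg v u : ℝ) := Nat.cast_nonneg _
  refine ⟨a, b, ζ * ρ₀, hab, ha.trans (mul_le_mul_of_nonneg_right (le_max_left _ _) hmd),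
    hb.trans (mul_le_mul_of_nonneg_right (le_max_left _ _) hmd), ?_, ?_⟩
  · rw [mul_pow, hζ, one_mul, ← hDdef, hρ₁]
  · have e1 : (a : ℂ) * w + b * (w * τ₀) - 2 * Real.pi * Complex.I * (ζ * ρ₀) =
        (a : ℂ) * w + b * (w * τ₀) - ζ * (2 * Real.pi * Complex.I * ρ₀) := by ring
    have e2 : κ * (Δ₀ * ((a : ℂ) * w + b * (w * τ₀)) ^ 12) ^ p -
        (2 * Real.pi) ^ (12 * p) * (B ^ p * Φ) =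
        D * (((a : ℂ) * w + b * (w * τ₀)) ^ (12 * p) -
          (2 * Real.pi * Complex.I * ρ₀) ^ (12 * p)) := by
      rw [← hρ₁, mul_pow (2 * (Real.pi : ℂ) * Complex.I), mul_pow _ Complex.I, hI,
        mul_pow Δ₀, ← pow_mul ((a : ℂ) * w + b * (w * τ₀)), hDdef]
      ring
    rw [e2, norm_mul, mul_pow] at hE
    have e3 : 0 ≤ (mdeg v u : ℝ) ^ (12 * p) + ‖B ^ p * Φ‖ := by positivity
    rw [e1, pow_mul _ (12 * p) m]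
    calc (‖(a : ℂ) * w + b * (w * τ₀) - ζ * (2 * Real.pi * Complex.I * ρ₀)‖ ^ (12 * p)) ^ m * T ≤
          ‖((a : ℂ) * w + b * (w * τ₀)) ^ (12 * p) -
            (2 * Real.pi * Complex.I * ρ₀) ^ (12 * p)‖ ^ m * T := by
          gcongr
      _ ≤ C / ‖D‖ ^ m * ((mdeg v u : ℝ) ^ (12 * p) + ‖B ^ p * Φ‖) ^ m := by
          rw [div_mul_eq_mul_div, le_div_iff₀ (by positivity)]
          calc _ = ‖D‖ ^ m * ‖((a : ℂ) * w + b * (w * τ₀)) ^ (12 * p) -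
                (2 * Real.pi * Complex.I * ρ₀) ^ (12 * p)‖ ^ m * T := by ring
            _ ≤ _ := hE
      _ ≤ _ := by
          refine mul_le_mul_of_nonneg_right (le_max_right _ _) (by positivity)

end Pool.Agent.LGO.T
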