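import Mathlib
import Pool.Agent.LGO.U.RFld
import Pool.Agent.LGO.H.BdC
import Pool.Agent.LGO.Q.Quad

/-!
# LGO/T: from the measure to a bound for `T`

PROOF, as the second half of the proof of `meas_one` in `LGO/U/RMeas.lean`.  `Meas w w₂ ω` holds with the constant `C₂` (for `w₂ = w τ₀`, `ω = 2 π i`: `measG`;
for `ω = w'`: `measH`).  `η` is algebraic: `K₀ = ℚ(η)`, `K₁ = K ⊔ K₀`, `[K₁ : ℚ] ≤ d₀ M`, `Bd K₁ B₀ η` (`Quad_bd_alg` in `LGO/Q/Quad.lean`), so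
`Bd K₁ (B₀ + M) (η Ξ)` (`Bd.le`, `Bd.mul`); `fld_root` for `X ^ (12 p) - C (η Ξ)`: `K₂ ∋ ρ`, `[K₂ : ℚ] ≤ 12 p d₀ M`; `bd_root`: `Bd K₂ (B₀ + M) ρ`.
With `M' = C₃ M` (`≥ 2`, `≥ [K₂ : ℚ]`, `≥ B₀ + M`, `C₁ N ≤ exp M'`): `exp (-((C₂ M') ^ C₂)) ≤ ‖a w + b w₂ - ω ρ‖`.
`‖Ξ‖ ≤ exp M` (`Bd.aut` for the identity), `N ^ (12 p) + ‖Ξ‖ ≤ 2 exp (12 p M)`.  So
`T ≤ C₁ (2 exp (12 p M)) ^ m exp (12 p m (C₂ M') ^ C₂) ≤ exp ((C M) ^ C)` (if `T ≤ 0` it is clear).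
-/

namespace Pool.Agent.LGO.T

open Polynomial Pool.Agent.LGO Pool.Agent.LGO.U

/-- a measure for `a w + b w₂ - ω ρ` -/
def Meas (w w₂ ω : ℂ) : Prop :=
  ∃ C : ℕ, 1 ≤ C ∧ ∀ (K : IntermediateField ℚ ℂ) [FiniteDimensional ℚ K] (M : ℝ) (a b : ℤ)
    (ρ : ℂ), 2 ≤ M → (Module.finrank ℚ K : ℝ) ≤ M → |(a : ℝ)| ≤ Real.exp M →
    |(b : ℝ)| ≤ Real.exp M → ¬ (a = 0 ∧ b = 0) → Bd K M ρ →
    Real.exp (-((C * M) ^ C)) ≤ ‖(a : ℂ) * w + b * w₂ - ω * ρ‖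

private theorem MeasT_num {A : ℝ} (hA : 1 ≤ A) {q m C₂ C₃ C₄ : ℕ} (hC₂ : 1 ≤ C₂) (hC₃ : 1 ≤ C₃)
    (hC₄ : A + (2 * q + 1) * m ≤ C₄) {M : ℝ} (hM : 2 ≤ M) :
    A + (q + 1) * m * M + q * m * ((C₂ : ℝ) * (C₃ * M)) ^ C₂ ≤
      (((C₄ * C₂ * C₃ : ℕ) : ℝ) * M) ^ (C₄ * C₂ * C₃) := by
  have h2 : (1 : ℝ) ≤ C₂ := by exact_mod_cast hC₂
  have h3 : (1 : ℝ) ≤ C₃ := by exact_mod_cast hC₃
  have hm0 : (0 : ℝ) ≤ m := Nat.cast_nonneg m
  have hq0 : (0 : ℝ) ≤ q := Nat.cast_nonneg q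
  have hqm : 0 ≤ (2 * (q : ℝ) + 1) * m := by positivity
  have h4 : (1 : ℝ) ≤ C₄ := by linarith
  have h4' : 1 ≤ C₄ := by exact_mod_cast h4
  have hM1 : (1 : ℝ) ≤ M := by linarith
  set X : ℝ := ((C₂ : ℝ) * (C₃ * M)) ^ C₂ with hX
  have hb : M ≤ (C₂ : ℝ) * (C₃ * M) := by
    have h5 : M ≤ C₃ * M := le_mul_of_one_le_left (by linarith) h3
    exact h5.trans (le_mul_of_one_le_left (by linarith) h2)
  have hXM : M ≤ X := by
    refine hb.trans ?_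
    exact le_self_pow₀ (by linarith) (by omega)
  have hX1 : 1 ≤ X := hM1.trans hXM
  have h6 : A + (q + 1) * m * M + q * m * X ≤ C₄ * X := by
    have h7 : A ≤ A * X := le_mul_of_one_le_right (by linarith) hX1
    have h8 : (q + 1) * m * M ≤ (q + 1) * m * X := mul_le_mul_of_nonneg_left hXM (by positivity)
    have h9 : (A + (2 * q + 1) * m) * X ≤ C₄ * X := mul_le_mul_of_nonneg_right hC₄ (by linarith)
    calc A + (q + 1) * m * M + q * m * X ≤ A * X + (q + 1) * m * X + q * m * X := by linarith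
      _ = (A + (2 * q + 1) * m) * X := by ring
      _ ≤ C₄ * X := h9
  refine h6.trans ?_
  have hbase : (1 : ℝ) ≤ ((C₄ * C₂ * C₃ : ℕ) : ℝ) * M := by
    have h10 : (1 : ℝ) ≤ ((C₄ * C₂ * C₃ : ℕ) : ℝ) := by
      have : 1 ≤ C₄ * C₂ * C₃ := Nat.mul_pos (Nat.mul_pos h4' hC₂) hC₃
      exact_mod_cast this
    nlinarith
  have hexp : C₂ ≤ C₄ * C₂ * C₃ := by
    calc C₂ = 1 * C₂ * 1 := by ring
      _ ≤ C₄ * C₂ * C₃ := Nat.mul_le_mul (Nat.mul_le_mul h4' le_rfl) hC₃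
  calc (C₄ : ℝ) * X ≤ (C₄ : ℝ) ^ C₂ * X :=
        mul_le_mul_of_nonneg_right (le_self_pow₀ h4 (by omega)) (by linarith)
    _ = (((C₄ * C₂ * C₃ : ℕ) : ℝ) * M) ^ C₂ := by
        rw [hX, ← mul_pow]
        congr 1
        push_cast
        ring
    _ ≤ (((C₄ * C₂ * C₃ : ℕ) : ℝ) * M) ^ (C₄ * C₂ * C₃) := pow_le_pow_right₀ hbase hexp

theorem meas_use {w w₂ ω : ℂ} (h : Meas w w₂ ω) {η : ℂ} (hη : IsAlgebraic ℚ η) {p m : ℕ}
    (hp : 0 < p) (hm : 0 < m) (C₁ : ℝ) :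
    ∃ C : ℕ, 1 ≤ C ∧ ∀ (K : IntermediateField ℚ ℂ) [FiniteDimensional ℚ K] (M T : ℝ) (N : ℕ)
      (a b : ℤ) (ρ Ξ : ℂ), 2 ≤ M → (Module.finrank ℚ K : ℝ) ≤ M → (N : ℝ) ≤ Real.exp M →
      |(a : ℝ)| ≤ C₁ * N → |(b : ℝ)| ≤ C₁ * N → ¬ (a = 0 ∧ b = 0) → ρ ^ (12 * p) = η * Ξ →
      Bd K M Ξ → ‖(a : ℂ) * w + b * w₂ - ω * ρ‖ ^ (12 * p * m) * T ≤
        C₁ * ((N : ℝ) ^ (12 * p) + ‖Ξ‖) ^ m →
        T ≤ Real.exp ((C * M) ^ C) := by
  classical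
  obtain ⟨C₂, hC₂, hmeas⟩ := h
  obtain ⟨B₀, hB₀, hBη⟩ := Quad_bd_alg hη
  have hfin₀ : FiniteDimensional ℚ (IntermediateField.adjoin ℚ {η}) :=
    IntermediateField.adjoin.finiteDimensional hη.isIntegral
  set d₀ : ℕ := Module.finrank ℚ (IntermediateField.adjoin ℚ {η}) with hd₀
  obtain ⟨A, hA⟩ : ∃ A : ℝ, A = max C₁ 1 := ⟨_, rfl⟩
  have hA1 : 1 ≤ A := by rw [hA]; exact le_max_right _ _
  have hCA : C₁ ≤ A := by rw [hA]; exact le_max_left _ _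
  obtain ⟨q, hq⟩ : ∃ q : ℕ, q = 12 * p := ⟨_, rfl⟩
  have hq0 : 0 < q := by omega
  rw [← hq]
  set C₃ : ℕ := q * d₀ + ⌈A⌉₊ + ⌈B₀⌉₊ + 1 with hC₃
  set C₄ : ℕ := ⌈A⌉₊ + (2 * q + 1) * m + 1 with hC₄
  have h13 : 1 ≤ C₃ := by omega
  have hC₄' : A + (2 * q + 1) * m ≤ (C₄ : ℝ) := by
    have := Nat.le_ceil A
    rw [hC₄]
    push_cast
    linarith
  have hC₄1 : 1 ≤ C₄ := by omega
  refine ⟨C₄ * C₂ * C₃, Nat.mul_pos (Nat.mul_pos hC₄1 hC₂) h13, ?_⟩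
  intro K hK M T N a b ρ Ξ hM hdeg hN ha hb hab hρη hBd hδ
  have hnum := MeasT_num hA1 (q := q) (m := m) hC₂ h13 hC₄' hM
  have hM1 : (1 : ℝ) ≤ M := by linarith
  have hm0 : (0 : ℝ) ≤ m := Nat.cast_nonneg m
  rcases le_or_gt T 0 with hT | hT
  · exact hT.trans (Real.exp_pos _).le
  -- the fields
  set K₁ : IntermediateField ℚ ℂ := K ⊔ IntermediateField.adjoin ℚ {η} with hK₁
  have hfin₁ : FiniteDimensional ℚ K₁ := IntermediateField.finiteDimensional_sup K _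
  have hη₁ : η ∈ K₁ :=
    (le_sup_right : IntermediateField.adjoin ℚ {η} ≤ K ⊔ IntermediateField.adjoin ℚ {η})
      (IntermediateField.mem_adjoin_simple_self ℚ η)
  have hdeg₁ : Module.finrank ℚ K₁ ≤ Module.finrank ℚ K * d₀ :=
    IntermediateField.finrank_sup_le K _
  have hη₂ : Bd K₁ (B₀ + M) (η * Ξ) := (hBη K₁ hη₁).mul (hBd.le le_sup_left)
  obtain ⟨K₂, hK₁₂, hfin₂, hdeg₂, hρ₂⟩ := fld_root q K₁ (X ^ q - C (η * Ξ))
    (X_pow_sub_C_ne_zero hq0 _) (by rw [natDegree_X_pow_sub_C])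
    (by
      intro i
      rw [coeff_sub, coeff_X_pow, coeff_C]
      refine K₁.sub_mem ?_ ?_
      · split_ifs
        · exact K₁.one_mem
        · exact K₁.zero_mem
      · split_ifs
        · exact hη₂.mem
        · exact K₁.zero_mem) ρ (by rw [eval_sub, eval_pow, eval_X, eval_C, hρη, sub_self])
  have hBρ : Bd K₂ (B₀ + M) ρ := by
    refine bd_root q hq0 hρ₂ ?_
    rw [hρη]
    exact hη₂.le hK₁₂
  -- the measure
  have hC₁3 : A + 1 ≤ (C₃ : ℝ) := by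
    have h5 := Nat.le_ceil A
    have h6 : ((⌈A⌉₊ : ℕ) : ℝ) + 1 ≤ (C₃ : ℝ) := by
      have : ⌈A⌉₊ + 1 ≤ C₃ := by omega
      exact_mod_cast this
    linarith
  have hB₀3 : B₀ + 1 ≤ (C₃ : ℝ) := by
    have h5 := Nat.le_ceil B₀
    have h6 : ((⌈B₀⌉₊ : ℕ) : ℝ) + 1 ≤ (C₃ : ℝ) := by
      have : ⌈B₀⌉₊ + 1 ≤ C₃ := by omega
      exact_mod_cast this
    linarith
  have hM'2 : 2 ≤ (C₃ : ℝ) * M := by nlinarith
  have hdegM : (Module.finrank ℚ K₂ : ℝ) ≤ (C₃ : ℝ) * M := by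
    have h5 : Module.finrank ℚ K₂ ≤ (q * d₀) * Module.finrank ℚ K := by
      calc Module.finrank ℚ K₂ ≤ q * Module.finrank ℚ K₁ := hdeg₂
        _ ≤ q * (Module.finrank ℚ K * d₀) := Nat.mul_le_mul_left _ hdeg₁
        _ = (q * d₀) * Module.finrank ℚ K := by ring
    have h6 : (Module.finrank ℚ K₂ : ℝ) ≤ ((q * d₀ : ℕ) : ℝ) * (Module.finrank ℚ K : ℝ) := by
      exact_mod_cast h5
    have h7 : ((q * d₀ : ℕ) : ℝ) ≤ (C₃ : ℝ) := by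
      have : q * d₀ ≤ C₃ := by omega
      exact_mod_cast this
    calc (Module.finrank ℚ K₂ : ℝ) ≤ ((q * d₀ : ℕ) : ℝ) * (Module.finrank ℚ K : ℝ) := h6
      _ ≤ (C₃ : ℝ) * M := mul_le_mul h7 hdeg (Nat.cast_nonneg _) (Nat.cast_nonneg _)
  have hBM : B₀ + M ≤ (C₃ : ℝ) * M := by nlinarith
  have hCN : C₁ * (N : ℝ) ≤ Real.exp ((C₃ : ℝ) * M) := by
    have h5 : C₁ ≤ Real.exp A := by
      have := Real.add_one_le_exp A
      linarith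
    calc C₁ * (N : ℝ) ≤ Real.exp A * Real.exp M :=
          mul_le_mul h5 hN (Nat.cast_nonneg _) (Real.exp_pos _).le
      _ = Real.exp (A + M) := (Real.exp_add _ _).symm
      _ ≤ Real.exp ((C₃ : ℝ) * M) := by
          apply Real.exp_le_exp.2
          nlinarith
  have hlow := hmeas K₂ ((C₃ : ℝ) * M) a b ρ hM'2 hdegM (ha.trans hCN) (hb.trans hCN) hab
    (hBρ.mono hBM)
  set δ : ℝ := ‖(a : ℂ) * w + b * w₂ - ω * ρ‖ with hδd
  set Y : ℝ := ((C₂ : ℝ) * ((C₃ : ℝ) * M)) ^ C₂ with hY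
  have hδ1 : Real.exp (-(q * m * Y)) ≤ δ ^ (q * m) := by
    have h5 : Real.exp (-(q * m * Y)) = Real.exp (-Y) ^ (q * m) := by
      rw [← Real.exp_nat_mul]
      congr 1
      push_cast
      ring
    rw [h5]
    exact pow_le_pow_left₀ (Real.exp_pos _).le hlow _
  have hΞn : ‖Ξ‖ ≤ Real.exp M := hBd.aut (RingEquiv.refl ℂ)
  have hsum : (N : ℝ) ^ q + ‖Ξ‖ ≤ Real.exp ((q + 1) * M) := by
    have h5 : (N : ℝ) ^ q ≤ Real.exp (q * M) := by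
      rw [Real.exp_nat_mul]
      exact pow_le_pow_left₀ (Nat.cast_nonneg _) hN _
    have hq1 : (1 : ℝ) ≤ q := by exact_mod_cast hq0
    have h7 : Real.exp M ≤ Real.exp (q * M) := Real.exp_le_exp.2 (by nlinarith)
    have h8 : (2 : ℝ) ≤ Real.exp M := by
      have := Real.add_one_le_exp M
      linarith
    have h9 : Real.exp ((q + 1) * M) = Real.exp M * Real.exp (q * M) := by
      rw [← Real.exp_add]
      congr 1
      ring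
    have h10 := Real.exp_pos (q * M)
    rw [h9]
    nlinarith
  have hsumm : ((N : ℝ) ^ q + ‖Ξ‖) ^ m ≤ Real.exp ((q + 1) * m * M) := by
    have h5 : Real.exp ((q + 1) * m * M) = Real.exp ((q + 1) * M) ^ m := by
      rw [← Real.exp_nat_mul]
      congr 1
      ring
    rw [h5]
    exact pow_le_pow_left₀ (by positivity) hsum _
  have hfinal : Real.exp (-(q * m * Y)) * T ≤ Real.exp (A + (q + 1) * m * M) := by
    calc Real.exp (-(q * m * Y)) * T ≤ δ ^ (q * m) * T :=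
          mul_le_mul_of_nonneg_right hδ1 hT.le
      _ ≤ C₁ * ((N : ℝ) ^ q + ‖Ξ‖) ^ m := hδ
      _ ≤ Real.exp A * Real.exp ((q + 1) * m * M) := by
          refine mul_le_mul ?_ hsumm (by positivity) (Real.exp_pos _).le
          have := Real.add_one_le_exp A
          linarith
      _ = Real.exp (A + (q + 1) * m * M) := (Real.exp_add _ _).symm
  have h5 : T ≤ Real.exp (A + (q + 1) * m * M + q * m * Y) := by
    have h6 : Real.exp (q * m * Y) * (Real.exp (-(q * m * Y)) * T) = T := by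
      rw [← mul_assoc, ← Real.exp_add, add_neg_cancel, Real.exp_zero, one_mul]
    calc T = Real.exp (q * m * Y) * (Real.exp (-(q * m * Y)) * T) := h6.symm
      _ ≤ Real.exp (q * m * Y) * Real.exp (A + (q + 1) * m * M) :=
          mul_le_mul_of_nonneg_left hfinal (Real.exp_pos _).le
      _ = Real.exp (A + (q + 1) * m * M + q * m * Y) := by
          rw [← Real.exp_add]
          congr 1
          ring
  exact h5.trans (Real.exp_le_exp.2 hnum)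

end Pool.Agent.LGO.T
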