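import Mathlib
import Pool.Agent.LGO.G.Defs
import Pool.Agent.LGO.H.Core
import Pool.Agent.LGO.U.BDef

/-!
# LGO/T: definitions (Theorem T, note 3089)

`V` is a curve in `ℂⁿ`, `i 0, i 1, i 2` are three coordinates, `F, G` are polynomials in three variables with algebraic
coefficients, `Φ = F / G`.

`Wt V i P Q b k`: the function `W = P / Q` on `V` satisfies a monic equation over the polynomials in `x_b`, with a coefficient of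
`W ^ j` of degree at most `k (r - j)`.

`TorData V i a b F G p q C E`: outside the finite set `E` the numbers `‖Φ‖ max(1, ‖x_a‖) ^ p` and `max(1, ‖x_b‖) ^ q` have the same size:
`p (x_a)_∞ - q (x_b)_∞` is the divisor of `1 / Φ` on the normalisation of the closure of the image of `V`.

`Pt p q C m u v Φ`: the conditions on the numbers `u = x_a`, `v = x_b`, `Φ` at a point `x ∈ V`.
-/

namespace Pool.Agent.LGO.T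

open MvPolynomial Filter Topology Pool.Agent.Hhelper14.ZPL Pool.Agent.LGO Pool.Agent.LGO.U

/-- the certificate -/
def Wt {n : ℕ} (V : Set (Fin n → ℂ)) (i : Fin 3 → Fin n) (P Q : MvPolynomial (Fin 3) Qb)
    (b : Fin 3) (k : ℕ) : Prop :=
  ∃ (r : ℕ) (c : ℕ → Polynomial Qb), 0 < r ∧ (∀ j < r, (c j).natDegree ≤ k * (r - j)) ∧
    ∀ x ∈ V, (aeval (x ∘ i) P : ℂ) ^ r + ∑ j ∈ Finset.range r,
      (Polynomial.aeval (x (i b)) (c j) : ℂ) * (aeval (x ∘ i) P : ℂ) ^ j *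
        (aeval (x ∘ i) Q : ℂ) ^ (r - j) = 0

/-- `p (x_a)_∞` and `q (x_b)_∞` differ by the divisor of `F / G` -/
structure TorData {n : ℕ} (V : Set (Fin n → ℂ)) (i : Fin 3 → Fin n) (a b : Fin 3)
    (F G : MvPolynomial (Fin 3) Qb) (p q : ℕ) (C : ℝ) (E : Set (Fin n → ℂ)) : Prop where
  hp : 0 < p
  hq : 0 < q
  fin : E.Finite
  neF : ∀ x ∈ V, x ∉ E → (aeval (x ∘ i) F : ℂ) ≠ 0
  neG : ∀ x ∈ V, x ∉ E → (aeval (x ∘ i) G : ℂ) ≠ 0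
  up : ∀ x ∈ V, x ∉ E → ‖(aeval (x ∘ i) F : ℂ)‖ * max 1 ‖x (i a)‖ ^ p ≤
    C * (‖(aeval (x ∘ i) G : ℂ)‖ * max 1 ‖x (i b)‖ ^ q)
  lo : ∀ x ∈ V, x ∉ E → ‖(aeval (x ∘ i) G : ℂ)‖ * max 1 ‖x (i b)‖ ^ q ≤
    C * (‖(aeval (x ∘ i) F : ℂ)‖ * max 1 ‖x (i a)‖ ^ p)

/-- the hypothesis of Theorem T: the pole divisors of two of the three coordinates are proportional modulo torsion -/
def Tor {n : ℕ} (V : Set (Fin n → ℂ)) (i : Fin 3 → Fin n) : Prop :=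
  ∃ (a b : Fin 3) (F G : MvPolynomial (Fin 3) Qb) (p q : ℕ) (C : ℝ) (E : Set (Fin n → ℂ)),
    a ≠ b ∧ TorData V i a b F G p q C E

/-- the conditions on `u = x_a`, `v = x_b`, `Φ = F(x) / G(x)` -/
structure Pt (p q : ℕ) (C : ℝ) (m : ℕ) (u v Φ : ℂ) : Prop where
  ncm : NCM v
  isog : ∃ N, 0 < N ∧ IsogDeg N v u
  intu : IsIntegral ℤ u
  intv : IsIntegral ℤ v
  ne : Φ ≠ 0
  up : ∀ s : ℂ ≃+* ℂ, ‖s Φ‖ * max 1 ‖s u‖ ^ p ≤ C * max 1 ‖s v‖ ^ q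
  lo : ∀ s : ℂ ≃+* ℂ, max 1 ‖s v‖ ^ q ≤ C * (‖s Φ‖ * max 1 ‖s u‖ ^ p)
  int1 : IsIntegral ℤ ((m : ℂ) * Φ)
  int2 : IsIntegral ℤ ((m : ℂ) * Φ⁻¹)

/-- a function `Y` with its only pole at a point at infinity where `x_a = ∞`, `x_b = β`, and the value `κ` of `Φ x_a ^ p` there -/
structure NearA {n : ℕ} (V : Set (Fin n → ℂ)) (i : Fin 3 → Fin n) (a b : Fin 3)
    (F G : MvPolynomial (Fin 3) Qb) (p : ℕ) (Y : MvPolynomial (Fin 3) Qb) (κ β : ℂ) (C : ℝ)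
    (m : ℕ) (E : Set (Fin n → ℂ)) : Prop where
  algκ : IsAlgebraic ℚ κ
  algβ : IsAlgebraic ℚ β
  ne : κ ≠ 0
  fin : E.Finite
  nc : ∀ c : ℂ, ∃ x ∈ V, (aeval (x ∘ i) Y : ℂ) ≠ c
  h : ∀ s : ℂ ≃+* ℂ, ∀ x ∈ V, x ∉ E → C ≤ ‖s (aeval (x ∘ i) Y : ℂ)‖ →
    ‖s (aeval (x ∘ i) Y : ℂ)‖ ≤ C * ‖s (x (i a))‖ ^ m ∧
    ‖s (x (i b)) - s β‖ ^ m * ‖s (aeval (x ∘ i) Y : ℂ)‖ ≤ C ∧
    ‖s (aeval (x ∘ i) F / aeval (x ∘ i) G : ℂ) * s (x (i a)) ^ p - s κ‖ ^ m *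
      ‖s (aeval (x ∘ i) Y : ℂ)‖ ≤ C

/-- a function `Y` with its only pole at a point at infinity where `x_a = α`, `x_b = β`, and the value `κ` of `Φ` there -/
structure NearB {n : ℕ} (V : Set (Fin n → ℂ)) (i : Fin 3 → Fin n) (a b : Fin 3)
    (F G : MvPolynomial (Fin 3) Qb) (Y : MvPolynomial (Fin 3) Qb) (κ α β : ℂ) (C : ℝ)
    (m : ℕ) (E : Set (Fin n → ℂ)) : Prop where
  algκ : IsAlgebraic ℚ κ
  algα : IsAlgebraic ℚ α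
  algβ : IsAlgebraic ℚ β
  ne : κ ≠ 0
  fin : E.Finite
  nc : ∀ c : ℂ, ∃ x ∈ V, (aeval (x ∘ i) Y : ℂ) ≠ c
  h : ∀ s : ℂ ≃+* ℂ, ∀ x ∈ V, x ∉ E → C ≤ ‖s (aeval (x ∘ i) Y : ℂ)‖ →
    ‖s (x (i a)) - s α‖ ^ m * ‖s (aeval (x ∘ i) Y : ℂ)‖ ≤ C ∧
    ‖s (x (i b)) - s β‖ ^ m * ‖s (aeval (x ∘ i) Y : ℂ)‖ ≤ C ∧
    ‖s (aeval (x ∘ i) F / aeval (x ∘ i) G : ℂ) - s κ‖ ^ m *
      ‖s (aeval (x ∘ i) Y : ℂ)‖ ≤ C

end Pool.Agent.LGO.T
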