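import Mathlib
import Pool.Agent.LGO.T.Defs
import Pool.Agent.LGO.U.BArch
import Pool.Agent.LGO.U.BInt
import Pool.Agent.LGO.U.BMem
import Pool.Agent.LGO.U.BGal
import Pool.Agent.LGO.H.BdC
import Pool.Agent.LGO.H.MDeg

/-!
# LGO/T: the number `Ξ = B ^ p Φ`

PROOFS.  `pt_size` (compare `xi_size`, `RXi_real`, `RXi_const` in `LGO/U/RXi.lean`): fix `s` and put `M_u = max 1 ‖s u‖`, `M_v = max 1 ‖s v‖`.  `IsB (s v) (s u) (s B)`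
(`IsB.map`), `NCM (s v)` (`NCM.map`), `mdeg (s v) (s u) = N` (`mdeg_map`).  `B_arch` (for `x = s v`, `y = s u`): `‖s B‖ M_v ≤ C N ^ 6 H ^ 6 M_u`,
`N ^ 6 M_u ≤ C H ^ 6 ‖s B‖ M_v`, `N ≥ 1` (`mdeg_pos`).  `‖s Ξ‖ M_v ^ p = (‖s B‖ M_v) ^ p ‖s Φ‖ ≤ (C N ^ 6 H ^ 6) ^ p M_u ^ p ‖s Φ‖ ≤ (C N ^ 6 H ^ 6) ^ p C₁ M_v ^ q` (`Pt.up`), and
`M_v ^ q ≤ C₁ ‖s Φ‖ M_u ^ p ≤ C₁ ‖s Φ‖ (C H ^ 6 ‖s B‖ M_v) ^ p = C₁ (C H ^ 6) ^ p ‖s Ξ‖ M_v ^ p` (`Pt.lo`).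
`pt_int`: `IsB.integral`: `c B` and `c N ^ 12 B⁻¹` are integral, `c = (4 * 6 ^ 12) ^ 6`; take `p`-th powers and multiply by `m Φ`, `m Φ⁻¹`; `r = c ^ p m`.
`pt_mem`: `IsB.mem`.
`pt_bd`: case `p = q`: cancel `M_v ^ p > 0` in `pt_size`: `‖s Ξ‖ ≤ (C N H) ^ C ≤ exp (C' (1 + log N + log H))` for all `s`; `r Ξ` is integral, `r ≤ exp C'`.  So
`Bd K (..) Ξ`: `mem`: `pt_mem`; `den`: `r`; `house`: every embedding of `K` extends to an automorphism (`exists_aut`); or `bd_of_aut` for `r Ξ`.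
-/

namespace Pool.Agent.LGO.T

open Pool.Agent.Hhelper14.ZPL Pool.Agent.LGO Pool.Agent.LGO.U

private theorem Xi_real {p q : ℕ} {φ β Mu Mv C1 C3 N H : ℝ} (hφ : 0 ≤ φ)
    (hβ : 0 ≤ β) (hMu : 1 ≤ Mu) (hMv : 1 ≤ Mv) (hC1 : 1 ≤ C1) (hC3 : 1 ≤ C3)
    (hN : 1 ≤ N) (hH : 1 ≤ H)
    (h1 : β * Mv ≤ C1 * N ^ 6 * H ^ 6 * Mu) (h2 : N ^ 6 * Mu ≤ C1 * H ^ 6 * (β * Mv))
    (h3 : φ * Mu ^ p ≤ C3 * Mv ^ q) (h4 : Mv ^ q ≤ C3 * (φ * Mu ^ p)) :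
    β ^ p * φ * Mv ^ p ≤ (C1 * 1 * N ^ 6 * H ^ 6) ^ p * C3 ^ 1 * Mv ^ q ∧
      Mv ^ q ≤ (C1 * 1 * N ^ 6 * H ^ 6) ^ p * C3 ^ 1 * (β ^ p * φ * Mv ^ p) := by
  rw [mul_one, pow_one]
  constructor
  · calc β ^ p * φ * Mv ^ p = (β * Mv) ^ p * φ := by rw [mul_pow]; ring
      _ ≤ (C1 * N ^ 6 * H ^ 6 * Mu) ^ p * φ := by gcongr
      _ = (C1 * N ^ 6 * H ^ 6) ^ p * (φ * Mu ^ p) := by rw [mul_pow _ Mu]; ring
      _ ≤ (C1 * N ^ 6 * H ^ 6) ^ p * (C3 * Mv ^ q) := by gcongr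
      _ = _ := by ring
  · have hNu : Mu ≤ N ^ 6 * Mu := le_mul_of_one_le_left (by linarith) (one_le_pow₀ hN)
    have hMu' : Mu ≤ C1 * H ^ 6 * (β * Mv) := hNu.trans h2
    have h7 : C1 * H ^ 6 ≤ C1 * N ^ 6 * H ^ 6 := by
      have : C1 * H ^ 6 * 1 ≤ C1 * H ^ 6 * N ^ 6 := by
        gcongr
        exact one_le_pow₀ hN
      calc C1 * H ^ 6 = C1 * H ^ 6 * 1 := by ring
        _ ≤ C1 * H ^ 6 * N ^ 6 := this
        _ = _ := by ring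
    calc Mv ^ q ≤ C3 * (φ * Mu ^ p) := h4
      _ ≤ C3 * (φ * (C1 * H ^ 6 * (β * Mv)) ^ p) := by gcongr
      _ ≤ C3 * (φ * (C1 * N ^ 6 * H ^ 6 * (β * Mv)) ^ p) := by gcongr
      _ = _ := by rw [mul_pow (C1 * N ^ 6 * H ^ 6), mul_pow β]; ring

private theorem Xi_const (p q : ℕ) (C1 C2 C3 : ℝ) :
    ∃ C : ℕ, 1 ≤ C ∧ ∀ N H : ℝ, 1 ≤ N → 1 ≤ H →
      (C1 * C2 * N ^ 6 * H ^ 6) ^ p * C3 ^ q ≤ (C * N * H) ^ C := by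
  obtain ⟨c, hc⟩ := exists_nat_ge ((C1 * C2) ^ p * C3 ^ q)
  refine ⟨max (max c 1) (6 * p), (le_max_right _ _).trans (le_max_left _ _), fun N H hN hH => ?_⟩
  set C : ℕ := max (max c 1) (6 * p) with hC
  have h1 : c ≤ C := (le_max_left _ _).trans (le_max_left _ _)
  have h2 : 1 ≤ C := (le_max_right _ _).trans (le_max_left _ _)
  have h3 : 6 * p ≤ C := le_max_right _ _
  have hC1' : (1 : ℝ) ≤ C := by exact_mod_cast h2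
  have hNH : 1 ≤ N * H := one_le_mul_of_one_le_of_one_le hN hH
  have e1 : (C1 * C2 * N ^ 6 * H ^ 6) ^ p * C3 ^ q = (C1 * C2) ^ p * C3 ^ q * (N * H) ^ (6 * p) := by
    rw [pow_mul, mul_pow N, mul_assoc (C1 * C2), mul_pow (C1 * C2)]; ring
  rw [e1]
  calc (C1 * C2) ^ p * C3 ^ q * (N * H) ^ (6 * p) ≤ (C : ℝ) * (N * H) ^ C := by
        refine mul_le_mul (hc.trans (by exact_mod_cast h1)) (pow_le_pow_right₀ hNH h3)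
          (by positivity) (by positivity)
    _ ≤ (C : ℝ) ^ C * (N * H) ^ C := by
        gcongr
        exact le_self_pow₀ hC1' (by omega)
    _ = (C * N * H) ^ C := by rw [← mul_pow]; ring_nf

theorem pt_size (p q : ℕ) (C₁ : ℝ) (hC₁ : 1 ≤ C₁) (m : ℕ) :
    ∃ C : ℕ, 1 ≤ C ∧ ∀ (u v Φ B : ℂ), Pt p q C₁ m u v Φ → IsB v u B → ∀ (s : ℂ ≃+* ℂ) (H : ℝ),
      1 ≤ H → ‖s u‖ ≤ Real.exp H → ‖s v‖ ≤ Real.exp H →
        ‖s (B ^ p * Φ)‖ * max 1 ‖s v‖ ^ p ≤ (C * mdeg v u * H) ^ C * max 1 ‖s v‖ ^ q ∧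
        max 1 ‖s v‖ ^ q ≤ (C * mdeg v u * H) ^ C * (‖s (B ^ p * Φ)‖ * max 1 ‖s v‖ ^ p) := by
  obtain ⟨C1, hC1, h1⟩ := B_arch
  obtain ⟨C, hC, hCC⟩ := Xi_const p 1 C1 1 C₁
  refine ⟨C, hC, fun u v Φ B h hB s H hH hu hv => ?_⟩
  have hN : 0 < mdeg v u := mdeg_pos hB.isog
  have hN1 : (1 : ℝ) ≤ mdeg v u := by exact_mod_cast hN
  have hm := h1 (s v) (s u) (s B) (hB.map h.ncm s) (h.ncm.map s) H hH hv hu
  rw [mdeg_map] at hm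
  have key := Xi_real (p := p) (q := q) (norm_nonneg (s Φ)) (norm_nonneg (s B))
    (le_max_left 1 ‖s u‖) (le_max_left 1 ‖s v‖) hC1 hC₁ hN1 hH hm.1 hm.2 (h.up s) (h.lo s)
  have hX : ‖s (B ^ p * Φ)‖ = ‖s B‖ ^ p * ‖s Φ‖ := by
    rw [map_mul, map_pow, norm_mul, norm_pow]
  rw [hX]
  have hc := hCC (mdeg v u) H hN1 hH
  refine ⟨key.1.trans ?_, key.2.trans ?_⟩
  · gcongr
  · gcongr

theorem pt_int (p q : ℕ) (C₁ : ℝ) (m : ℕ) (hm : 0 < m) :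
    ∃ r : ℕ, 0 < r ∧ ∀ (u v Φ B : ℂ), Pt p q C₁ m u v Φ → IsB v u B →
      IsIntegral ℤ ((r : ℂ) * (B ^ p * Φ)) ∧
        IsIntegral ℤ ((r : ℂ) * (mdeg v u : ℂ) ^ (12 * p) * (B ^ p * Φ)⁻¹) := by
  refine ⟨((4 * 6 ^ 12) ^ 6) ^ p * m, by positivity, fun u v Φ B h hB => ?_⟩
  obtain ⟨i1, i2⟩ := hB.integral h.ncm h.intv h.intu
  constructor
  · have e : ((((4 * 6 ^ 12) ^ 6) ^ p * m : ℕ) : ℂ) * (B ^ p * Φ) =
        ((4 * 6 ^ 12) ^ 6 * B) ^ p * ((m : ℂ) * Φ) := by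
      push_cast
      rw [mul_pow _ B]
      ring
    rw [e]
    exact (i1.pow p).mul h.int1
  · have e : ((((4 * 6 ^ 12) ^ 6) ^ p * m : ℕ) : ℂ) * (mdeg v u : ℂ) ^ (12 * p) *
        (B ^ p * Φ)⁻¹ =
        ((4 * 6 ^ 12) ^ 6 * (mdeg v u : ℂ) ^ 12 * B⁻¹) ^ p * ((m : ℂ) * Φ⁻¹) := by
      push_cast
      rw [mul_pow _ B⁻¹, mul_pow _ ((mdeg v u : ℂ) ^ 12), ← pow_mul (mdeg v u : ℂ), mul_inv,
        inv_pow]
      ring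
    rw [e]
    exact (i2.pow p).mul h.int2

theorem pt_mem {p q m : ℕ} {C₁ : ℝ} {u v Φ B : ℂ} (h : Pt p q C₁ m u v Φ) (hB : IsB v u B)
    (K : IntermediateField ℚ ℂ) [FiniteDimensional ℚ K] (hu : u ∈ K) (hv : v ∈ K) (hΦ : Φ ∈ K) :
    B ^ p * Φ ∈ K :=
  K.mul_mem (pow_mem (hB.mem h.ncm K hv hu) p) hΦ

theorem pt_bd (p : ℕ) (C₁ : ℝ) (hC₁ : 1 ≤ C₁) (m : ℕ) (hm : 0 < m) :
    ∃ C : ℕ, 1 ≤ C ∧ ∀ (K : IntermediateField ℚ ℂ) [FiniteDimensional ℚ K] (u v Φ B : ℂ),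
      Pt p p C₁ m u v Φ → IsB v u B → u ∈ K → v ∈ K → Φ ∈ K → ∀ H : ℝ, 1 ≤ H →
      (∀ s : ℂ ≃+* ℂ, ‖s u‖ ≤ Real.exp H) → (∀ s : ℂ ≃+* ℂ, ‖s v‖ ≤ Real.exp H) →
        Bd K (C * (1 + Real.log (mdeg v u) + Real.log H)) (B ^ p * Φ) := by
  obtain ⟨C0, hC0, hs⟩ := pt_size p p C₁ hC₁ m
  obtain ⟨r, hr, hi⟩ := pt_int p p C₁ m hm
  refine ⟨C0 * C0 + r, by nlinarith, fun K _ u v Φ B h hB hu hv hΦ H hH hsu hsv => ?_⟩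
  have hN : 0 < mdeg v u := mdeg_pos hB.isog
  have hN1 : (1 : ℝ) ≤ mdeg v u := by exact_mod_cast hN
  have hC0' : (1 : ℝ) ≤ C0 := by exact_mod_cast hC0
  have hlN : 0 ≤ Real.log (mdeg v u) := Real.log_nonneg hN1
  have hlH : 0 ≤ Real.log H := Real.log_nonneg hH
  have hr0 : (0 : ℝ) ≤ r := Nat.cast_nonneg r
  have hmem : B ^ p * Φ ∈ K := pt_mem h hB K hu hv hΦ
  have hL : (((C0 * C0 + r : ℕ) : ℝ)) * (1 + Real.log (mdeg v u) + Real.log H) =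
      ((C0 : ℝ) * C0 + r) * (1 + Real.log (mdeg v u) + Real.log H) := by push_cast; ring
  refine ⟨hmem, ⟨r, hr, ?_, (hi u v Φ B h hB).1⟩, ?_⟩
  · have h1 : (r : ℝ) ≤ Real.exp r := by linarith [Real.add_one_le_exp (r : ℝ)]
    refine h1.trans (Real.exp_le_exp.2 ?_)
    rw [hL]
    nlinarith [mul_nonneg hr0 (add_nonneg hlN hlH),
      mul_nonneg (mul_nonneg (zero_le_one.trans hC0') (zero_le_one.trans hC0'))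
        (add_nonneg hlN hlH)]
  · intro σ
    obtain ⟨s, hs1⟩ := exists_aut K σ
    rw [← hs1 ⟨_, hmem⟩]
    have h1 := (hs u v Φ B h hB s H hH (hsu s) (hsv s)).1
    have hMv : (0 : ℝ) < max 1 ‖s v‖ ^ p :=
      pow_pos (lt_of_lt_of_le one_pos (le_max_left _ _)) p
    have h2 : ‖s (B ^ p * Φ)‖ ≤ (C0 * mdeg v u * H) ^ C0 := le_of_mul_le_mul_right h1 hMv
    refine h2.trans ?_
    have hpos : 0 < (C0 : ℝ) * mdeg v u * H := by positivity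
    have h3 : ((C0 : ℝ) * mdeg v u * H) ^ C0 =
        Real.exp (C0 * (Real.log C0 + Real.log (mdeg v u) + Real.log H)) := by
      rw [← Real.log_mul (by positivity) (by positivity),
        ← Real.log_mul (by positivity) (by positivity), Real.exp_nat_mul, Real.exp_log hpos]
    rw [h3]
    refine Real.exp_le_exp.2 ?_
    rw [hL]
    have h4 : Real.log C0 ≤ C0 := by
      linarith [Real.log_le_sub_one_of_pos (zero_lt_one.trans_le hC0')]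
    have h5 : (C0 : ℝ) * (Real.log C0 + Real.log (mdeg v u) + Real.log H) ≤
        C0 * (C0 + Real.log (mdeg v u) + Real.log H) := by gcongr
    have h6 : (0 : ℝ) ≤ ((C0 : ℝ) * C0 - C0) * (Real.log (mdeg v u) + Real.log H) :=
      mul_nonneg (by nlinarith) (add_nonneg hlN hlH)
    nlinarith [mul_nonneg hr0 (add_nonneg hlN hlH)]

end Pool.Agent.LGO.T
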