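import Mathlib
import Pool.Agent.LGO.T.LocA
import Pool.Agent.LGO.T.MeasT
import Pool.Agent.LGO.T.Xi
import Pool.Agent.LGO.U.MeasG
import Pool.Agent.LGO.U.RRoot
import Pool.Agent.LGO.U.RAll

/-!
# LGO/T: the bound for `Y` in the case `x_a = ∞`, `x_b = β`

PROOF.  `oneA`: `alg_lat` (`LGO/U/RRoot.lean`) for `β`: `w ≠ 0`, `τ₀` with `j(τ₀) = β` and algebraic `G2`, `G3`; `loc_formA` gives `C'`, `m`; `Meas w (w τ₀) (2 π i)` by `measG`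
(`LGO/U/MeasG.lean`, `2 * π * I * ρ`); `η = (κ disc ^ p)⁻¹` is algebraic (`disc = G2 ^ 3 - 27 G3 ^ 2 ≠ 0`: `disc_ne_zero_w`); `ρ ^ (12 p) = η Ξ`.  `meas_use`.  If `T < C'` the bound is
clear for `C` large (`C' ≤ exp ((C M) ^ C)`).
`allA`: for an automorphism `s` the numbers `s κ`, `s β` are roots of the minimal polynomials of `κ`, `β` over `ℚ`, so there are only finitely many pairs `(s κ, s β)`, and
`oneA` holds for all of them with one constant (`RAll_unif` in `LGO/U/RAll.lean`; `(C M) ^ C` is increasing in `C`).  Let `B` be the number of the pair `(v, u)` (`exists_B`),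
`Ξ = B ^ p Φ`.  Apply `oneA` for `(s κ, s β)`, the field `KS s K` (`finrank_KS`, `Bd.map` in `H/BdC.lean`), `T = ‖s y‖`, `s u, s v, s B, s Φ` (`NCM.map`, `IsB.map`, `mdeg_map`), if
`C₂ ≤ ‖s y‖` (otherwise the bound is clear): the three inequalities are the hypotheses.  `M = C' D (1 + log N + log H)` with `Bd K M Ξ` (`pt_bd`, `Bd.mono`, `D ≥ 1`),
`M ≥ 2`, `M ≥ D`, `exp M ≥ N`.
-/

namespace Pool.Agent.LGO.T

open UpperHalfPlane Pool.Agent.Hhelper14.ZP Pool.Agent.EllSch Pool.Agent.Hhelper14.ZPL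
open Pool.Agent.LGO Pool.Agent.LGO.U

/-- monotonicity of the bound -/
private theorem AllA_mono {C C' : ℕ} {M : ℝ} (hC : 1 ≤ C) (hCC' : C ≤ C') (hM : 1 ≤ M) :
    ((C : ℝ) * M) ^ C ≤ ((C' : ℝ) * M) ^ C' := by
  have hC1 : (1 : ℝ) ≤ C := by exact_mod_cast hC
  have hCC : (C : ℝ) ≤ C' := by exact_mod_cast hCC'
  have hM0 : (0 : ℝ) ≤ M := by linarith
  calc ((C : ℝ) * M) ^ C ≤ ((C' : ℝ) * M) ^ C := by gcongr
    _ ≤ ((C' : ℝ) * M) ^ C' := pow_le_pow_right₀ (by nlinarith) hCC'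

/-- a constant is below the bound -/
private theorem AllA_const (c : ℝ) : ∃ C : ℕ, 1 ≤ C ∧ ∀ C' : ℕ, C ≤ C' → ∀ M : ℝ, 1 ≤ M →
    c ≤ Real.exp (((C' : ℝ) * M) ^ C') := by
  refine ⟨⌈c⌉₊ + 1, by omega, ?_⟩
  intro C' hC' M hM
  have h0 : 1 ≤ C' := by omega
  have h1 : c ≤ (C' : ℝ) := by
    have h2 := Nat.le_ceil c
    have h3 : ((⌈c⌉₊ + 1 : ℕ) : ℝ) ≤ C' := by exact_mod_cast hC'
    push_cast at h3
    linarith
  have h4 : (1 : ℝ) ≤ C' := by exact_mod_cast h0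
  have h5 : (C' : ℝ) ≤ C' * M := by nlinarith
  have h6 : (C' : ℝ) * M ≤ ((C' : ℝ) * M) ^ C' := by
    calc (C' : ℝ) * M = ((C' : ℝ) * M) ^ 1 := (pow_one _).symm
      _ ≤ ((C' : ℝ) * M) ^ C' := pow_le_pow_right₀ (by linarith) h0
  have h7 := Real.add_one_le_exp (((C' : ℝ) * M) ^ C')
  linarith

theorem oneA {κ β : ℂ} (hκ : κ ≠ 0) (aκ : IsAlgebraic ℚ κ) (aβ : IsAlgebraic ℚ β) {p : ℕ}
    (hp : 0 < p) (C₂ : ℝ) (m₁ : ℕ) (hm₁ : 0 < m₁) :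
    ∃ C : ℕ, 1 ≤ C ∧ ∀ (K : IntermediateField ℚ ℂ) [FiniteDimensional ℚ K] (M T : ℝ)
      (u v B Φ : ℂ), 2 ≤ M → (Module.finrank ℚ K : ℝ) ≤ M → (mdeg v u : ℝ) ≤ Real.exp M →
      NCM v → IsB v u B → Bd K M (B ^ p * Φ) → T ≤ C₂ * ‖u‖ ^ m₁ → ‖v - β‖ ^ m₁ * T ≤ C₂ →
      ‖Φ * u ^ p - κ‖ ^ m₁ * T ≤ C₂ → T ≤ Real.exp ((C * M) ^ C) := by
  obtain ⟨w, τ₀, hw, -, hj, h2, h3⟩ := alg_lat aβ
  obtain ⟨C₁, m, hC₁, hm, hloc⟩ := loc_formA hw τ₀ hκ hp C₂ m₁ hm₁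
  set D₀ : ℂ := G2 w (w * τ₀) ^ 3 - 27 * G3 w (w * τ₀) ^ 2 with hD₀
  have hD0 : D₀ ≠ 0 := disc_ne_zero_w τ₀ hw
  have hDalg : IsAlgebraic ℚ D₀ := by
    have h27 : IsAlgebraic ℚ (27 : ℂ) := isAlgebraic_algebraMap (27 : ℚ)
    exact (h2.pow 3).sub (h27.mul (h3.pow 2))
  have hmeas : Meas w (w * τ₀) (2 * Real.pi * Complex.I) := measG hw τ₀.im_pos h2 h3
  have hη0 : κ * D₀ ^ p ≠ 0 := mul_ne_zero hκ (pow_ne_zero _ hD0)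
  have hη : IsAlgebraic ℚ (κ * D₀ ^ p)⁻¹ := (aκ.mul (hDalg.pow p)).inv
  obtain ⟨C₃, hC₃, huse⟩ := meas_use hmeas hη hp hm C₁
  obtain ⟨C₄, hC₄, hconst⟩ := AllA_const C₁
  refine ⟨C₃ + C₄, by omega, ?_⟩
  intro K _ M T u v B Φ hM hdeg hN hncm hB hBd i1 i2 i3
  have hM1 : (1 : ℝ) ≤ M := by linarith
  rcases le_total C₁ T with hT | hT
  · obtain ⟨a, b, ρ, hab, ha, hb, hρ, hfin⟩ := hloc T u v B Φ hT i1 (by rwa [hj]) i3 hncm hB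
    have hρ' : ρ ^ (12 * p) = (κ * D₀ ^ p)⁻¹ * (B ^ p * Φ) := by
      rw [← hρ, ← mul_assoc, inv_mul_cancel₀ hη0, one_mul]
    refine (huse K M T (mdeg v u) a b ρ (B ^ p * Φ) hM hdeg hN ha hb hab hρ' hBd hfin).trans ?_
    exact Real.exp_le_exp.2 (AllA_mono hC₃ (by omega) hM1)
  · exact hT.trans (hconst _ (by omega) M hM1)

private theorem AllA_root {κ : ℂ} (aκ : IsAlgebraic ℚ κ) (s : ℂ ≃+* ℂ) :
    s κ ∈ (minpoly ℚ κ).rootSet ℂ := by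
  rw [Polynomial.mem_rootSet]
  refine ⟨minpoly.ne_zero aκ.isIntegral, ?_⟩
  have h1 := Polynomial.aeval_algHom_apply (RingHom.toRatAlgHom (s : ℂ →+* ℂ)) κ (minpoly ℚ κ)
  rw [minpoly.aeval, map_zero] at h1
  exact h1

private theorem AllA_alg {κ : ℂ} (aκ : IsAlgebraic ℚ κ) (s : ℂ ≃+* ℂ) : IsAlgebraic ℚ (s κ) := by
  have h := AllA_root aκ s
  rw [Polynomial.mem_rootSet] at h
  exact ⟨_, h.1, h.2⟩

private theorem AllA_finite {κ β : ℂ} (aκ : IsAlgebraic ℚ κ) (aβ : IsAlgebraic ℚ β) :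
    (Set.range fun s : ℂ ≃+* ℂ => (s κ, s β)).Finite := by
  refine Set.Finite.subset ((Polynomial.rootSet_finite (minpoly ℚ κ) ℂ).prod
    (Polynomial.rootSet_finite (minpoly ℚ β) ℂ)) ?_
  rintro _ ⟨s, rfl⟩
  exact ⟨AllA_root aκ s, AllA_root aβ s⟩

theorem allA {κ β : ℂ} (hκ : κ ≠ 0) (aκ : IsAlgebraic ℚ κ) (aβ : IsAlgebraic ℚ β) {p : ℕ}
    (hp : 0 < p) (C₁ : ℝ) (hC₁ : 1 ≤ C₁) (m : ℕ) (hm : 0 < m) (C₂ : ℝ) (m₁ : ℕ) (hm₁ : 0 < m₁) :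
    ∃ C : ℕ, 1 ≤ C ∧ ∀ (K : IntermediateField ℚ ℂ) [FiniteDimensional ℚ K] (u v Φ y : ℂ),
      Pt p p C₁ m u v Φ → u ∈ K → v ∈ K → Φ ∈ K →
      (∀ s : ℂ ≃+* ℂ, C₂ ≤ ‖s y‖ → ‖s y‖ ≤ C₂ * ‖s u‖ ^ m₁ ∧ ‖s v - s β‖ ^ m₁ * ‖s y‖ ≤ C₂ ∧
        ‖s Φ * s u ^ p - s κ‖ ^ m₁ * ‖s y‖ ≤ C₂) → ∀ H : ℝ, 1 ≤ H →
      (∀ s : ℂ ≃+* ℂ, ‖s u‖ ≤ Real.exp H) → (∀ s : ℂ ≃+* ℂ, ‖s v‖ ≤ Real.exp H) →
        ∀ s : ℂ ≃+* ℂ, ‖s y‖ ≤ Real.exp ((C * (Module.finrank ℚ K *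
          (1 + Real.log (mdeg v u) + Real.log H))) ^ C) := by
  obtain ⟨C₀, hC₀, H₀⟩ := RAll_unif (AllA_finite aκ aβ) (fun (Q : ℂ × ℂ) (C : ℕ) =>
    ∀ (K : IntermediateField ℚ ℂ) [FiniteDimensional ℚ K] (M T : ℝ)
      (u v B Φ : ℂ), 2 ≤ M → (Module.finrank ℚ K : ℝ) ≤ M → (mdeg v u : ℝ) ≤ Real.exp M →
      NCM v → IsB v u B → Bd K M (B ^ p * Φ) → T ≤ C₂ * ‖u‖ ^ m₁ → ‖v - Q.2‖ ^ m₁ * T ≤ C₂ →
      ‖Φ * u ^ p - Q.1‖ ^ m₁ * T ≤ C₂ → T ≤ Real.exp ((C * M) ^ C)) (by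
      intro Q C C' hC hCC' h K _ M T u v B Φ hM h1 h2 h3 h4 h5 h6 h7 h8
      exact (h K M T u v B Φ hM h1 h2 h3 h4 h5 h6 h7 h8).trans
        (Real.exp_le_exp.2 (AllA_mono hC hCC' (by linarith)))) (by
      rintro _ ⟨s, rfl⟩
      exact oneA ((map_ne_zero_iff s s.injective).2 hκ) (AllA_alg aκ s) (AllA_alg aβ s) hp C₂ m₁
        hm₁)
  obtain ⟨C', hC', hbd⟩ := pt_bd p C₁ hC₁ m hm
  obtain ⟨C₄, hC₄, hconst⟩ := AllA_const C₂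
  refine ⟨C₀ * (C' + 2) + C₄, by omega, ?_⟩
  intro K _ u v Φ y hPt hu hv hΦ hyp H hH hHu hHv s
  obtain ⟨B, hB⟩ := exists_B hPt.isog
  have hBd := hbd K u v Φ B hPt hB hu hv hΦ H hH hHu hHv
  have hD : (1 : ℝ) ≤ Module.finrank ℚ K := by exact_mod_cast Module.finrank_pos (R := ℚ) (M := K)
  have hN : (1 : ℝ) ≤ mdeg v u := by exact_mod_cast mdeg_pos hPt.isog
  have hlN : 0 ≤ Real.log (mdeg v u) := Real.log_nonneg hN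
  have hlH : 0 ≤ Real.log H := Real.log_nonneg hH
  set D : ℝ := (Module.finrank ℚ K : ℝ) with hDdef
  set L : ℝ := 1 + Real.log (mdeg v u) + Real.log H with hL
  have hL1 : 1 ≤ L := by linarith
  have hDL : 1 ≤ D * L := by nlinarith
  have hLD : L ≤ D * L := by nlinarith
  have hDD : D ≤ D * L := by nlinarith
  have hC'0 : (0 : ℝ) ≤ C' := Nat.cast_nonneg _
  rcases le_total C₂ ‖s y‖ with hT | hT
  · obtain ⟨i1, i2, i3⟩ := hyp s hT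
    have hM : ((C' : ℝ) + 2) * (D * L) = C' * (D * L) + 2 * (D * L) := by ring
    have hC'D : (0 : ℝ) ≤ C' * (D * L) := by positivity
    have hBd' : Bd (KS s K) (((C' : ℝ) + 2) * (D * L)) (s B ^ p * s Φ) := by
      have h1 := (hBd.map s).mono (B' := ((C' : ℝ) + 2) * (D * L)) (by
        have h2 : (C' : ℝ) * L ≤ C' * (D * L) := mul_le_mul_of_nonneg_left hLD hC'0
        linarith)
      rwa [map_mul, map_pow] at h1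
    have key := H₀ (s κ, s β) ⟨s, rfl⟩ (KS s K) (((C' : ℝ) + 2) * (D * L)) ‖s y‖ (s u) (s v) (s B)
      (s Φ) (by linarith) (by rw [finrank_KS]; linarith) (by
        rw [mdeg_map]
        have h1 : (mdeg v u : ℝ) = Real.exp (Real.log (mdeg v u)) :=
          (Real.exp_log (by linarith)).symm
        rw [h1]
        exact Real.exp_le_exp.2 (by linarith)) (hPt.ncm.map s) (hB.map hPt.ncm s) hBd' i1 i2 i3
    refine key.trans (Real.exp_le_exp.2 ?_)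
    have h5 : (C₀ : ℝ) * (((C' : ℝ) + 2) * (D * L)) = ((C₀ * (C' + 2) : ℕ) : ℝ) * (D * L) := by
      push_cast
      ring
    have h6 : C₀ ≤ C₀ * (C' + 2) := Nat.le_mul_of_pos_right _ (by omega)
    have h7 : 1 ≤ C₀ * (C' + 2) := hC₀.trans h6
    have h8 : (1 : ℝ) ≤ ((C₀ * (C' + 2) : ℕ) : ℝ) := by exact_mod_cast h7
    rw [h5]
    refine (pow_le_pow_right₀ (by nlinarith) h6).trans ?_
    exact AllA_mono h7 (by omega) hDL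
  · exact hT.trans (hconst _ (by omega) _ hDL)

end Pool.Agent.LGO.T
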