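import Mathlib
import Pool.Agent.LGO.T.LocC
import Pool.Agent.LGO.U.BArch
import Pool.Agent.LGO.Mul.Unif

/-!
# LGO/T: the local identity near a point `x_a = α`, `x_b = β`

`u = x_a` is near `j(τ₁)`, `v = x_b` is near `j(τ₀)`, `Φ` is near `κ`, `Ξ = B ^ p Φ`, `T` the size of the function `Y`.

PROOF of `loc_idB`, compare `loc_idA`.
(1) `j_local` (`LGO/Q/Loc.lean`) at `τ₀`: `τ` with `j(τ) = v`, `‖τ - τ₀‖ ^ m₀ ≤ C ‖v - j(τ₀)‖`, and at `τ₁`: `τ'` with `j(τ') = u`,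
`‖τ' - τ₁‖ ^ m₀' ≤ C ‖u - j(τ₁)‖`, for `T` large; `Im τ' ≥ Im τ₁ / 2 = e`.  `exists_prim_mdeg` (with `IsB.isog`): `g` primitive,
`det g = N = mdeg v u > 0`, `Maps g τ τ'`.  `z = g₁₀ τ + g₁₁`, `X = z ^ 12 Δ(τ)`, `X₀ = z₀ ^ 12 Δ(τ₀)`.
(2) `IsB.maps`: `B Δ(τ') = X`, exactly; `X ^ p Φ = Ξ Δ(τ') ^ p`.
(3) `z_lip`: `‖X ^ p‖ ≤ C N ^ (12 p)`, `‖X ^ p - X₀ ^ p‖ ≤ C N ^ (12 p) ‖τ - τ₀‖`; `disc_lip` at `τ₁` and `pow_lip`: `‖Δ(τ') ^ p - Δ(τ₁) ^ p‖ ≤ C ‖τ' - τ₁‖`.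
(4) `κ X₀ ^ p - Ξ Δ(τ₁) ^ p = κ (X₀ ^ p - X ^ p) + X ^ p (κ - Φ) + Ξ (Δ(τ') ^ p - Δ(τ₁) ^ p)`, so
`‖κ X₀ ^ p - Ξ Δ(τ₁) ^ p‖ ≤ K (N ^ (12 p) + ‖Ξ‖) (‖τ - τ₀‖ + ‖Φ - κ‖ + ‖τ' - τ₁‖)`.
(5) `m = m₀ m₀' m₁`, all three differences are at most `1` for `T` large (take the radii `≤ 1`), so their `m`-th powers times `T` are bounded.  `pw`.
(6) `BDef_disc_w` (`LGO/U/BDef.lean`) for both lattices, `D₀ = disc(w, w τ₀) = (2 π) ^ 12 Δ(τ₀) / w ^ 12`, `D₁ = disc(w', w' τ₁)`; with `a = g₁₁`, `b = g₁₀`: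
`κ (D₀ (a w + b (w τ₀)) ^ 12) ^ p - Ξ (D₁ w' ^ 12) ^ p = (2 π) ^ (12 p) (κ X₀ ^ p - Ξ Δ(τ₁) ^ p)`.

PROOF of `loc_formB`.  Choose `ρ₀` with `κ D₀ ^ p ρ₀ ^ (12 p) = Ξ D₁ ^ p`, and `root_n` with `n = 12 p` for `a w + b (w τ₀)` and `ρ₀ w'`: `ζ`; `ρ = ζ ρ₀`.
-/

namespace Pool.Agent.LGO.T

open UpperHalfPlane Pool.Agent.Hhelper14.ZP Pool.Agent.EllSch Pool.Agent.LGO Pool.Agent.LGO.U

private theorem LocB_small {x T c δ : ℝ} {m : ℕ} (hx : 0 ≤ x) (hδ : 0 < δ)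
    (h : x ^ m * T ≤ c) (hT : c / δ ^ m < T) (hT0 : 0 < T) : x < δ := by
  by_contra h1
  rw [not_lt] at h1
  have h2 : δ ^ m ≤ x ^ m := pow_le_pow_left₀ hδ.le h1 m
  have h3 : δ ^ m * T ≤ c := (mul_le_mul_of_nonneg_right h2 hT0.le).trans h
  have h4 : 0 < δ ^ m := pow_pos hδ m
  rw [div_lt_iff₀ h4] at hT
  linarith [mul_comm T (δ ^ m)]

private theorem LocB_mono {x T c : ℝ} {m m' : ℕ} (hx : 0 ≤ x) (hx1 : x ≤ 1) (hT : 0 ≤ T) (hm : m ≤ m')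
    (h : x ^ m * T ≤ c) : x ^ m' * T ≤ c :=
  (mul_le_mul_of_nonneg_right (pow_le_pow_of_le_one hx hx1 hm) hT).trans h

private theorem LocB_comp {x y T c C : ℝ} {m m₁ : ℕ} (hx : 0 ≤ x) (hC : 0 ≤ C) (hT : 0 ≤ T)
    (h : x ^ m ≤ C * y) (hy : 0 ≤ y) (h1 : y ^ m₁ * T ≤ c) : x ^ (m * m₁) * T ≤ C ^ m₁ * c := by
  have h2 : x ^ (m * m₁) ≤ C ^ m₁ * y ^ m₁ := by
    rw [pow_mul, ← mul_pow]
    exact pow_le_pow_left₀ (pow_nonneg hx m) h m₁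
  calc x ^ (m * m₁) * T ≤ C ^ m₁ * y ^ m₁ * T := mul_le_mul_of_nonneg_right h2 hT
    _ = C ^ m₁ * (y ^ m₁ * T) := by ring
    _ ≤ C ^ m₁ * c := mul_le_mul_of_nonneg_left h1 (pow_nonneg hC m₁)

private theorem LocB_comb {κ X X₀ Ξ D D₁ Φ : ℂ} {M C1 K4 dτ dτ' : ℝ} (hM : 0 ≤ M) (hC1 : 0 ≤ C1) (hK4 : 0 ≤ K4)
    (hd : 0 ≤ dτ) (hd' : 0 ≤ dτ') (e : X * Φ = Ξ * D) (h1 : ‖X‖ ≤ C1 * M) (h2 : ‖X - X₀‖ ≤ C1 * M * dτ)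
    (h3 : ‖D - D₁‖ ≤ K4 * dτ') :
    ‖κ * X₀ - Ξ * D₁‖ ≤ (‖κ‖ * C1 + C1 + K4) * (M + ‖Ξ‖) * (dτ + ‖Φ - κ‖ + dτ') := by
  have e1 : κ * X₀ - Ξ * D₁ = κ * (X₀ - X) + X * (κ - Φ) + Ξ * (D - D₁) := by
    linear_combination e
  have h4 : ‖κ * X₀ - Ξ * D₁‖ ≤ ‖κ‖ * (C1 * M * dτ) + C1 * M * ‖Φ - κ‖ + ‖Ξ‖ * (K4 * dτ') := by
    rw [e1]
    refine (norm_add_le _ _).trans (add_le_add ((norm_add_le _ _).trans (add_le_add ?_ ?_)) ?_)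
    · rw [norm_mul, norm_sub_rev]
      gcongr
    · rw [norm_mul, norm_sub_rev κ Φ]
      gcongr
    · rw [norm_mul]
      gcongr
  refine h4.trans ?_
  have p1 : 0 ≤ ‖Φ - κ‖ := norm_nonneg _
  have p2 : 0 ≤ ‖Ξ‖ := norm_nonneg _
  have p3 : 0 ≤ ‖κ‖ := norm_nonneg _
  have q1 : 0 ≤ ‖κ‖ * C1 := by positivity
  set s : ℝ := dτ + ‖Φ - κ‖ + dτ' with hs
  have r1 : ‖κ‖ * (C1 * M * dτ) ≤ ‖κ‖ * C1 * ((M + ‖Ξ‖) * s) := by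
    have : ‖κ‖ * (C1 * M * dτ) = ‖κ‖ * C1 * (M * dτ) := by ring
    rw [this]
    exact mul_le_mul_of_nonneg_left (mul_le_mul (by linarith) (by linarith) hd (by linarith)) q1
  have r2 : C1 * M * ‖Φ - κ‖ ≤ C1 * ((M + ‖Ξ‖) * s) := by
    rw [mul_assoc]
    exact mul_le_mul_of_nonneg_left (mul_le_mul (by linarith) (by linarith) p1 (by linarith)) hC1
  have r3 : ‖Ξ‖ * (K4 * dτ') ≤ K4 * ((M + ‖Ξ‖) * s) := by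
    have : ‖Ξ‖ * (K4 * dτ') = K4 * (‖Ξ‖ * dτ') := by ring
    rw [this]
    exact mul_le_mul_of_nonneg_left (mul_le_mul (by linarith) (by linarith) hd' (by linarith)) hK4
  linarith [r1, r2, r3, show (‖κ‖ * C1 + C1 + K4) * (M + ‖Ξ‖) * s =
    ‖κ‖ * C1 * ((M + ‖Ξ‖) * s) + C1 * ((M + ‖Ξ‖) * s) + K4 * ((M + ‖Ξ‖) * s) by ring]

theorem loc_idB {w w' : ℂ} (hw : w ≠ 0) (hw' : w' ≠ 0) (τ₀ τ₁ : ℍ) (κ : ℂ) (p : ℕ) (C₂ : ℝ)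
    (m₁ : ℕ) (hm₁ : 0 < m₁) :
    ∃ (C : ℝ) (m : ℕ), 1 ≤ C ∧ 0 < m ∧ ∀ (T : ℝ) (u v B Φ : ℂ), C ≤ T →
      ‖u - jInv τ₁‖ ^ m₁ * T ≤ C₂ → ‖v - jInv τ₀‖ ^ m₁ * T ≤ C₂ → ‖Φ - κ‖ ^ m₁ * T ≤ C₂ →
      NCM v → IsB v u B →
        ∃ a b : ℤ, ¬ (a = 0 ∧ b = 0) ∧ |(a : ℝ)| ≤ C * mdeg v u ∧ |(b : ℝ)| ≤ C * mdeg v u ∧
          ‖κ * ((G2 w (w * τ₀) ^ 3 - 27 * G3 w (w * τ₀) ^ 2) *
              ((a : ℂ) * w + b * (w * τ₀)) ^ 12) ^ p - (B ^ p * Φ) *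
              ((G2 w' (w' * τ₁) ^ 3 - 27 * G3 w' (w' * τ₁) ^ 2) * w' ^ 12) ^ p‖ ^ m *
            T ≤ C * ((mdeg v u : ℝ) ^ (12 * p) + ‖B ^ p * Φ‖) ^ m := by
  obtain ⟨C1, r1, hC1, hr1, hz⟩ := z_lip τ₀ p (e := (τ₁ : ℂ).im / 2) (half_pos τ₁.im_pos)
  obtain ⟨C3, r2, hC3, hr2, hr2', hdl⟩ := disc_lip τ₁
  obtain ⟨CJ, m0, ε0, hCJ, hm0, hε0, hJ⟩ := j_local τ₀
  obtain ⟨CJ', m0', ε1, hCJ', hm0', hε1, hJ'⟩ := j_local τ₁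
  set c2 : ℝ := max 1 C₂ with hc2
  have hc21 : 1 ≤ c2 := le_max_left _ _
  have hC₂ : C₂ ≤ c2 := le_max_right _ _
  set K4 : ℝ := (p : ℝ) * C3 ^ (p - 1) * C3 with hK4
  have hK40 : 0 ≤ K4 := by positivity
  set K : ℝ := ‖κ‖ * C1 + C1 + K4 with hK
  have hK0 : 0 ≤ K := by positivity
  set c3 : ℝ := CJ ^ m₁ * c2 with hc3
  set c4 : ℝ := CJ' ^ m₁ * c2 with hc4
  have hc30 : 0 ≤ c3 := by positivity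
  have hc40 : 0 ≤ c4 := by positivity
  set c : ℝ := c2 + c3 + c4 with hc
  have hc0 : 0 ≤ c := by positivity
  set δ0 : ℝ := min r1 1 with hδ0
  set δ1 : ℝ := min r2 1 with hδ1
  have hδ00 : 0 < δ0 := lt_min hr1 one_pos
  have hδ10 : 0 < δ1 := lt_min hr2 one_pos
  set m : ℕ := m0 * m0' * m₁ with hm
  have hmpos : 0 < m := by positivity
  set F : ℝ := ‖(((2 * Real.pi : ℂ)) ^ 12) ^ p‖ ^ m * (3 * (3 * K) ^ m * c) with hF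
  have hF0 : 0 ≤ F := by positivity
  have s1 : 0 ≤ c2 / ε0 ^ m₁ := by positivity
  have s2 : 0 ≤ c2 / ε1 ^ m₁ := by positivity
  have s3 : 0 ≤ c3 / δ0 ^ (m0 * m₁) := by positivity
  have s4 : 0 ≤ c4 / δ1 ^ (m0' * m₁) := by positivity
  refine ⟨1 + c2 / ε0 ^ m₁ + c2 / ε1 ^ m₁ + c3 / δ0 ^ (m0 * m₁) + c4 / δ1 ^ (m0' * m₁) + c2 + C1 + F, m,
    by linarith, hmpos, fun T u v B Φ hT hu hv hΦ hnc hB => ?_⟩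
  have hT0 : 0 < T := by linarith
  have hu' : ‖u - jInv τ₁‖ ^ m₁ * T ≤ c2 := hu.trans hC₂
  have hv' : ‖v - jInv τ₀‖ ^ m₁ * T ≤ c2 := hv.trans hC₂
  have hΦ' : ‖Φ - κ‖ ^ m₁ * T ≤ c2 := hΦ.trans hC₂
  obtain ⟨τ, hτv, hτ⟩ := hJ v (LocB_small (norm_nonneg _) hε0 hv' (by linarith) hT0)
  obtain ⟨τ', hτu, hτ'⟩ := hJ' u (LocB_small (norm_nonneg _) hε1 hu' (by linarith) hT0)
  have g1 : ‖(τ : ℂ) - (τ₀ : ℂ)‖ ^ (m0 * m₁) * T ≤ c3 :=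
    LocB_comp (norm_nonneg _) hCJ.le hT0.le hτ (norm_nonneg _) hv'
  have g2 : ‖(τ' : ℂ) - (τ₁ : ℂ)‖ ^ (m0' * m₁) * T ≤ c4 :=
    LocB_comp (norm_nonneg _) hCJ'.le hT0.le hτ' (norm_nonneg _) hu'
  have g3 : ‖(τ : ℂ) - (τ₀ : ℂ)‖ < δ0 := LocB_small (norm_nonneg _) hδ00 g1 (by linarith) hT0
  have g4 : ‖(τ' : ℂ) - (τ₁ : ℂ)‖ < δ1 := LocB_small (norm_nonneg _) hδ10 g2 (by linarith) hT0
  have g5 : ‖Φ - κ‖ < 1 := by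
    refine LocB_small (norm_nonneg _) one_pos hΦ' ?_ hT0
    rw [one_pow, div_one]
    linarith
  have g3a : ‖(τ : ℂ) - (τ₀ : ℂ)‖ ≤ r1 := (g3.trans_le (min_le_left _ _)).le
  have g3b : ‖(τ : ℂ) - (τ₀ : ℂ)‖ ≤ 1 := (g3.trans_le (min_le_right _ _)).le
  have g4a : ‖(τ' : ℂ) - (τ₁ : ℂ)‖ ≤ r2 := (g4.trans_le (min_le_left _ _)).le
  have g4b : ‖(τ' : ℂ) - (τ₁ : ℂ)‖ ≤ 1 := (g4.trans_le (min_le_right _ _)).le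
  have him : (τ₁ : ℂ).im / 2 ≤ (τ' : ℂ).im := by
    have h1 := Complex.abs_im_le_norm ((τ' : ℂ) - (τ₁ : ℂ))
    rw [Complex.sub_im] at h1
    have h2 := (abs_le.mp (h1.trans (g4a.trans hr2'))).1
    linarith
  obtain ⟨g, hgdet, hgpos, hgprim, hgmaps⟩ : ∃ g : Matrix (Fin 2) (Fin 2) ℤ,
      g.det = mdeg v u ∧ 0 < g.det ∧ Prim g ∧ Maps g (τ : ℂ) (τ' : ℂ) := by
    have h1 := hB.isog
    rw [← hτv, ← hτu] at h1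
    have h2 := exists_prim_mdeg h1
    rwa [hτv, hτu] at h2
  have hNpos : 0 < mdeg v u := by
    have : (0 : ℤ) < mdeg v u := by rw [← hgdet]; exact hgpos
    exact_mod_cast this
  obtain ⟨k1, k2, k3, k4, k5⟩ := hz τ τ' g (mdeg v u) g3a him hgdet hNpos hgmaps
  have hX := hB.maps hnc hτv hτu hgprim hgpos hgmaps
  have hΔ : ‖ModularForm.discriminant τ' ^ p - ModularForm.discriminant τ₁ ^ p‖ ≤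
      K4 * ‖(τ' : ℂ) - (τ₁ : ℂ)‖ := by
    have h1 := (hdl τ' g4a).1
    have h2 := (hdl τ₁ (by rw [sub_self, norm_zero]; exact hr2.le)).1
    have h3 := (hdl τ' g4a).2
    refine (pow_lip p h1 h2).trans ?_
    calc (p : ℝ) * C3 ^ (p - 1) * ‖ModularForm.discriminant τ' - ModularForm.discriminant τ₁‖ ≤
        (p : ℝ) * C3 ^ (p - 1) * (C3 * ‖(τ' : ℂ) - (τ₁ : ℂ)‖) := by gcongr
      _ = K4 * ‖(τ' : ℂ) - (τ₁ : ℂ)‖ := by rw [hK4]; ring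
  set X : ℂ := ((g 1 0 : ℂ) * τ + (g 1 1 : ℂ)) ^ 12 * ModularForm.discriminant τ with hXdef
  set X₀ : ℂ := ((g 1 0 : ℂ) * τ₀ + (g 1 1 : ℂ)) ^ 12 * ModularForm.discriminant τ₀ with hX₀
  set M : ℝ := ((mdeg v u : ℕ) : ℝ) ^ (12 * p) with hMdef
  have hM0 : 0 ≤ M := by positivity
  have e1 : X ^ p * Φ = (B ^ p * Φ) * ModularForm.discriminant τ' ^ p := by
    rw [← hX, mul_pow]
    ring
  have k6 := LocB_comb (κ := κ) (Φ := Φ) hM0 (by linarith : (0 : ℝ) ≤ C1) hK40 (norm_nonneg _) (norm_nonneg _) e1 k4 k5 hΔ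
  rw [← hK] at k6
  have w1 : ‖(τ : ℂ) - (τ₀ : ℂ)‖ ^ m * T ≤ c := by
    refine (LocB_mono (norm_nonneg _) g3b hT0.le ?_ g1).trans (by linarith)
    rw [hm]
    calc m0 * m₁ = m0 * 1 * m₁ := by ring
      _ ≤ m0 * m0' * m₁ := by gcongr; exact hm0'
  have w2 : ‖Φ - κ‖ ^ m * T ≤ c := by
    refine (LocB_mono (norm_nonneg _) g5.le hT0.le ?_ hΦ').trans (by linarith)
    rw [hm]
    calc m₁ = 1 * m₁ := by ring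
      _ ≤ m0 * m0' * m₁ := by gcongr; exact Nat.mul_pos hm0 hm0'
  have w3 : ‖(τ' : ℂ) - (τ₁ : ℂ)‖ ^ m * T ≤ c := by
    refine (LocB_mono (norm_nonneg _) g4b hT0.le ?_ g2).trans (by linarith)
    rw [hm]
    calc m0' * m₁ = 1 * m0' * m₁ := by ring
      _ ≤ m0 * m0' * m₁ := by gcongr; exact hm0
  have k7 := pw hmpos (norm_nonneg _) hK0 (by positivity : 0 ≤ M + ‖B ^ p * Φ‖) hT0.le (norm_nonneg _)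
    (norm_nonneg _) (norm_nonneg _) k6 w1 w2 w3
  refine ⟨g 1 1, g 1 0, k1, ?_, ?_, ?_⟩
  · refine k2.trans (mul_le_mul_of_nonneg_right (by linarith) (Nat.cast_nonneg _))
  · refine k3.trans (mul_le_mul_of_nonneg_right (by linarith) (Nat.cast_nonneg _))
  · have h1 : κ * ((G2 w (w * τ₀) ^ 3 - 27 * G3 w (w * τ₀) ^ 2) *
        (((g 1 1 : ℤ) : ℂ) * w + ((g 1 0 : ℤ) : ℂ) * (w * τ₀)) ^ 12) ^ p - (B ^ p * Φ) *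
        ((G2 w' (w' * τ₁) ^ 3 - 27 * G3 w' (w' * τ₁) ^ 2) * w' ^ 12) ^ p =
        (((2 * Real.pi : ℂ)) ^ 12) ^ p * (κ * X₀ ^ p - (B ^ p * Φ) * ModularForm.discriminant τ₁ ^ p) := by
      have h2 : (G2 w (w * τ₀) ^ 3 - 27 * G3 w (w * τ₀) ^ 2) *
          (((g 1 1 : ℤ) : ℂ) * w + ((g 1 0 : ℤ) : ℂ) * (w * τ₀)) ^ 12 = (2 * Real.pi : ℂ) ^ 12 * X₀ := by
        rw [BDef_disc_w τ₀ hw, hX₀]
        have h3 : (((g 1 1 : ℤ) : ℂ) * w + ((g 1 0 : ℤ) : ℂ) * (w * τ₀)) ^ 12 =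
            w ^ 12 * (((g 1 0 : ℤ) : ℂ) * τ₀ + ((g 1 1 : ℤ) : ℂ)) ^ 12 := by
          rw [← mul_pow]
          congr 1
          ring
        rw [h3]
        field_simp
      have h4 : (G2 w' (w' * τ₁) ^ 3 - 27 * G3 w' (w' * τ₁) ^ 2) * w' ^ 12 =
          (2 * Real.pi : ℂ) ^ 12 * ModularForm.discriminant τ₁ := by
        rw [BDef_disc_w τ₁ hw']
        field_simp
      rw [h2, h4, mul_pow, mul_pow]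
      ring
    rw [h1, norm_mul, mul_pow]
    calc ‖(((2 * Real.pi : ℂ)) ^ 12) ^ p‖ ^ m *
          ‖κ * X₀ ^ p - (B ^ p * Φ) * ModularForm.discriminant τ₁ ^ p‖ ^ m * T =
        ‖(((2 * Real.pi : ℂ)) ^ 12) ^ p‖ ^ m *
          (‖κ * X₀ ^ p - (B ^ p * Φ) * ModularForm.discriminant τ₁ ^ p‖ ^ m * T) := by ring
      _ ≤ ‖(((2 * Real.pi : ℂ)) ^ 12) ^ p‖ ^ m * (3 * (3 * K) ^ m * c * (M + ‖B ^ p * Φ‖) ^ m) := by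
          gcongr
      _ = F * (M + ‖B ^ p * Φ‖) ^ m := by rw [hF]; ring
      _ ≤ _ := by
          gcongr
          linarith

theorem loc_formB {w w' : ℂ} (hw : w ≠ 0) (hw' : w' ≠ 0) (τ₀ τ₁ : ℍ) {κ : ℂ} (hκ : κ ≠ 0)
    {p : ℕ} (hp : 0 < p) (C₂ : ℝ) (m₁ : ℕ) (hm₁ : 0 < m₁) :
    ∃ (C : ℝ) (m : ℕ), 1 ≤ C ∧ 0 < m ∧ ∀ (T : ℝ) (u v B Φ : ℂ), C ≤ T →
      ‖u - jInv τ₁‖ ^ m₁ * T ≤ C₂ → ‖v - jInv τ₀‖ ^ m₁ * T ≤ C₂ → ‖Φ - κ‖ ^ m₁ * T ≤ C₂ →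
      NCM v → IsB v u B →
        ∃ (a b : ℤ) (ρ : ℂ), ¬ (a = 0 ∧ b = 0) ∧ |(a : ℝ)| ≤ C * mdeg v u ∧
          |(b : ℝ)| ≤ C * mdeg v u ∧
          κ * (G2 w (w * τ₀) ^ 3 - 27 * G3 w (w * τ₀) ^ 2) ^ p * ρ ^ (12 * p) =
            B ^ p * Φ * (G2 w' (w' * τ₁) ^ 3 - 27 * G3 w' (w' * τ₁) ^ 2) ^ p ∧
          ‖(a : ℂ) * w + b * (w * τ₀) - w' * ρ‖ ^ (12 * p * m) * T ≤
            C * ((mdeg v u : ℝ) ^ (12 * p) + ‖B ^ p * Φ‖) ^ m := by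
  obtain ⟨C, m, hC, hm, h⟩ := loc_idB hw hw' τ₀ τ₁ κ p C₂ m₁ hm₁
  set D₀ : ℂ := G2 w (w * τ₀) ^ 3 - 27 * G3 w (w * τ₀) ^ 2 with hD₀
  set D₁ : ℂ := G2 w' (w' * τ₁) ^ 3 - 27 * G3 w' (w' * τ₁) ^ 2 with hD₁
  have hD00 : D₀ ≠ 0 := disc_ne_zero_w τ₀ hw
  have hk : κ * D₀ ^ p ≠ 0 := mul_ne_zero hκ (pow_ne_zero p hD00)
  have hkn : 0 < ‖κ * D₀ ^ p‖ := norm_pos_iff.mpr hk
  have hkm : 0 < ‖κ * D₀ ^ p‖ ^ m := pow_pos hkn m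
  have hn : 0 < 12 * p := by omega
  have hs : 0 ≤ C / ‖κ * D₀ ^ p‖ ^ m := by positivity
  refine ⟨C + C / ‖κ * D₀ ^ p‖ ^ m, m, by linarith, hm, fun T u v B Φ hT hu hv hΦ hnc hB => ?_⟩
  have hT1 : C ≤ T := by linarith
  obtain ⟨a, b, k1, k2, k3, k4⟩ := h T u v B Φ hT1 hu hv hΦ hnc hB
  obtain ⟨ρ₀, hρ₀⟩ := IsAlgClosed.exists_pow_nat_eq (B ^ p * Φ * D₁ ^ p / (κ * D₀ ^ p)) hn
  have hρ1 : κ * D₀ ^ p * ρ₀ ^ (12 * p) = B ^ p * Φ * D₁ ^ p := by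
    rw [hρ₀]
    field_simp
  obtain ⟨ζ, hζ, hζ1⟩ := root_n (12 * p) hn ((a : ℂ) * w + b * (w * τ₀)) (w' * ρ₀)
  refine ⟨a, b, ζ * ρ₀, k1, ?_, ?_, ?_, ?_⟩
  · exact k2.trans (mul_le_mul_of_nonneg_right (by linarith) (Nat.cast_nonneg _))
  · exact k3.trans (mul_le_mul_of_nonneg_right (by linarith) (Nat.cast_nonneg _))
  · rw [mul_pow, hζ, one_mul, hρ1]
  · have e1 : κ * (D₀ * ((a : ℂ) * w + b * (w * τ₀)) ^ 12) ^ p - (B ^ p * Φ) * (D₁ * w' ^ 12) ^ p =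
        κ * D₀ ^ p * (((a : ℂ) * w + b * (w * τ₀)) ^ (12 * p) - (w' * ρ₀) ^ (12 * p)) := by
      rw [mul_pow, mul_pow, ← pow_mul, ← pow_mul, mul_pow w' ρ₀]
      linear_combination (w' ^ (12 * p)) * hρ1
    rw [e1, norm_mul, mul_pow] at k4
    have e2 : w' * (ζ * ρ₀) = ζ * (w' * ρ₀) := by ring
    rw [e2]
    have h1 : ‖(a : ℂ) * w + b * (w * τ₀) - ζ * (w' * ρ₀)‖ ^ (12 * p * m) ≤
        ‖((a : ℂ) * w + b * (w * τ₀)) ^ (12 * p) - (w' * ρ₀) ^ (12 * p)‖ ^ m := by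
      rw [pow_mul]
      exact pow_le_pow_left₀ (by positivity) hζ1 m
    have hT0 : 0 ≤ T := by linarith
    have hMp : 0 ≤ ((mdeg v u : ℝ) ^ (12 * p) + ‖B ^ p * Φ‖) ^ m := by positivity
    calc ‖(a : ℂ) * w + b * (w * τ₀) - ζ * (w' * ρ₀)‖ ^ (12 * p * m) * T ≤
        ‖((a : ℂ) * w + b * (w * τ₀)) ^ (12 * p) - (w' * ρ₀) ^ (12 * p)‖ ^ m * T := by gcongr
      _ ≤ C / ‖κ * D₀ ^ p‖ ^ m * ((mdeg v u : ℝ) ^ (12 * p) + ‖B ^ p * Φ‖) ^ m := by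
          rw [div_mul_eq_mul_div, le_div_iff₀ hkm]
          calc _ = ‖κ * D₀ ^ p‖ ^ m *
                ‖((a : ℂ) * w + b * (w * τ₀)) ^ (12 * p) - (w' * ρ₀) ^ (12 * p)‖ ^ m * T := by ring
            _ ≤ _ := k4
      _ ≤ _ := by
          gcongr
          linarith

end Pool.Agent.LGO.T
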