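import Mathlib
import Pool.Agent.LGO.Eng4
import Pool.Agent.LGO.H.BdC
import Pool.Agent.LGO.Mul.Ht
import Pool.Agent.LGO.Mul.Main
import Pool.Agent.LGO.U.MeasG
import Pool.Agent.EllSch.JFun

/-!
# LGO/T: the measure for the periods of two fixed elliptic curves

`Λ = ℤ w + ℤ w τ`, `Λ' = ℤ w' + ℤ w' τ'` with algebraic invariants, `Λ` without complex multiplication, `Λ'` not isogenous to `Λ`.

PROOF, compare `measG` in `LGO/U/MeasG.lean` (copy its private lemmas `MeasG_alg`, `MeasG_inv`, `MeasG_disc`, `MeasG_prep`, ..).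
If `ρ = 0`: `‖p w + q (w τ)‖ ≥ c₀ > 0` (`MeasG_disc`).  Let `ρ ≠ 0`.  `F` = the field generated by the four invariants, `K' = K ⊔ F`, `[K' : ℚ] ≤ d₀ M`.
`M' = C₁ M ^ 2` with a large constant `C₁`: `Cur K' M' M' (1 / M') w τ`, `Cur K' M' M' (1 / M') (w τ) (-1 / τ)` (the same lattice, `Lt (w τ) (-1 / τ) = Lt w τ`) and
`Cur K' M' M' (1 / M') w' τ'`.  `Bd K (2 M ^ 2) ρ⁻¹` (`MeasG_inv`), `l₁ = p / ρ`, `l₂ = q / ρ`: `Bd K' M' l_i`.  `p w + q (w τ) - ρ w' = ρ (l₁ w + l₂ (w τ) - w')` and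
`‖ρ‖ ≥ exp (-(2 M ^ 2))` (`Bd.lower`).
`engine4` (`LGO/Eng4.lean`) with `(w₁, τ₁) = (w, τ)`, `(w₂, τ₂) = (w τ, -1 / τ)`, `(w₃, τ₃) = (w', τ')`, `γ = 1`: `Gen 1 (Lt w τ) (Lt (w τ) (-1 / τ))` because
`NonCM τ` (an endomorphism of `Λ` is an integer, see the use of `engine4` in `measG` (`Fin4`)), `w τ ≠ r w` for rational `r`.
First alternative: `‖l₁ w + l₂ (w τ) - w'‖ ≥ exp (-(M' ^ C))`, and the claim.
Second alternative: `Mp (n l₁) (Lt w τ) (Lt w' τ')` and `Mp (n l₂) ..`, `n > 0`; one of `l₁`, `l₂` is not `0`: so there is `ξ ≠ 0` with `ξ Λ ⊆ Λ'`, against `hni`.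
-/

namespace Pool.Agent.LGO.T

open Pool.Agent.EllSch Pool.Agent.LGO

/-- an algebraic number is bounded in all fields which contain it -/
private lemma MeasH_alg {y : ℂ} (hy : IsAlgebraic ℚ y) :
    ∃ B : ℝ, 0 ≤ B ∧ ∀ K : IntermediateField ℚ ℂ, y ∈ K → Bd K B y := by
  -- denominator
  have hyZ : IsAlgebraic ℤ y := (IsFractionRing.isAlgebraic_iff ℤ ℚ ℂ).2 hy
  obtain ⟨n, hn0, hn⟩ := hyZ.exists_integral_multiple
  -- conjugates
  obtain ⟨p, hp, hp0⟩ := hy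
  have hfin : (p.rootSet ℂ).Finite := Polynomial.rootSet_finite p ℂ
  obtain ⟨B, hB⟩ := (hfin.image fun z => ‖z‖).bddAbove
  have hnabs : 0 < n.natAbs := Int.natAbs_pos.2 hn0
  have hn1 : (1 : ℝ) ≤ (n.natAbs : ℝ) := by exact_mod_cast hnabs
  refine ⟨(n.natAbs : ℝ) + max B 0, by positivity, fun K hK => ⟨hK, ?_, ?_⟩⟩
  · refine ⟨n.natAbs, hnabs, ?_, ?_⟩
    · have h1 := Real.add_one_le_exp ((n.natAbs : ℝ) + max B 0)
      have h2 : 0 ≤ max B 0 := le_max_right _ _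
      linarith
    · have e : n • y = (n : ℂ) * y := by rw [zsmul_eq_mul]
      rw [e] at hn
      rcases Int.natAbs_eq n with h | h
      · have e2 : ((n.natAbs : ℕ) : ℂ) = (n : ℂ) := by
          conv_rhs => rw [h]
          simp
        rw [e2]; exact hn
      · have e2 : ((n.natAbs : ℕ) : ℂ) = -(n : ℂ) := by
          conv_rhs => rw [h]
          simp
        rw [e2, neg_mul]; exact hn.neg
  · intro σ
    have h1 : Polynomial.aeval (σ ⟨y, hK⟩) p = 0 := by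
      have h2 := Polynomial.aeval_algHom_apply (RingHom.toRatAlgHom σ) (⟨y, hK⟩ : K) p
      have h3 : Polynomial.aeval (⟨y, hK⟩ : K) p = 0 := by
        have h4 := Polynomial.aeval_algebraMap_apply ℂ (⟨y, hK⟩ : K) p
        have h5 : algebraMap K ℂ (⟨y, hK⟩ : K) = y := rfl
        rw [h5, hp0] at h4
        exact (map_eq_zero_iff (algebraMap K ℂ) (algebraMap K ℂ).injective).1 h4.symm
      rw [h3, map_zero] at h2
      exact h2
    have h3 : σ ⟨y, hK⟩ ∈ p.rootSet ℂ := by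
      rw [Polynomial.mem_rootSet]
      exact ⟨hp, h1⟩
    have h4 : ‖σ ⟨y, hK⟩‖ ≤ B := hB ⟨_, h3, rfl⟩
    have h5 := Real.add_one_le_exp ((n.natAbs : ℝ) + max B 0)
    have h6 : B ≤ max B 0 := le_max_left _ _
    linarith

/-- the inverse -/
private lemma MeasH_inv {K : IntermediateField ℚ ℂ} [FiniteDimensional ℚ K] {M : ℝ} {ρ : ℂ}
    (hM : 2 ≤ M) (hD : (Module.finrank ℚ K : ℝ) ≤ M) (h : Bd K M ρ) (h0 : ρ ≠ 0) :
    Bd K (2 * M ^ 2) ρ⁻¹ := by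
  have hlow := fun σ => Bd.lower hD (by linarith) h h0 σ
  obtain ⟨n, hn, hnM, hint⟩ := h.den
  have hn0 : (n : ℂ) ≠ 0 := Nat.cast_ne_zero.2 hn.ne'
  have hxK : (n : ℂ) * ρ ∈ K := K.mul_mem (natCast_mem K n) h.mem
  obtain ⟨m, hm, hmle, hmi⟩ := MulMain.exists_dvd (M := 2 * M) hD (by linarith) hxK hint
    (mul_ne_zero hn0 h0) (by
      intro σ
      have e : (⟨(n : ℂ) * ρ, hxK⟩ : K) = (n : K) * ⟨ρ, h.mem⟩ := by
        apply Subtype.ext; push_cast; rfl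
      rw [e, map_mul, map_natCast, norm_mul, Complex.norm_natCast]
      calc (n : ℝ) * ‖σ ⟨ρ, h.mem⟩‖ ≤ Real.exp M * Real.exp M :=
            mul_le_mul hnM (h.house σ) (norm_nonneg _) (Real.exp_pos _).le
        _ = Real.exp (2 * M) := by rw [← Real.exp_add]; ring_nf)
  refine ⟨K.inv_mem h.mem, ⟨m, hm, ?_, ?_⟩, ?_⟩
  · refine hmle.trans (le_of_eq ?_)
    ring_nf
  · have e : (m : ℂ) * ρ⁻¹ = (n : ℂ) * ((m : ℂ) * ((n : ℂ) * ρ)⁻¹) := by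
      field_simp
    rw [e]
    exact isIntegral_natCast_mul n hmi
  · intro σ
    have e : (⟨ρ⁻¹, K.inv_mem h.mem⟩ : K) = (⟨ρ, h.mem⟩ : K)⁻¹ := by
      apply Subtype.ext; rfl
    have h1 := hlow σ
    rw [e, map_inv₀, norm_inv]
    have h2 : Real.exp (-(2 * M ^ 2)) ≤ ‖σ ⟨ρ, h.mem⟩‖ := by
      refine le_trans (le_of_eq ?_) h1
      ring_nf
    have h3 : 0 < Real.exp (-(2 * M ^ 2)) := Real.exp_pos _
    calc ‖σ ⟨ρ, h.mem⟩‖⁻¹ ≤ (Real.exp (-(2 * M ^ 2)))⁻¹ := inv_anti₀ h3 h2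
      _ = Real.exp (2 * M ^ 2) := by rw [Real.exp_neg, inv_inv]

/-- lattices are discrete -/
private lemma MeasH_disc {w τ : ℂ} (hw : w ≠ 0) (hτ : 0 < τ.im) :
    ∃ c : ℝ, 0 < c ∧ ∀ m n : ℤ, ¬ (m = 0 ∧ n = 0) → c ≤ ‖(m : ℂ) * w + n * (w * τ)‖ := by
  have hw' : 0 < ‖w‖ := norm_pos_iff.2 hw
  refine ⟨‖w‖ * min 1 τ.im, by positivity, fun m n hmn => ?_⟩
  have e : (m : ℂ) * w + n * (w * τ) = w * ((m : ℂ) + n * τ) := by ring
  rw [e, norm_mul]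
  refine mul_le_mul_of_nonneg_left ?_ hw'.le
  by_cases hn : n = 0
  · have hm : m ≠ 0 := fun h => hmn ⟨h, hn⟩
    rw [hn, Int.cast_zero, zero_mul, add_zero, Complex.norm_intCast]
    refine (min_le_left _ _).trans ?_
    exact_mod_cast Int.one_le_abs hm
  · refine (min_le_right _ _).trans ?_
    have h1 : |((m : ℂ) + n * τ).im| ≤ ‖(m : ℂ) + n * τ‖ := Complex.abs_im_le_norm _
    have h2 : ((m : ℂ) + n * τ).im = n * τ.im := by simp
    rw [h2, abs_mul, abs_of_pos hτ] at h1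
    have h3 : (1 : ℝ) ≤ |(n : ℝ)| := by exact_mod_cast Int.one_le_abs hn
    nlinarith

private lemma MeasH_nat (x : ℝ) : ∃ n : ℕ, 1 ≤ n ∧ x ≤ (n : ℝ) :=
  ⟨⌈x⌉₊ + 1, by omega, by
    have := Nat.le_ceil x
    push_cast
    linarith⟩

/-- the curves, for one lattice -/
private lemma MeasH_prep {w τ : ℂ} (hw : w ≠ 0) (hτ : 0 < τ.im)
    (h2 : IsAlgebraic ℚ (G2 w (w * τ))) (h3 : IsAlgebraic ℚ (G3 w (w * τ))) :
    ∃ C₁ : ℝ, 0 < C₁ ∧ ∀ (K : IntermediateField ℚ ℂ) (X : ℝ), G2 w (w * τ) ∈ K →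
      G3 w (w * τ) ∈ K → C₁ ≤ X →
        Cur K X X (1 / X) w τ ∧ Cur K X X (1 / X) (w * τ) (-1 / τ) := by
  have hτ0 : τ ≠ 0 := by
    rintro rfl
    simp at hτ
  obtain ⟨B2, hB20, hB2⟩ := MeasH_alg h2
  obtain ⟨B3, hB30, hB3⟩ := MeasH_alg h3
  obtain ⟨c, hc, hdisc⟩ := MeasH_disc hw hτ
  have him : 0 < (-1 / τ).im := by
    have e : (-1 / τ).im = τ.im / Complex.normSq τ := by
      rw [neg_div, one_div, Complex.neg_im, Complex.inv_im, neg_div, neg_neg]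
    rw [e]
    have : 0 < Complex.normSq τ := Complex.normSq_pos.2 hτ0
    positivity
  have hp3 : 0 ≤ ‖w‖ / c := by positivity
  have hp4 : 0 ≤ ‖w * τ‖ / c := by positivity
  have hp5 : 0 ≤ 1 / τ.im := by positivity
  have hp6 : 0 ≤ 1 / (-1 / τ).im := by positivity
  refine ⟨1 + B2 + B3 + ‖w‖ / c + ‖w * τ‖ / c + 1 / τ.im + 1 / (-1 / τ).im, by positivity, ?_⟩
  intro K X hK2 hK3 hX
  have hX0 : 0 < X := by linarith
  have hb2 : Bd K X (G2 w (w * τ)) := (hB2 K hK2).mono (by linarith)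
  have hb3 : Bd K X (G3 w (w * τ)) := (hB3 K hK3).mono (by linarith)
  have hCw : ‖w‖ ≤ X * c := by
    have h : ‖w‖ / c ≤ X := by linarith
    rwa [div_le_iff₀ hc] at h
  have hCw' : ‖w * τ‖ ≤ X * c := by
    have h : ‖w * τ‖ / c ≤ X := by linarith
    rwa [div_le_iff₀ hc] at h
  have hi1 : 1 / X ≤ τ.im := by
    have h : 1 / τ.im ≤ X := by linarith
    rw [div_le_iff₀ hτ] at h
    rw [div_le_iff₀ hX0]
    linarith
  have hi2 : 1 / X ≤ (-1 / τ).im := by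
    have h : 1 / (-1 / τ).im ≤ X := by linarith
    rw [div_le_iff₀ him] at h
    rw [div_le_iff₀ hX0]
    linarith
  have hcC : ∀ m n : ℤ, ¬ (m = 0 ∧ n = 0) → X * c ≤ X * ‖(m : ℂ) * w + n * (w * τ)‖ :=
    fun m n hmn => mul_le_mul_of_nonneg_left (hdisc m n hmn) hX0.le
  refine ⟨?_, ?_⟩
  · refine ⟨hw, hτ, hi1, ?_, hb2, hb3⟩
    rintro v ⟨m, n, rfl⟩ hv
    have hmn : ¬ (m = 0 ∧ n = 0) := by
      rintro ⟨rfl, rfl⟩
      apply hv
      simp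
    exact hCw.trans (hcC m n hmn)
  · have hg2 : G2 (w * τ) (w * τ * (-1 / τ)) = G2 w (w * τ) := by
      have hwt : w * τ ≠ 0 := mul_ne_zero hw hτ0
      have e1 := G2_smul (a := 1) (b := -1 / τ) hwt
      rw [mul_one] at e1
      have e2 := G2_smul (a := 1) (b := τ) hw
      rw [mul_one] at e2
      rw [e1, e2, JFun.G2_S hτ0]
      field_simp
    have hg3 : G3 (w * τ) (w * τ * (-1 / τ)) = G3 w (w * τ) := by
      have hwt : w * τ ≠ 0 := mul_ne_zero hw hτ0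
      have e1 := G3_smul (a := 1) (b := -1 / τ) hwt
      rw [mul_one] at e1
      have e2 := G3_smul (a := 1) (b := τ) hw
      rw [mul_one] at e2
      rw [e1, e2, JFun.G3_S hτ0]
      field_simp
    refine ⟨mul_ne_zero hw hτ0, him, hi2, ?_, ?_, ?_⟩
    · rintro v ⟨m, n, rfl⟩ hv
      have e : (m : ℂ) * (w * τ) + n * (w * τ * (-1 / τ)) = ((-n : ℤ) : ℂ) * w + (m : ℂ) * (w * τ) := by
        push_cast
        field_simp
        ring
      have hmn : ¬ (-n = 0 ∧ m = 0) := by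
        rintro ⟨h1, rfl⟩
        have h2 : n = 0 := by omega
        subst h2
        apply hv
        simp
      rw [e]
      exact hCw'.trans (hcC (-n) m hmn)
    · rw [hg2]; exact hb2
    · rw [hg3]; exact hb3

private theorem MeasH_bd1 {K : IntermediateField ℚ ℂ} {B : ℝ} (hB : 0 ≤ B) : Bd K B 1 where
  mem := one_mem K
  den := ⟨1, one_pos, by
    rw [Nat.cast_one]
    exact Real.one_le_exp hB, by
    rw [Nat.cast_one, one_mul]
    exact isIntegral_one⟩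
  house := fun σ => by
    have e : (⟨1, one_mem K⟩ : K) = 1 := rfl
    rw [e, map_one, norm_one]
    exact Real.one_le_exp hB

private theorem MeasH_rat {w τ : ℂ} (hw : w ≠ 0) (hτ : 0 < τ.im) (r : ℚ) :
    w * τ ≠ (r : ℂ) * 1 * w := by
  intro h
  have h1 : w * τ = w * (r : ℂ) := by rw [h]; ring
  have h2 : τ = (r : ℂ) := mul_left_cancel₀ hw h1
  have h3 : τ.im = 0 := by
    rw [h2]
    exact Complex.ratCast_im r
  linarith

/-- the final estimate -/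
private lemma MeasH_num (C₁ C c : ℕ) (hC1 : 1 ≤ C₁) : ∃ C' : ℕ, 1 ≤ C' ∧ c ≤ C' ∧ ∀ M : ℝ, 2 ≤ M →
    (C₁ * M ^ 2) ^ C + 2 * M ^ 2 ≤ (C' * M) ^ C' := by
  refine ⟨3 * C + 4 + C₁ + c, by omega, by omega, fun M hM => ?_⟩
  set C' : ℕ := 3 * C + 4 + C₁ + c with hC'
  have hC'C : (C₁ : ℝ) ≤ C' := by
    rw [hC']; push_cast
    have : (0 : ℝ) ≤ (C : ℝ) := by positivity
    have : (0 : ℝ) ≤ (c : ℝ) := by positivity
    linarith
  have hC'1 : (1 : ℝ) ≤ C' := by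
    have : (1 : ℝ) ≤ C₁ := by exact_mod_cast hC1
    linarith
  set x : ℝ := C' * M with hx
  have hxM : M ≤ x := by rw [hx]; nlinarith
  have hx2 : 2 ≤ x := by linarith
  have hxC : (C₁ : ℝ) ≤ x := by rw [hx]; nlinarith
  have h1 : C₁ * M ^ 2 ≤ x ^ 3 := by
    calc (C₁ : ℝ) * M ^ 2 ≤ x * x ^ 2 := by
          refine mul_le_mul hxC (pow_le_pow_left₀ (by linarith) hxM 2) (by positivity) (by linarith)
      _ = x ^ 3 := by ring
  have h2 : 2 * M ^ 2 ≤ x ^ 3 := by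
    calc 2 * M ^ 2 ≤ x * x ^ 2 := by
          refine mul_le_mul hx2 (pow_le_pow_left₀ (by linarith) hxM 2) (by positivity) (by linarith)
      _ = x ^ 3 := by ring
  have h3 : (C₁ * M ^ 2) ^ C ≤ x ^ (3 * C + 3) := by
    calc (C₁ * M ^ 2) ^ C ≤ (x ^ 3) ^ C := pow_le_pow_left₀ (by positivity) h1 C
      _ = x ^ (3 * C) := by rw [← pow_mul]
      _ ≤ x ^ (3 * C + 3) := pow_le_pow_right₀ (by linarith) (by omega)
  have h4 : x ^ 3 ≤ x ^ (3 * C + 3) := pow_le_pow_right₀ (by linarith) (by omega)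
  calc (C₁ * M ^ 2) ^ C + 2 * M ^ 2 ≤ x ^ (3 * C + 3) + x ^ (3 * C + 3) := by linarith
    _ = 2 * x ^ (3 * C + 3) := by ring
    _ ≤ x * x ^ (3 * C + 3) := mul_le_mul_of_nonneg_right hx2 (by positivity)
    _ = x ^ (3 * C + 4) := by ring
    _ ≤ x ^ C' := pow_le_pow_right₀ (by linarith) (by omega)

/-- from the engine for the divided relation -/
private lemma MeasH_fin {K : IntermediateField ℚ ℂ} [FiniteDimensional ℚ K] {M : ℝ} {ρ Y Z : ℂ}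
    (hM : 2 ≤ M) (hD : (Module.finrank ℚ K : ℝ) ≤ M) (h : Bd K M ρ) (h0 : ρ ≠ 0) (hY : Y = ρ * Z)
    {C₁ C C' : ℕ} (hZ : Real.exp (-((C₁ * M ^ 2) ^ C)) ≤ ‖Z‖)
    (hC' : (C₁ * M ^ 2) ^ C + 2 * M ^ 2 ≤ (C' * M) ^ C') : Real.exp (-((C' * M) ^ C')) ≤ ‖Y‖ := by
  have h1 := Bd.lower hD (by linarith) h h0 (algebraMap K ℂ)
  have e : (algebraMap K ℂ) ⟨ρ, h.mem⟩ = ρ := rfl
  rw [e] at h1
  rw [hY, norm_mul]
  calc Real.exp (-((C' * M) ^ C')) ≤ Real.exp (-((C₁ * M ^ 2) ^ C + 2 * M ^ 2)) :=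
        Real.exp_le_exp.2 (by linarith)
    _ = Real.exp (-(2 * M * M)) * Real.exp (-((C₁ * M ^ 2) ^ C)) := by
        rw [← Real.exp_add]; ring_nf
    _ ≤ ‖ρ‖ * ‖Z‖ := mul_le_mul h1 hZ (Real.exp_pos _).le (norm_nonneg _)

theorem measH {w τ w' τ' : ℂ} (hw : w ≠ 0) (hτ : 0 < τ.im) (hw' : w' ≠ 0) (hτ' : 0 < τ'.im)
    (h2 : IsAlgebraic ℚ (G2 w (w * τ))) (h3 : IsAlgebraic ℚ (G3 w (w * τ)))
    (h2' : IsAlgebraic ℚ (G2 w' (w' * τ'))) (h3' : IsAlgebraic ℚ (G3 w' (w' * τ')))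
    (hnc : NonCM τ) (hni : ∀ ξ : ℂ, ξ ≠ 0 → ¬ Mp ξ (Lt w τ) (Lt w' τ')) :
    ∃ C : ℕ, 1 ≤ C ∧ ∀ (K : IntermediateField ℚ ℂ) [FiniteDimensional ℚ K] (M : ℝ) (p q : ℤ)
      (ρ : ℂ), 2 ≤ M → (Module.finrank ℚ K : ℝ) ≤ M → |(p : ℝ)| ≤ Real.exp M →
      |(q : ℝ)| ≤ Real.exp M → ¬ (p = 0 ∧ q = 0) → Bd K M ρ →
      Real.exp (-((C * M) ^ C)) ≤ ‖(p : ℂ) * w + q * (w * τ) - w' * ρ‖ := by
  obtain ⟨c, hc, hdisc⟩ := MeasH_disc hw hτ
  obtain ⟨c', hc'1, hc'⟩ := MeasH_nat (-Real.log c)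
  -- the case ρ = 0
  have hzero : ∀ (C : ℕ) (M : ℝ) (p q : ℤ), 1 ≤ C → c' ≤ C → 2 ≤ M → ¬ (p = 0 ∧ q = 0) →
      Real.exp (-((C * M) ^ C)) ≤ ‖(p : ℂ) * w + q * (w * τ) - w' * 0‖ := by
    intro C M p q hC1 hcC hM hpq
    rw [mul_zero, sub_zero]
    refine le_trans ?_ (hdisc p q hpq)
    rw [← Real.le_log_iff_exp_le hc]
    have h1 : (1 : ℝ) ≤ C := by exact_mod_cast hC1
    have h4 : (c' : ℝ) ≤ C := by exact_mod_cast hcC
    have h5 : (C : ℝ) ≤ C * M := by nlinarith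
    have h6 : (C : ℝ) * M ≤ (C * M) ^ C := by
      calc (C : ℝ) * M = (C * M) ^ 1 := (pow_one _).symm
        _ ≤ (C * M) ^ C := pow_le_pow_right₀ (by linarith) hC1
    linarith
  set F : IntermediateField ℚ ℂ := IntermediateField.adjoin ℚ
    {G2 w (w * τ), G3 w (w * τ), G2 w' (w' * τ'), G3 w' (w' * τ')} with hF
  have hFfin : FiniteDimensional ℚ F := by
    rw [hF]
    refine IntermediateField.finiteDimensional_adjoin ?_
    rintro x (rfl | rfl | rfl | rfl)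
    · exact h2.isIntegral
    · exact h3.isIntegral
    · exact h2'.isIntegral
    · exact h3'.isIntegral
  have hF2 : G2 w (w * τ) ∈ F := IntermediateField.subset_adjoin ℚ _ (by simp)
  have hF3 : G3 w (w * τ) ∈ F := IntermediateField.subset_adjoin ℚ _ (by simp)
  have hF2' : G2 w' (w' * τ') ∈ F := IntermediateField.subset_adjoin ℚ _ (by simp)
  have hF3' : G3 w' (w' * τ') ∈ F := IntermediateField.subset_adjoin ℚ _ (by simp)
  obtain ⟨A, hA0, hA⟩ := MeasH_prep hw hτ h2 h3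
  obtain ⟨A', hA'0, hA'⟩ := MeasH_prep hw' hτ' h2' h3'
  obtain ⟨C₁, hC1, hC1b⟩ := MeasH_nat (A + A' + (Module.finrank ℚ F : ℝ) + 7)
  have hfin0 : 0 ≤ (Module.finrank ℚ F : ℝ) := by positivity
  obtain ⟨C, hC⟩ := engine4
  obtain ⟨C', hC'1, hcC', hnum⟩ := MeasH_num C₁ C c' hC1
  refine ⟨C', hC'1, ?_⟩
  intro K _ M p q ρ hM hD hp hq hpq hρ
  by_cases h0 : ρ = 0
  · rw [h0]; exact hzero C' M p q hC'1 hcC' hM hpq
  have hM1 : 1 ≤ M ^ 2 := by nlinarith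
  have hMM : M ≤ M ^ 2 := by nlinarith
  set X : ℝ := C₁ * M ^ 2 with hX
  have hCX : (C₁ : ℝ) ≤ X := by
    rw [hX]
    have : (0 : ℝ) ≤ C₁ := by positivity
    nlinarith
  have h7X : 7 * M ^ 2 ≤ X := by
    rw [hX]
    have : (7 : ℝ) ≤ C₁ := by linarith
    nlinarith
  have hfr : (Module.finrank ℚ (K ⊔ F : IntermediateField ℚ ℂ) : ℝ) ≤ X := by
    have h1 : (Module.finrank ℚ (K ⊔ F : IntermediateField ℚ ℂ) : ℝ) ≤
        (Module.finrank ℚ K : ℝ) * (Module.finrank ℚ F : ℝ) := by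
      exact_mod_cast IntermediateField.finrank_sup_le K F
    have hK0 : (0 : ℝ) ≤ (Module.finrank ℚ K : ℝ) := by positivity
    calc (Module.finrank ℚ (K ⊔ F : IntermediateField ℚ ℂ) : ℝ)
        ≤ (Module.finrank ℚ K : ℝ) * (Module.finrank ℚ F : ℝ) := h1
      _ ≤ M ^ 2 * C₁ := by
          refine mul_le_mul (by linarith) (by linarith) hfin0 (by positivity)
      _ = X := by rw [hX]; ring
  have hle : F ≤ K ⊔ F := le_sup_right
  obtain ⟨cur1, cur2⟩ := hA (K ⊔ F) X (hle hF2) (hle hF3) (by linarith)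
  obtain ⟨cur3, -⟩ := hA' (K ⊔ F) X (hle hF2') (hle hF3') (by linarith)
  have hinv : Bd (K ⊔ F) (2 * M ^ 2) ρ⁻¹ := (MeasH_inv hM hD hρ h0).le le_sup_left
  have hbd : ∀ r : ℤ, |(r : ℝ)| ≤ Real.exp M → Bd (K ⊔ F) X ((r : ℂ) * ρ⁻¹) := by
    intro r hr
    exact ((Bd.intCast r hr (by linarith)).mul hinv).mono (by linarith)
  have hgen := U.gen_one hw hτ hnc
  rcases hC (K ⊔ F) X w τ (w * τ) (-1 / τ) w' τ' 1 ((p : ℂ) * ρ⁻¹) ((q : ℂ) * ρ⁻¹)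
    (by linarith) hfr cur1 cur2 cur3 hgen (MeasH_bd1 (by linarith)) (MeasH_rat hw hτ)
    (hbd p hp) (hbd q hq) with heng | ⟨n, hn, -, hm1, hm2⟩
  · refine MeasH_fin hM hD hρ h0 ?_ heng (hnum M hM)
    field_simp
  · exfalso
    have hn0 : (n : ℂ) ≠ 0 := Nat.cast_ne_zero.2 hn.ne'
    by_cases hp0 : p = 0
    · have hq0 : q ≠ 0 := fun h => hpq ⟨hp0, h⟩
      have hq0' : (q : ℂ) ≠ 0 := Int.cast_ne_zero.2 hq0
      refine hni _ (mul_ne_zero hn0 (mul_ne_zero hq0' (inv_ne_zero h0))) ?_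
      intro x hx
      have h1 := hgen.mp x hx
      rw [one_mul] at h1
      exact hm2 x h1
    · have hp0' : (p : ℂ) ≠ 0 := Int.cast_ne_zero.2 hp0
      exact hni _ (mul_ne_zero hn0 (mul_ne_zero hp0' (inv_ne_zero h0))) hm1

end Pool.Agent.LGO.T
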