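import Mathlib
import Pool.Agent.LGO.T.LocB
import Pool.Agent.LGO.T.MeasH
import Pool.Agent.LGO.T.MeasT
import Pool.Agent.LGO.T.Xi
import Pool.Agent.LGO.U.RRoot
import Pool.Agent.LGO.U.RAll

/-!
# LGO/T: the bound for `Y` in the case `x_a = α`, `x_b = β`

PROOF.  `mp_isog`: if `ξ ≠ 0` and `ξ Λ ⊆ Λ'` for `Λ = Lt w τ`, `Λ' = Lt w' τ'` then `ξ w = w' (c τ' + d)`, `ξ w τ = w' (a τ' + b)` with integers, so `τ = (a τ' + b) / (c τ' + d)`,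
the determinant is not `0` and it is positive (both in the upper half plane), so `IsogDeg N (j(τ')) (j(τ))` with `N = a d - b c`.
`oneB`: `alg_lat` (`LGO/U/RRoot.lean`) for `β` and `α`: `w, τ₀` and `w', τ₁`; `loc_formB` gives `C'`, `m`; `Meas w (w τ₀) w'` by `measH`: `NonCM τ₀` (`NCM.nonCM` in `H/Model.lean` or
`ncm_jInv`), and `hni` by `mp_isog` and `hni`; `η = D₁ ^ p / (κ D₀ ^ p)` is algebraic, `ρ ^ (12 p) = η Ξ`.  `meas_use`.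
`allB`: as `allA` (`AllA.lean`), with the finitely many triples `(s κ, s α, s β)`; `NCM (s β)` (`NCM.map`), and `IsogDeg N (s α) (s β)` implies `IsogDeg N α β`
(`IsogDeg.map` for `s.symm` or `heckeRel` statements in `LGO/Gal`).
-/

namespace Pool.Agent.LGO.T

open UpperHalfPlane Pool.Agent.Hhelper14.ZP Pool.Agent.EllSch Pool.Agent.Hhelper14.ZPL
open Pool.Agent.LGO Pool.Agent.LGO.U

theorem mp_isog {w w' ξ : ℂ} {τ τ' : ℍ} (hw : w ≠ 0) (hw' : w' ≠ 0) (hξ : ξ ≠ 0)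
    (h : Mp ξ (Lt w τ) (Lt w' τ')) : ∃ N, 0 < N ∧ IsogDeg N (jInv τ') (jInv τ) := by
  obtain ⟨m, n, h1⟩ := h w ⟨1, 0, by push_cast; ring⟩
  obtain ⟨m2, n2, h2⟩ := h (w * τ) ⟨0, 1, by push_cast; ring⟩
  have hz : ξ * w ≠ 0 := mul_ne_zero hξ hw
  -- the second row
  have e1 : ξ * w = w' * ((n : ℂ) * τ' + m) := by rw [h1]; ring
  have e2 : ξ * w * τ = w' * ((n2 : ℂ) * τ' + m2) := by
    have : ξ * w * τ = ξ * (w * τ) := by ring
    rw [this, h2]; ring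
  have hne : ((n : ℂ) * τ' + m) ≠ 0 := by
    intro h0
    rw [h0, mul_zero] at e1
    exact hz e1
  have hmap : (τ : ℂ) * ((n : ℂ) * τ' + m) = (n2 : ℂ) * τ' + m2 := by
    have : w' * ((τ : ℂ) * ((n : ℂ) * τ' + m)) = w' * ((n2 : ℂ) * τ' + m2) := by
      rw [← e2, e1]; ring
    exact mul_left_cancel₀ hw' this
  -- real and imaginary parts
  set x : ℝ := (τ : ℂ).re with hx
  set y : ℝ := (τ : ℂ).im with hy
  set x' : ℝ := (τ' : ℂ).re with hx'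
  set y' : ℝ := (τ' : ℂ).im with hy'
  have hy0 : 0 < y := τ.im_pos
  have hy0' : 0 < y' := τ'.im_pos
  have hre := congrArg Complex.re hmap
  have him := congrArg Complex.im hmap
  simp only [Complex.mul_re, Complex.mul_im, Complex.add_re, Complex.add_im, Complex.intCast_re,
    Complex.intCast_im, zero_mul, sub_zero, add_zero, ← hx, ← hy, ← hx', ← hy'] at hre him
  have hdet : ((n2 * m - m2 * n : ℤ) : ℝ) * y' = y * (((n : ℝ) * x' + m) ^ 2 + ((n : ℝ) * y') ^ 2) := by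
    push_cast
    linear_combination (-(m : ℝ) - n * x') * him + (n : ℝ) * y' * hre
  have hpos : 0 < ((n : ℝ) * x' + m) ^ 2 + ((n : ℝ) * y') ^ 2 := by
    rcases lt_or_eq_of_le (by positivity : 0 ≤ ((n : ℝ) * x' + m) ^ 2 + ((n : ℝ) * y') ^ 2) with h0 | h0
    · exact h0
    · exfalso
      apply hne
      have k1 : ((n : ℝ) * x' + m) ^ 2 = 0 := by nlinarith [sq_nonneg ((n : ℝ) * x' + m), sq_nonneg ((n : ℝ) * y')]
      have k2 : ((n : ℝ) * y') ^ 2 = 0 := by nlinarith [sq_nonneg ((n : ℝ) * x' + m), sq_nonneg ((n : ℝ) * y')]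
      have k3 : (n : ℝ) * x' + m = 0 := by simpa using k1
      have k4 : (n : ℝ) * y' = 0 := by
        have := pow_eq_zero_iff (n := 2) (by norm_num) |>.1 k2
        exact this
      apply Complex.ext
      · simp only [Complex.add_re, Complex.mul_re, Complex.intCast_re, Complex.intCast_im, zero_mul,
          sub_zero, Complex.zero_re]
        exact k3
      · simp only [Complex.add_im, Complex.mul_im, Complex.intCast_re, Complex.intCast_im, zero_mul,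
          add_zero, Complex.zero_im]
        exact k4
  have hD : (0 : ℤ) < n2 * m - m2 * n := by
    have h3 : 0 < ((n2 * m - m2 * n : ℤ) : ℝ) * y' := by
      rw [hdet]; exact mul_pos hy0 hpos
    have h4 : (0 : ℝ) < ((n2 * m - m2 * n : ℤ) : ℝ) := by
      by_contra h5
      rw [not_lt] at h5
      nlinarith
    exact_mod_cast h4
  refine ⟨(n2 * m - m2 * n).toNat, by omega, τ', τ, !![n2, m2; n, m], ?_, ?_, rfl, rfl⟩
  · rw [Matrix.det_fin_two_of, Int.toNat_of_nonneg hD.le]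
  · rw [Maps]
    simpa using hmap

private theorem AllB_mono {C C' : ℕ} {M : ℝ} (hC : 1 ≤ C) (h : C ≤ C') (hM : 1 ≤ M) :
    Real.exp ((C * M) ^ C) ≤ Real.exp ((C' * M) ^ C') := by
  have hC1 : (1 : ℝ) ≤ C := by exact_mod_cast hC
  have hCC : (C : ℝ) ≤ C' := by exact_mod_cast h
  refine Real.exp_le_exp.2 ?_
  calc ((C : ℝ) * M) ^ C ≤ ((C' : ℝ) * M) ^ C := by gcongr
    _ ≤ ((C' : ℝ) * M) ^ C' := pow_le_pow_right₀ (by nlinarith) h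

private theorem AllB_ge {C : ℕ} {M c : ℝ} (hC : 1 ≤ C) (h : c ≤ C) (hM : 1 ≤ M) :
    c ≤ Real.exp ((C * M) ^ C) := by
  have hC1 : (1 : ℝ) ≤ C := by exact_mod_cast hC
  have h1 : (C : ℝ) ≤ C * M := by nlinarith
  have h2 : (C : ℝ) * M ≤ (C * M) ^ C := le_self_pow₀ (by nlinarith) (by omega)
  have h3 := Real.add_one_le_exp (((C : ℝ) * M) ^ C)
  linarith

theorem oneB {κ α β : ℂ} (hκ : κ ≠ 0) (aκ : IsAlgebraic ℚ κ) (aα : IsAlgebraic ℚ α)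
    (aβ : IsAlgebraic ℚ β) (hβ : NCM β) (hni : ¬ ∃ N, 0 < N ∧ IsogDeg N α β) {p : ℕ}
    (hp : 0 < p) (C₂ : ℝ) (m₁ : ℕ) (hm₁ : 0 < m₁) :
    ∃ C : ℕ, 1 ≤ C ∧ ∀ (K : IntermediateField ℚ ℂ) [FiniteDimensional ℚ K] (M T : ℝ)
      (u v B Φ : ℂ), 2 ≤ M → (Module.finrank ℚ K : ℝ) ≤ M → (mdeg v u : ℝ) ≤ Real.exp M →
      NCM v → IsB v u B → Bd K M (B ^ p * Φ) → ‖u - α‖ ^ m₁ * T ≤ C₂ →
      ‖v - β‖ ^ m₁ * T ≤ C₂ → ‖Φ - κ‖ ^ m₁ * T ≤ C₂ → T ≤ Real.exp ((C * M) ^ C) := by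
  obtain ⟨w, τ₀, hw, -, hj, h2, h3⟩ := alg_lat aβ
  obtain ⟨w', τ₁, hw', -, hj', h2', h3'⟩ := alg_lat aα
  obtain ⟨C', m, hC', hm, hloc⟩ := loc_formB hw hw' τ₀ τ₁ hκ hp C₂ m₁ hm₁
  have hnc : NonCM (τ₀ : ℂ) := NCM.nonCM (by rw [hj]; exact hβ)
  have hmeas : Meas w (w * τ₀) w' := by
    refine measH hw τ₀.im_pos hw' τ₁.im_pos h2 h3 h2' h3' hnc ?_
    intro ξ hξ hmp
    apply hni
    have := mp_isog hw hw' hξ hmp
    rwa [hj, hj'] at this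
  set D₀ : ℂ := G2 w (w * τ₀) ^ 3 - 27 * G3 w (w * τ₀) ^ 2 with hD₀
  set D₁ : ℂ := G2 w' (w' * τ₁) ^ 3 - 27 * G3 w' (w' * τ₁) ^ 2 with hD₁
  have hD00 : D₀ ≠ 0 := disc_ne_zero_w τ₀ hw
  have a27 : IsAlgebraic ℚ (27 : ℂ) := by
    have := isAlgebraic_natCast (R := ℚ) (A := ℂ) 27
    exact_mod_cast this
  have aD₀ : IsAlgebraic ℚ D₀ := (h2.pow 3).sub (a27.mul (h3.pow 2))
  have aD₁ : IsAlgebraic ℚ D₁ := (h2'.pow 3).sub (a27.mul (h3'.pow 2))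
  have hη : IsAlgebraic ℚ (D₁ ^ p * (κ * D₀ ^ p)⁻¹) := (aD₁.pow p).mul (aκ.mul (aD₀.pow p)).inv
  obtain ⟨C1, hC1, huse⟩ := meas_use hmeas hη hp hm C'
  obtain ⟨c2, hc2⟩ := exists_nat_ge C'
  refine ⟨max C1 c2, le_max_of_le_left hC1, ?_⟩
  intro K _ M T u v B Φ hM hK hN hv hB hBd e1 e2 e3
  rcases lt_or_ge T C' with hT | hT
  · refine hT.le.trans (AllB_ge (le_max_of_le_left hC1) ?_ (by linarith))
    push_cast
    exact hc2.trans (le_max_right _ _)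
  · obtain ⟨a, b, ρ, hab, ha, hb, hρ, hfin⟩ := hloc T u v B Φ hT (by rw [hj']; exact e1)
      (by rw [hj]; exact e2) e3 hv hB
    refine (huse K M T (mdeg v u) a b ρ (B ^ p * Φ) hM hK hN ha hb hab ?_ hBd hfin).trans
      (AllB_mono hC1 (le_max_left _ _) (by linarith))
    have hk : κ * D₀ ^ p ≠ 0 := mul_ne_zero hκ (pow_ne_zero p hD00)
    have : ρ ^ (12 * p) = (κ * D₀ ^ p)⁻¹ * (κ * D₀ ^ p * ρ ^ (12 * p)) := by
      rw [← mul_assoc, inv_mul_cancel₀ hk, one_mul]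
    rw [this, hρ]
    ring

private theorem AllB_fin {x : ℂ} (hx : IsAlgebraic ℚ x) :
    (Set.range fun s : ℂ ≃+* ℂ => s x).Finite := by
  refine ((minpoly ℚ x).rootSet_finite ℂ).subset ?_
  rintro _ ⟨s, rfl⟩
  rw [Polynomial.mem_rootSet]
  refine ⟨minpoly.ne_zero hx.isIntegral, ?_⟩
  have h1 := Polynomial.aeval_algHom_apply (RingHom.toRatAlgHom (s : ℂ →+* ℂ)) x (minpoly ℚ x)
  rw [minpoly.aeval, map_zero] at h1
  exact h1

private theorem AllB_alg {x : ℂ} (hx : IsAlgebraic ℚ x) (s : ℂ ≃+* ℂ) : IsAlgebraic ℚ (s x) := by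
  refine ⟨minpoly ℚ x, minpoly.ne_zero hx.isIntegral, ?_⟩
  have h1 := Polynomial.aeval_algHom_apply (RingHom.toRatAlgHom (s : ℂ →+* ℂ)) x (minpoly ℚ x)
  rw [minpoly.aeval, map_zero] at h1
  exact h1

theorem allB {κ α β : ℂ} (hκ : κ ≠ 0) (aκ : IsAlgebraic ℚ κ) (aα : IsAlgebraic ℚ α)
    (aβ : IsAlgebraic ℚ β) (hβ : NCM β) (hni : ¬ ∃ N, 0 < N ∧ IsogDeg N α β) {p : ℕ}
    (hp : 0 < p) (C₁ : ℝ) (hC₁ : 1 ≤ C₁) (m : ℕ) (hm : 0 < m) (C₂ : ℝ) (m₁ : ℕ) (hm₁ : 0 < m₁) :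
    ∃ C : ℕ, 1 ≤ C ∧ ∀ (K : IntermediateField ℚ ℂ) [FiniteDimensional ℚ K] (u v Φ y : ℂ),
      Pt p p C₁ m u v Φ → u ∈ K → v ∈ K → Φ ∈ K →
      (∀ s : ℂ ≃+* ℂ, C₂ ≤ ‖s y‖ → ‖s u - s α‖ ^ m₁ * ‖s y‖ ≤ C₂ ∧
        ‖s v - s β‖ ^ m₁ * ‖s y‖ ≤ C₂ ∧ ‖s Φ - s κ‖ ^ m₁ * ‖s y‖ ≤ C₂) → ∀ H : ℝ, 1 ≤ H →
      (∀ s : ℂ ≃+* ℂ, ‖s u‖ ≤ Real.exp H) → (∀ s : ℂ ≃+* ℂ, ‖s v‖ ≤ Real.exp H) →
        ∀ s : ℂ ≃+* ℂ, ‖s y‖ ≤ Real.exp ((C * (Module.finrank ℚ K *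
          (1 + Real.log (mdeg v u) + Real.log H))) ^ C) := by
  set F : Set (ℂ × ℂ × ℂ) := Set.range fun s : ℂ ≃+* ℂ => (s κ, s α, s β) with hFdef
  have hF : F.Finite := by
    refine Set.Finite.subset ((AllB_fin aκ).prod ((AllB_fin aα).prod (AllB_fin aβ))) ?_
    rintro _ ⟨s, rfl⟩
    exact ⟨⟨s, rfl⟩, ⟨s, rfl⟩, ⟨s, rfl⟩⟩
  obtain ⟨C, hC, HH⟩ := RAll_unif hF (fun (Q : ℂ × ℂ × ℂ) (C : ℕ) =>
    ∀ (K : IntermediateField ℚ ℂ) [FiniteDimensional ℚ K] (M T : ℝ)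
      (u v B Φ : ℂ), 2 ≤ M → (Module.finrank ℚ K : ℝ) ≤ M → (mdeg v u : ℝ) ≤ Real.exp M →
      NCM v → IsB v u B → Bd K M (B ^ p * Φ) → ‖u - Q.2.1‖ ^ m₁ * T ≤ C₂ →
      ‖v - Q.2.2‖ ^ m₁ * T ≤ C₂ → ‖Φ - Q.1‖ ^ m₁ * T ≤ C₂ → T ≤ Real.exp ((C * M) ^ C)) (by
      intro Q C C' hC hCC' h K _ M T u v B Φ hM h1 h2 h3 h4 h5 h6 h7 h8
      exact (h K M T u v B Φ hM h1 h2 h3 h4 h5 h6 h7 h8).trans
        (AllB_mono hC hCC' (by linarith))) (by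
      rintro _ ⟨s, rfl⟩
      refine oneB ((map_ne_zero_iff s s.injective).2 hκ) (AllB_alg aκ s) (AllB_alg aα s)
        (AllB_alg aβ s) (hβ.map s) ?_ hp C₂ m₁ hm₁
      rintro ⟨N, hN, hi⟩
      apply hni
      refine ⟨N, hN, ?_⟩
      have h1 := IsogDeg.map (s.symm : ℂ →+* ℂ) hN hi
      have e1 : (s.symm : ℂ →+* ℂ) (s α) = α := s.symm_apply_apply α
      have e2 : (s.symm : ℂ →+* ℂ) (s β) = β := s.symm_apply_apply β
      rwa [e1, e2] at h1)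
  obtain ⟨Cb, hCb, hbd⟩ := pt_bd p C₁ hC₁ m hm
  obtain ⟨c2, hc2⟩ := exists_nat_ge C₂
  set A : ℕ := Cb + 2 with hA
  refine ⟨C * A + c2, by nlinarith, ?_⟩
  intro K _ u v Φ y hPt hu hv hΦ hy H hH hsu hsv s
  obtain ⟨B, hB⟩ := exists_B hPt.isog
  have hN : 0 < mdeg v u := mdeg_pos hB.isog
  have hN1 : (1 : ℝ) ≤ mdeg v u := by exact_mod_cast hN
  have hlN : 0 ≤ Real.log (mdeg v u) := Real.log_nonneg hN1
  have hlH : 0 ≤ Real.log H := Real.log_nonneg hH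
  have hD0 : 0 < Module.finrank ℚ K := Module.finrank_pos
  have hD : (1 : ℝ) ≤ Module.finrank ℚ K := by exact_mod_cast hD0
  set D : ℝ := (Module.finrank ℚ K : ℝ) with hDdef
  set L : ℝ := 1 + Real.log (mdeg v u) + Real.log H with hL
  have hL1 : 1 ≤ L := by linarith
  have hDL : 1 ≤ D * L := by nlinarith
  have hC1 : (1 : ℝ) ≤ C := by exact_mod_cast hC
  have hCb1 : (1 : ℝ) ≤ Cb := by exact_mod_cast hCb
  have hAr : (A : ℝ) = Cb + 2 := by rw [hA]; push_cast; ring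
  rcases lt_or_ge ‖s y‖ C₂ with hlt | hge
  · refine hlt.le.trans (AllB_ge (by nlinarith) ?_ hDL)
    push_cast
    nlinarith [hc2, mul_nonneg (by linarith : (0 : ℝ) ≤ C) (by rw [hAr]; linarith : (0 : ℝ) ≤ A)]
  · obtain ⟨k1, k2, k3⟩ := hy s hge
    have hM1 : L ≤ D * L := by nlinarith
    have hM2 : D ≤ D * L := by nlinarith
    have h := HH (s κ, s α, s β) ⟨s, rfl⟩ (KS s K) (A * (D * L)) ‖s y‖ (s u) (s v) (s B) (s Φ)
      ?_ ?_ ?_ (hPt.ncm.map s) (hB.map hPt.ncm s) ?_ k1 k2 k3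
    · refine h.trans (Real.exp_le_exp.2 ?_)
      have e : (C : ℝ) * (A * (D * L)) = ((C * A : ℕ) : ℝ) * (D * L) := by push_cast; ring
      rw [e]
      have hCA : 1 ≤ C * A := by nlinarith
      have hCA' : (1 : ℝ) ≤ ((C * A : ℕ) : ℝ) := by exact_mod_cast hCA
      have q1 : ((C * A : ℕ) : ℝ) ≤ ((C * A + c2 : ℕ) : ℝ) := by
        push_cast
        have : (0 : ℝ) ≤ c2 := by positivity
        linarith
      calc (((C * A : ℕ) : ℝ) * (D * L)) ^ C ≤ (((C * A + c2 : ℕ) : ℝ) * (D * L)) ^ C := by gcongr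
        _ ≤ (((C * A + c2 : ℕ) : ℝ) * (D * L)) ^ (C * A + c2) := by
            refine pow_le_pow_right₀ ?_ ?_
            · nlinarith
            · nlinarith
    · rw [hAr]; nlinarith
    · rw [finrank_KS]
      rw [hAr]; nlinarith
    · rw [mdeg_map]
      have h4 : Real.log (mdeg v u) ≤ A * (D * L) := by
        rw [hAr]; nlinarith
      calc (mdeg v u : ℝ) = Real.exp (Real.log (mdeg v u)) := (Real.exp_log (by linarith)).symm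
        _ ≤ _ := Real.exp_le_exp.2 h4
    · have h5 := (hbd K u v Φ B hPt hB hu hv hΦ H hH hsu hsv).map s
      rw [map_mul, map_pow] at h5
      refine h5.mono ?_
      rw [hAr]
      have : (Cb : ℝ) * L ≤ Cb * (D * L) := by gcongr
      nlinarith

end Pool.Agent.LGO.T
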