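import Mathlib
import Pool.Agent.LGO.U.RNum
import Pool.Agent.LGO.U.RCore

/-!
# LGO/T: from a bound for one function to the conclusion

PROOF, as `core_D` (`LGO/U/RCore.lean`) and `pair_bound_m` (`LGO/U/RPair.lean`).  `rel_height` for `Y` and the three coordinates: `C₁ ≥ 1`, finite sets `Er`.
`isog_use`: `C₂`.  Let `x ∈ V` be outside `E₀` and the `Er`, `K ∋ x (i b)`, `D = [K : ℚ] ≥ 1`, `N = 3 + Σ mdeg (x (i a)) (x (i b))`.  All coordinates are algebraic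
numbers, so `Y(x)` is algebraic and its conjugates `s Y(x)` are finitely many: let `L = max 0 (log (max_s ‖s Y(x)‖))`, attained by an automorphism (see
`Core_max` in `H/Core.lean` and its use in `RPair.lean`).  `‖s Y(x)‖ ≤ exp L` for all `s`, so `‖s (x (i b))‖ ≤ exp H` with `H = C₁ D (1 + L) ≥ 1` (`rel_height`).
By `h0`: `L ≤ (C₀ D (log N + log H)) ^ C₀` (if `L > 0`; clear for `L = 0`: the right side is `≥ 0`).  So `H ≤ C₁ D (1 + (C₀ D (log N + log H)) ^ C₀) ≤ (a D (log N + log H)) ^ k` for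
constants `a, k` (`1 ≤ log N`), and `num_H` (`LGO/U/RNum.lean`): `H ≤ (C₃ D log N) ^ C₃`.
Then as in `core_D`: `Bd K (2 H) (x (i b))` (`bd_of_aut`), `isog_use` with `M = 2 H`: `mdeg ≤ (2 H) ^ C₂`, `N ≤ 3 + 9 (2 H) ^ C₂ ≤ (a' D log N) ^ k'`, `num_N`:
`N ≤ (C D) ^ C`, and `H ≤ (C₃ D log N) ^ C₃ ≤ (C D) ^ C`.
-/

namespace Pool.Agent.LGO.T

open MvPolynomial Pool.Agent.Hhelper14.ZPL Pool.Agent.LGO Pool.Agent.LGO.U

/-- one of the conjugates of an algebraic number has the largest absolute value -/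
private theorem CoreF_max {z : ℂ} (hint : IsIntegral ℚ z) :
    ∃ s₀ : ℂ ≃+* ℂ, ∀ s : ℂ ≃+* ℂ, ‖s z‖ ≤ ‖s₀ z‖ := by
  classical
  have hP0 : minpoly ℚ z ≠ 0 := minpoly.ne_zero hint
  have hfin : (Set.range fun s : ℂ ≃+* ℂ => ‖s z‖).Finite := by
    apply Set.Finite.subset ((((minpoly ℚ z).aroots ℂ).toFinset.finite_toSet).image fun w => ‖w‖)
    rintro _ ⟨s, rfl⟩
    refine ⟨s z, ?_, rfl⟩
    rw [Finset.mem_coe, Multiset.mem_toFinset, Polynomial.mem_aroots]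
    refine ⟨hP0, ?_⟩
    have h1 := Polynomial.aeval_algHom_apply (RingHom.toRatAlgHom (s : ℂ →+* ℂ)) z (minpoly ℚ z)
    rw [minpoly.aeval, map_zero] at h1
    exact h1
  obtain ⟨r, ⟨s₀, hs₀⟩, hr⟩ := Set.exists_max_image (Set.range fun s : ℂ ≃+* ℂ => ‖s z‖) id hfin
    ⟨_, ⟨RingEquiv.refl ℂ, rfl⟩⟩
  refine ⟨s₀, fun s => ?_⟩
  have := hr _ ⟨s, rfl⟩
  rw [← hs₀] at this
  exact this

/-- the values of a polynomial at algebraic numbers are algebraic -/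
private theorem CoreF_int (Y : MvPolynomial (Fin 3) Qb) {y : Fin 3 → ℂ}
    (hy : ∀ b, IsIntegral ℚ (y b)) : IsIntegral ℚ (aeval y Y : ℂ) := by
  induction Y using MvPolynomial.induction_on with
  | C q =>
    rw [aeval_C]
    have halg : Algebra.IsAlgebraic ℚ Qb := algebraicClosure.isAlgebraic ℚ ℂ
    have h1 : IsIntegral ℚ q := (Algebra.IsAlgebraic.isAlgebraic q).isIntegral
    exact h1.algebraMap
  | add p q hp hq =>
    rw [map_add]
    exact hp.add hq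
  | mul_X p b hp =>
    rw [map_mul, aeval_X]
    exact hp.mul (hy b)

/-- the numbers -/
private theorem CoreF_num {c D l H L : ℝ} {C₀ : ℕ} (hc : 1 ≤ c) (hD : 1 ≤ D) (hl : 1 ≤ l)
    (hH : H = c * D * (1 + L)) (hL : L ≤ (C₀ * (D * l)) ^ C₀) :
    H ≤ ((2 * c * (C₀ + 1)) * D * l) ^ (C₀ + 1) := by
  have hC0 : (0 : ℝ) ≤ C₀ := Nat.cast_nonneg _
  have hDl : 1 ≤ D * l := one_le_mul_of_one_le_of_one_le hD hl
  obtain ⟨X, hX⟩ : ∃ X : ℝ, X = (C₀ + 1) * (D * l) := ⟨_, rfl⟩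
  have hX1 : 1 ≤ X := by
    rw [hX]
    exact one_le_mul_of_one_le_of_one_le (by linarith) hDl
  have hLX : L ≤ X ^ C₀ := by
    refine hL.trans (pow_le_pow_left₀ (by positivity) ?_ _)
    rw [hX]
    exact mul_le_mul_of_nonneg_right (by linarith) (by linarith)
  have hXp : 1 ≤ X ^ C₀ := one_le_pow₀ hX1
  have hDX : D ≤ X := by
    rw [hX]
    have h9 : D ≤ D * l := le_mul_of_one_le_right (by linarith) hl
    exact h9.trans (le_mul_of_one_le_left (by linarith) (by linarith))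
  have h1 : H ≤ (2 * c * X) * X ^ C₀ := by
    rw [hH]
    calc c * D * (1 + L) ≤ c * X * (2 * X ^ C₀) := by
          refine (mul_le_mul_of_nonneg_left (by linarith : 1 + L ≤ 2 * X ^ C₀)
            (by positivity)).trans (mul_le_mul_of_nonneg_right
              (mul_le_mul_of_nonneg_left hDX (by linarith)) (by positivity))
      _ = (2 * c * X) * X ^ C₀ := by ring
  have h2 : (2 * c * X) * X ^ C₀ ≤ (2 * c * X) * (2 * c * X) ^ C₀ := by
    refine mul_le_mul_of_nonneg_left (pow_le_pow_left₀ (by linarith) ?_ _) (by positivity)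
    exact le_mul_of_one_le_left (by linarith) (by linarith)
  have h3 : (2 * c * X) * (2 * c * X) ^ C₀ = ((2 * c * (C₀ + 1)) * D * l) ^ (C₀ + 1) := by
    rw [hX]
    ring
  rw [← h3]
  exact h1.trans h2

theorem core_F {n : ℕ} {V : Set (Fin n → ℂ)} (hV : Pool.Agent.Hhelper14.ZPL.IsIrredClosed V)
    (hVk : KClosed V) (hdim : Pool.Agent.Hhelper14.ZPL.dim V = 1) (i : Fin 3 → Fin n)
    {Y : MvPolynomial (Fin 3) Qb} (hY : ∀ c : ℂ, ∃ x ∈ V, (aeval (x ∘ i) Y : ℂ) ≠ c)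
    {C₀ : ℕ} {E₀ : Set (Fin n → ℂ)} (hE₀ : E₀.Finite)
    (h0 : ∀ x ∈ V, x ∉ E₀ → (∀ a, NCM (x (i a))) →
      (∀ a b, ∃ N, 0 < N ∧ IsogDeg N (x (i a)) (x (i b))) → (∀ a, IsIntegral ℤ (x (i a))) →
      ∀ (K : IntermediateField ℚ ℂ) [FiniteDimensional ℚ K], (∀ b, x (i b) ∈ K) →
        ∀ N : ℝ, 3 ≤ N → (∀ a b, (mdeg (x (i a)) (x (i b)) : ℝ) ≤ N) → ∀ H : ℝ, 1 ≤ H →
          (∀ b, ∀ s : ℂ ≃+* ℂ, ‖s (x (i b))‖ ≤ Real.exp H) → ∀ s : ℂ ≃+* ℂ,
            ‖s (aeval (x ∘ i) Y : ℂ)‖ ≤ Real.exp ((C₀ * (Module.finrank ℚ K *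
              (Real.log N + Real.log H))) ^ C₀)) :
    ∃ (C : ℕ) (E : Set (Fin n → ℂ)), E.Finite ∧ ∀ x ∈ V, x ∉ E → (∀ a, NCM (x (i a))) →
      (∀ a b, ∃ N, 0 < N ∧ IsogDeg N (x (i a)) (x (i b))) → (∀ a, IsIntegral ℤ (x (i a))) →
      Concl i C x := by
  classical
  -- one of the coordinates is not constant
  obtain ⟨a, ha⟩ : ∃ a : Fin 3, ∀ c : ℂ, ∃ x ∈ V, x (i a) ≠ c := by
    by_contra hcon
    push Not at hcon
    choose c hc using hcon
    obtain ⟨x, hx, hxc⟩ := hY (aeval c Y : ℂ)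
    apply hxc
    have h1 : x ∘ i = c := funext fun a => hc a x hx
    rw [h1]
  choose Cr Er hCr hEr hrel using fun b => rel_height hV hVk hdim i hY b
  obtain ⟨c, hc⟩ := exists_nat_ge (∑ b, Cr b)
  have hca : ∀ b, Cr b ≤ c := fun b =>
    (Finset.single_le_sum (f := Cr) (fun d _ => zero_le_one.trans (hCr d)) (Finset.mem_univ b)).trans
      hc
  have hc1 : (1 : ℝ) ≤ c := (hCr 0).trans (hca 0)
  obtain ⟨C₃, hC₃, hnum⟩ := num_H (2 * c * (C₀ + 1)) (by positivity) (C₀ + 1)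
  refine core_D hV hVk hdim i a ha (C₀ := C₃) (E₀ := E₀ ∪ ⋃ b, Er b)
    (hE₀.union (Set.finite_iUnion hEr)) ?_
  intro x hx hxE hncm hiso hint K _ hxK N hN hmN s
  have hxE₀ : x ∉ E₀ := fun h => hxE (Or.inl h)
  have hxEr : ∀ b, x ∉ Er b := fun b h => hxE (Or.inr (Set.mem_iUnion.2 ⟨b, h⟩))
  obtain ⟨D, hDdef⟩ : ∃ D : ℝ, D = (Module.finrank ℚ K : ℝ) := ⟨_, rfl⟩
  have hD : 1 ≤ D := by
    rw [hDdef]
    exact_mod_cast Module.finrank_pos (R := ℚ) (M := K)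
  have hlN : 1 ≤ Real.log N := by
    rw [Real.le_log_iff_exp_le (by linarith)]
    have := Real.exp_one_lt_d9
    linarith
  obtain ⟨sY, hsY⟩ := CoreF_max (CoreF_int Y (y := x ∘ i) fun b => (hint b).tower_top)
  obtain ⟨L, hLdef⟩ : ∃ L : ℝ, L = max 0 (Real.log ‖sY (aeval (x ∘ i) Y : ℂ)‖) := ⟨_, rfl⟩
  have hL0 : 0 ≤ L := by rw [hLdef]; exact le_max_left _ _
  have hbY : ∀ s : ℂ ≃+* ℂ, ‖s (aeval (x ∘ i) Y : ℂ)‖ ≤ Real.exp L := fun s =>
    (hsY s).trans ((Real.le_exp_log _).trans (Real.exp_le_exp.2 (by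
      rw [hLdef]
      exact le_max_right _ _)))
  obtain ⟨H, hH⟩ : ∃ H : ℝ, H = c * D * (1 + L) := ⟨_, rfl⟩
  have hH1 : 1 ≤ H := by
    rw [hH]
    exact one_le_mul_of_one_le_of_one_le (one_le_mul_of_one_le_of_one_le hc1 hD) (by linarith)
  have hsx : ∀ b, ∀ s : ℂ ≃+* ℂ, ‖s (x (i b))‖ ≤ Real.exp H := by
    intro b s
    refine (hrel b x hx (hxEr b) K hxK hint _ hL0 hbY s).trans ?_
    apply Real.exp_le_exp.2
    rw [hH, ← hDdef]
    have := hca b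
    gcongr
  have hlH : 0 ≤ Real.log H := Real.log_nonneg hH1
  have hL : L ≤ (C₀ * (D * (Real.log N + Real.log H))) ^ C₀ := by
    have h1 := h0 x hx hxE₀ hncm hiso hint K hxK N hN hmN H hH1 hsx sY
    rw [← hDdef] at h1
    have h2 : 0 ≤ (C₀ * (D * (Real.log N + Real.log H))) ^ C₀ := by positivity
    rw [hLdef]
    refine max_le h2 ?_
    rcases (norm_nonneg (sY (aeval (x ∘ i) Y : ℂ))).eq_or_lt with h3 | h3
    · rw [← h3, Real.log_zero]
      exact h2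
    · exact (Real.log_le_iff_le_exp h3).2 h1
  have h4 := CoreF_num (l := Real.log N + Real.log H) hc1 hD (by linarith) hH hL
  have h5 := hnum D N H hD hN hH1 h4
  refine (hsx a s).trans (Real.exp_le_exp.2 (h5.trans (le_of_eq ?_)))
  rw [← hDdef, mul_assoc]

end Pool.Agent.LGO.T
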