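import Mathlib
import Pool.Agent.LGO.T.WtQ
import Pool.Agent.LGO.T.WtUse

/-!
# LGO/T: the conditions at a point

PROOF.  `V` is not contained in `E` (`hconst b`: `V` is infinite, because `x_b` is not constant and `V` is irreducible: a finite irreducible
closed set is a point; simpler: `exists_unbounded` in `LGO/S/Dich.lean` for `j = i b`), so `F` and `G` do not vanish identically on `V`.
Four certificates (`wtQ`): `Wt V i F G b q` and `Wt V i (F * X a ^ p) G b q` from `up` (`‖x_a‖ ^ p ≤ max 1 ‖x_a‖ ^ p`, `1 ≤ max ..`),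
`Wt V i G F a p` and `Wt V i (G * X b ^ q) F a p` from `lo`.
`Wt.bound` for the first two, divided by `‖s G(x)‖ ≠ 0`, gives `up` for all `s` (`max 1 ‖s u‖ ^ p` is `1` or `‖s u‖ ^ p`), the last two divided
by `‖s G(x)‖` give `lo`.  `Wt.integral` for `(F, G)` and `(G, F)` gives `int1`, `int2` (product of the two constants `m`).
-/

namespace Pool.Agent.LGO.T

open MvPolynomial Pool.Agent.Hhelper14.ZPL Pool.Agent.LGO

/-- the inequality of a point: from the two bounds for the number and for the number times `u ^ p` -/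
private lemma TorUse_max {f g u B M : ℝ} {p : ℕ} (hg : 0 < g) (h1 : f ≤ B * (g * M))
    (h2 : f * u ^ p ≤ B * (g * M)) : f / g * max 1 u ^ p ≤ B * M := by
  rw [div_mul_eq_mul_div, div_le_iff₀ hg]
  rcases le_total u 1 with hu1 | hu1
  · rw [max_eq_left hu1, one_pow, mul_one]
    calc f ≤ B * (g * M) := h1
      _ = B * M * g := by ring
  · rw [max_eq_right hu1]
    calc f * u ^ p ≤ B * (g * M) := h2
      _ = B * M * g := by ring

theorem tor_pt {n : ℕ} {V : Set (Fin n → ℂ)} (hV : Pool.Agent.Hhelper14.ZPL.IsIrredClosed V)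
    (hVk : KClosed V) (hdim : Pool.Agent.Hhelper14.ZPL.dim V = 1) (i : Fin 3 → Fin n)
    (hconst : ∀ a, ∀ c : ℂ, ∃ x ∈ V, x (i a) ≠ c) {a b : Fin 3} {F G : MvPolynomial (Fin 3) Qb}
    {p q : ℕ} {C₀ : ℝ} {E : Set (Fin n → ℂ)} (h : TorData V i a b F G p q C₀ E) :
    ∃ (C : ℝ) (m : ℕ), 1 ≤ C ∧ 0 < m ∧ ∀ x ∈ V, x ∉ E → NCM (x (i b)) →
      (∃ N, 0 < N ∧ IsogDeg N (x (i b)) (x (i a))) → IsIntegral ℤ (x (i a)) →
      IsIntegral ℤ (x (i b)) →
      Pt p q C m (x (i a)) (x (i b)) (aeval (x ∘ i) F / aeval (x ∘ i) G : ℂ) := by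
  obtain ⟨x₀, hx₀, hx₀E⟩ : ∃ x ∈ V, x ∉ E := by
    obtain ⟨P, hP, hPt⟩ := exists_unbounded hV (i b) (hconst b)
    by_contra hcon
    push Not at hcon
    obtain ⟨B, hB⟩ := (h.fin.image (fun x : Fin n → ℂ => ‖x (i b)‖)).bddAbove
    obtain ⟨m, hm⟩ := (hPt.eventually (Filter.eventually_gt_atTop B)).exists
    exact absurd (hB ⟨P m, hcon _ (hP m), rfl⟩) (not_le.2 hm)
  have hM : ∀ (t : ℝ) (k : ℕ), 1 ≤ max 1 t ^ k := fun t k => one_le_pow₀ (le_max_left _ _)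
  have w1 : Wt V i F G b q := by
    refine wtQ hV hVk hdim i b (hconst b) F G ⟨x₀, hx₀, h.neG x₀ hx₀ hx₀E⟩ q C₀ h.fin
      fun x hx hxE => ?_
    calc ‖(aeval (x ∘ i) F : ℂ)‖ ≤ ‖(aeval (x ∘ i) F : ℂ)‖ * max 1 ‖x (i a)‖ ^ p :=
          le_mul_of_one_le_right (norm_nonneg _) (hM _ _)
      _ ≤ _ := h.up x hx hxE
      _ = _ := by ring
  have w2 : Wt V i (F * X a ^ p) G b q := by
    refine wtQ hV hVk hdim i b (hconst b) _ G ⟨x₀, hx₀, h.neG x₀ hx₀ hx₀E⟩ q C₀ h.fin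
      fun x hx hxE => ?_
    rw [map_mul, map_pow, aeval_X, norm_mul, norm_pow]
    calc ‖(aeval (x ∘ i) F : ℂ)‖ * ‖(x ∘ i) a‖ ^ p ≤
          ‖(aeval (x ∘ i) F : ℂ)‖ * max 1 ‖x (i a)‖ ^ p :=
          mul_le_mul_of_nonneg_left (pow_le_pow_left₀ (norm_nonneg _) (le_max_right _ _) _)
            (norm_nonneg _)
      _ ≤ _ := h.up x hx hxE
      _ = _ := by ring
  have w3 : Wt V i G F a p := by
    refine wtQ hV hVk hdim i a (hconst a) G F ⟨x₀, hx₀, h.neF x₀ hx₀ hx₀E⟩ p C₀ h.fin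
      fun x hx hxE => ?_
    calc ‖(aeval (x ∘ i) G : ℂ)‖ ≤ ‖(aeval (x ∘ i) G : ℂ)‖ * max 1 ‖x (i b)‖ ^ q :=
          le_mul_of_one_le_right (norm_nonneg _) (hM _ _)
      _ ≤ _ := h.lo x hx hxE
      _ = _ := by ring
  have w4 : Wt V i (G * X b ^ q) F a p := by
    refine wtQ hV hVk hdim i a (hconst a) _ F ⟨x₀, hx₀, h.neF x₀ hx₀ hx₀E⟩ p C₀ h.fin
      fun x hx hxE => ?_
    rw [map_mul, map_pow, aeval_X, norm_mul, norm_pow]
    calc ‖(aeval (x ∘ i) G : ℂ)‖ * ‖(x ∘ i) b‖ ^ q ≤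
          ‖(aeval (x ∘ i) G : ℂ)‖ * max 1 ‖x (i b)‖ ^ q :=
          mul_le_mul_of_nonneg_left (pow_le_pow_left₀ (norm_nonneg _) (le_max_right _ _) _)
            (norm_nonneg _)
      _ ≤ _ := h.lo x hx hxE
      _ = _ := by ring
  obtain ⟨C1, hC1, b1⟩ := w1.bound
  obtain ⟨C2, hC2, b2⟩ := w2.bound
  obtain ⟨C3, hC3, b3⟩ := w3.bound
  obtain ⟨C4, hC4, b4⟩ := w4.bound
  obtain ⟨m1, hm1, i1⟩ := w1.integral
  obtain ⟨m2, hm2, i2⟩ := w3.integral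
  set C := max (max C1 C2) (max C3 C4) with hC
  have c1 : C1 ≤ C := (le_max_left _ _).trans (le_max_left _ _)
  have c2 : C2 ≤ C := (le_max_right _ _).trans (le_max_left _ _)
  have c3 : C3 ≤ C := (le_max_left _ _).trans (le_max_right _ _)
  have c4 : C4 ≤ C := (le_max_right _ _).trans (le_max_right _ _)
  refine ⟨C, m1 * m2, hC1.trans c1, Nat.mul_pos hm1 hm2, fun x hx hxE hn hiso hu hv => ?_⟩
  have hF : (aeval (x ∘ i) F : ℂ) ≠ 0 := h.neF x hx hxE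
  have hG : (aeval (x ∘ i) G : ℂ) ≠ 0 := h.neG x hx hxE
  have hsF : ∀ s : ℂ ≃+* ℂ, 0 < ‖s (aeval (x ∘ i) F : ℂ)‖ := fun s =>
    norm_pos_iff.2 ((map_ne_zero s).2 hF)
  have hsG : ∀ s : ℂ ≃+* ℂ, 0 < ‖s (aeval (x ∘ i) G : ℂ)‖ := fun s =>
    norm_pos_iff.2 ((map_ne_zero s).2 hG)
  refine ⟨hn, hiso, hu, hv, div_ne_zero hF hG, ?_, ?_, ?_, ?_⟩
  · intro s
    rw [map_div₀, norm_div]
    refine TorUse_max (hsG s) ?_ ?_
    · exact (b1 s x hx).trans (mul_le_mul_of_nonneg_right c1 (by positivity))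
    · have h2 := b2 s x hx
      rw [map_mul, map_pow, aeval_X, map_mul, map_pow, norm_mul, norm_pow] at h2
      exact h2.trans (mul_le_mul_of_nonneg_right c2 (by positivity))
  · intro s
    rw [map_div₀, norm_div]
    have key : ‖s (aeval (x ∘ i) G : ℂ)‖ / ‖s (aeval (x ∘ i) F : ℂ)‖ * max 1 ‖s (x (i b))‖ ^ q ≤
        C * max 1 ‖s (x (i a))‖ ^ p := by
      refine TorUse_max (hsF s) ?_ ?_
      · exact (b3 s x hx).trans (mul_le_mul_of_nonneg_right c3 (by positivity))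
      · have h2 := b4 s x hx
        rw [map_mul, map_pow, aeval_X, map_mul, map_pow, norm_mul, norm_pow] at h2
        exact h2.trans (mul_le_mul_of_nonneg_right c4 (by positivity))
    have hpos : 0 < ‖s (aeval (x ∘ i) F : ℂ)‖ / ‖s (aeval (x ∘ i) G : ℂ)‖ := div_pos (hsF s) (hsG s)
    have h3 := mul_le_mul_of_nonneg_left key hpos.le
    have e1 : ‖s (aeval (x ∘ i) F : ℂ)‖ / ‖s (aeval (x ∘ i) G : ℂ)‖ *
        (‖s (aeval (x ∘ i) G : ℂ)‖ / ‖s (aeval (x ∘ i) F : ℂ)‖ * max 1 ‖s (x (i b))‖ ^ q) =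
        max 1 ‖s (x (i b))‖ ^ q := by
      rw [← mul_assoc, div_mul_div_cancel₀ (hsG s).ne', div_self (hsF s).ne', one_mul]
    rw [e1] at h3
    calc max 1 ‖s (x (i b))‖ ^ q ≤ _ := h3
      _ = _ := by ring
  · have h1 := i1 x hx hG hv
    have h2 := (isIntegral_algebraMap (R := ℤ) (A := ℂ) (x := (m2 : ℤ))).mul h1
    rw [show (((m1 * m2 : ℕ) : ℂ)) * (aeval (x ∘ i) F / aeval (x ∘ i) G : ℂ) =
      algebraMap ℤ ℂ (m2 : ℤ) * ((m1 : ℂ) * (aeval (x ∘ i) F / aeval (x ∘ i) G : ℂ)) by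
        push_cast
        ring]
    exact h2
  · have h1 := i2 x hx hF hu
    have h2 := (isIntegral_algebraMap (R := ℤ) (A := ℂ) (x := (m1 : ℤ))).mul h1
    rw [inv_div, show (((m1 * m2 : ℕ) : ℂ)) * (aeval (x ∘ i) G / aeval (x ∘ i) F : ℂ) =
      algebraMap ℤ ℂ (m1 : ℤ) * ((m2 : ℂ) * (aeval (x ∘ i) G / aeval (x ∘ i) F : ℂ)) by
        push_cast
        ring]
    exact h2

end Pool.Agent.LGO.T
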