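import Mathlib
import Pool.Agent.LGO.T.CoreF
import Pool.Agent.LGO.T.TorUse
import Pool.Agent.LGO.T.AllA
import Pool.Agent.LGO.T.AllB
import Pool.Agent.LGO.T.Neq

/-!
# LGO/T: the three cases

PROOFS.  `fld_mv`: the coefficients of `F` and `G` are finitely many algebraic numbers, they generate a field `K₀` of finite degree; the value at a point with coordinates in
`K` lies in `K ⊔ K₀`, whose degree is at most `[K : ℚ] [K₀ : ℚ]` (`IntermediateField.finrank_sup_le`).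
`core_neq`: `core_F` for `Y = X b`, `E₀ = E`: let `x, K, N, H` be given, `K' ∋ x_a, x_b, F(x), G(x)`, `[K' : ℚ] ≤ d₀ D`; `tor_pt` gives `Pt p q C m x_a x_b Φ`; `pt_neq` with `K'`:
`‖s x_b‖ ≤ exp (C d₀ D (1 + log mdeg + log H)) ≤ exp ((C₀ D (log N + log H)) ^ C₀)` because `1 ≤ log N`, `mdeg ≤ N`, `H ≥ 1`.
`coreA`, `coreB`: the same with `Y` from `NearA`, `NearB` and `allA`, `allB` for `y = Y(x)`; `E₀ = E ∪ E'`.  The hypotheses on `y`: `NearA.h`, `NearB.h`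
(`s (F / G)`, `s (x_a) ^ p`).
-/

namespace Pool.Agent.LGO.T

open MvPolynomial Pool.Agent.Hhelper14.ZPL Pool.Agent.LGO Pool.Agent.LGO.U

private theorem Cores_fin (c : Qb) : ∃ K₀ : IntermediateField ℚ ℂ, FiniteDimensional ℚ K₀ ∧
    (c : ℂ) ∈ K₀ := by
  have h1 : IsAlgebraic ℚ (c : ℂ) := mem_algebraicClosure_iff.1 c.2
  exact ⟨IntermediateField.adjoin ℚ {(c : ℂ)},
    IntermediateField.adjoin.finiteDimensional h1.isIntegral,
    IntermediateField.mem_adjoin_simple_self ℚ (c : ℂ)⟩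

private theorem Cores_mv (F : MvPolynomial (Fin 3) Qb) : ∃ K₀ : IntermediateField ℚ ℂ,
    FiniteDimensional ℚ K₀ ∧ ∀ (K' : IntermediateField ℚ ℂ), K₀ ≤ K' →
      ∀ y : Fin 3 → ℂ, (∀ b, y b ∈ K') → (aeval y F : ℂ) ∈ K' := by
  induction F using MvPolynomial.induction_on with
  | C c =>
    obtain ⟨K₀, hf, hc⟩ := Cores_fin c
    refine ⟨K₀, hf, fun K' hK' y _ => ?_⟩
    rw [aeval_C]
    exact hK' hc
  | add p q hp hq =>
    obtain ⟨K₁, hf₁, h₁⟩ := hp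
    obtain ⟨K₂, hf₂, h₂⟩ := hq
    have := hf₁
    have := hf₂
    refine ⟨K₁ ⊔ K₂, inferInstance, fun K' hK' y hy => ?_⟩
    rw [map_add]
    exact K'.add_mem (h₁ K' (le_sup_left.trans hK') y hy) (h₂ K' (le_sup_right.trans hK') y hy)
  | mul_X p b hp =>
    obtain ⟨K₁, hf₁, h₁⟩ := hp
    refine ⟨K₁, hf₁, fun K' hK' y hy => ?_⟩
    rw [map_mul, aeval_X]
    exact K'.mul_mem (h₁ K' hK' y hy) (hy b)

theorem fld_mv (F G : MvPolynomial (Fin 3) Qb) : ∃ C : ℕ, 0 < C ∧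
    ∀ (K : IntermediateField ℚ ℂ) [FiniteDimensional ℚ K],
      ∃ K' : IntermediateField ℚ ℂ, K ≤ K' ∧ FiniteDimensional ℚ K' ∧
        Module.finrank ℚ K' ≤ C * Module.finrank ℚ K ∧ ∀ y : Fin 3 → ℂ, (∀ a, y a ∈ K) →
          (aeval y F : ℂ) ∈ K' ∧ (aeval y G : ℂ) ∈ K' := by
  obtain ⟨K₁, hf₁, h₁⟩ := Cores_mv F
  obtain ⟨K₂, hf₂, h₂⟩ := Cores_mv G
  have := hf₁
  have := hf₂
  refine ⟨Module.finrank ℚ (K₁ ⊔ K₂ : IntermediateField ℚ ℂ), Module.finrank_pos, ?_⟩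
  intro K _
  refine ⟨K ⊔ (K₁ ⊔ K₂), le_sup_left, inferInstance, ?_, ?_⟩
  · rw [mul_comm]
    exact IntermediateField.finrank_sup_le K (K₁ ⊔ K₂)
  · intro y hy
    have h3 : ∀ a, y a ∈ K ⊔ (K₁ ⊔ K₂) := fun a => (le_sup_left : K ≤ K ⊔ (K₁ ⊔ K₂)) (hy a)
    exact ⟨h₁ _ (le_sup_left.trans le_sup_right) y h3, h₂ _ (le_sup_right.trans le_sup_right) y h3⟩

/-- the numbers -/
private theorem Cores_num {C d₀ : ℕ} (hC : 1 ≤ C) (hd₀ : 0 < d₀) {D D' : ℕ} (hD : 0 < D)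
    (hD' : D' ≤ d₀ * D) {md : ℕ} {N H : ℝ} (hN : 3 ≤ N) (hm : (md : ℝ) ≤ N) (hH : 1 ≤ H) :
    ((C : ℝ) * (D' * (1 + Real.log md + Real.log H))) ^ C ≤
      (((2 * C * d₀ : ℕ) : ℝ) * (D * (Real.log N + Real.log H))) ^ (2 * C * d₀) := by
  have hlN : 1 ≤ Real.log N := by
    rw [Real.le_log_iff_exp_le (by linarith)]
    have := Real.exp_one_lt_d9
    linarith
  have hlH : 0 ≤ Real.log H := Real.log_nonneg hH
  have hlm : Real.log md ≤ Real.log N := by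
    rcases Nat.eq_zero_or_pos md with h | h
    · rw [h, Nat.cast_zero, Real.log_zero]
      linarith
    · exact Real.log_le_log (by exact_mod_cast h) hm
  have hlm0 : 0 ≤ Real.log md := Real.log_natCast_nonneg md
  have hCr : (1 : ℝ) ≤ C := by exact_mod_cast hC
  have hdr : (1 : ℝ) ≤ d₀ := by exact_mod_cast hd₀
  have hDr : (1 : ℝ) ≤ D := by exact_mod_cast hD
  have hD'r : (D' : ℝ) ≤ d₀ * D := by exact_mod_cast hD'
  have hD'0 : (0 : ℝ) ≤ D' := Nat.cast_nonneg _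
  have h1 : (C : ℝ) * (D' * (1 + Real.log md + Real.log H)) ≤
      ((2 * C * d₀ : ℕ) : ℝ) * (D * (Real.log N + Real.log H)) := by
    push_cast
    calc (C : ℝ) * (D' * (1 + Real.log md + Real.log H))
        ≤ C * ((d₀ * D) * (2 * (Real.log N + Real.log H))) := by
          refine mul_le_mul_of_nonneg_left (mul_le_mul hD'r (by linarith) (by linarith)
            (by positivity)) (by positivity)
      _ = 2 * C * d₀ * (D * (Real.log N + Real.log H)) := by ring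
  have h2 : (0 : ℝ) ≤ (C : ℝ) * (D' * (1 + Real.log md + Real.log H)) := by positivity
  have hk : C ≤ 2 * C * d₀ := by nlinarith
  have h3 : (1 : ℝ) ≤ ((2 * C * d₀ : ℕ) : ℝ) * (D * (Real.log N + Real.log H)) := by
    have h4 : (1 : ℝ) ≤ ((2 * C * d₀ : ℕ) : ℝ) := by
      exact_mod_cast hC.trans hk
    have h5 : (1 : ℝ) ≤ D * (Real.log N + Real.log H) :=
      one_le_mul_of_one_le_of_one_le hDr (by linarith)
    exact one_le_mul_of_one_le_of_one_le h4 h5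
  exact (pow_le_pow_left₀ h2 h1 _).trans (pow_le_pow_right₀ h3 hk)

theorem core_neq {n : ℕ} {V : Set (Fin n → ℂ)} (hV : Pool.Agent.Hhelper14.ZPL.IsIrredClosed V)
    (hVk : KClosed V) (hdim : Pool.Agent.Hhelper14.ZPL.dim V = 1) (i : Fin 3 → Fin n)
    (hconst : ∀ a, ∀ c : ℂ, ∃ x ∈ V, x (i a) ≠ c) {a b : Fin 3} {F G : MvPolynomial (Fin 3) Qb}
    {p q : ℕ} {C₀ : ℝ} {E : Set (Fin n → ℂ)} (h : TorData V i a b F G p q C₀ E) (hpq : p ≠ q) :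
    ∃ (C : ℕ) (E : Set (Fin n → ℂ)), E.Finite ∧ ∀ x ∈ V, x ∉ E → (∀ a, NCM (x (i a))) →
      (∀ a b, ∃ N, 0 < N ∧ IsogDeg N (x (i a)) (x (i b))) → (∀ a, IsIntegral ℤ (x (i a))) →
      Concl i C x := by
  obtain ⟨C₁, m, hC₁, hm, hpt⟩ := tor_pt hV hVk hdim i hconst h
  obtain ⟨C, hC, hneq⟩ := pt_neq hpq C₁ hC₁ m hm
  obtain ⟨d₀, hd₀, hfld⟩ := fld_mv F G
  obtain ⟨C', hC'⟩ := exists_nat_ge C
  have hC'1 : 1 ≤ C' := by exact_mod_cast hC.trans hC'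
  refine core_F hV hVk hdim i (Y := X b) (C₀ := 2 * C' * d₀) (E₀ := E) ?_ h.fin ?_
  · intro c
    obtain ⟨x, hx, hxc⟩ := hconst b c
    exact ⟨x, hx, by rw [aeval_X]; exact hxc⟩
  · intro x hx hxE hncm hiso hint K _ hxK N hN hmN H hH hsx s
    obtain ⟨K', hKK', hfd, hfr, hval⟩ := hfld K
    obtain ⟨hF, hG⟩ := hval (x ∘ i) hxK
    have hP := hpt x hx hxE (hncm b) (hiso b a) (hint a) (hint b)
    have h1 := hneq K' (x (i a)) (x (i b)) _ hP (hKK' (hxK a)) (hKK' (hxK b)) (K'.div_mem hF hG)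
      H hH (hsx a) (hsx b) s
    rw [aeval_X]
    refine h1.trans (Real.exp_le_exp.2 ?_)
    have h2 := Cores_num hC'1 hd₀ (D := Module.finrank ℚ K) Module.finrank_pos hfr hN (hmN b a) hH
    refine le_trans ?_ h2
    have h3 : (1 : ℝ) ≤ Module.finrank ℚ K' := by
      exact_mod_cast (Module.finrank_pos : 0 < Module.finrank ℚ K')
    have h4 : 0 ≤ Real.log (mdeg (x (i b)) (x (i a)) : ℝ) := Real.log_natCast_nonneg _
    have h5 : 0 ≤ Real.log H := Real.log_nonneg hH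
    have h6 : (1 : ℝ) ≤ Module.finrank ℚ K' *
        (1 + Real.log (mdeg (x (i b)) (x (i a)) : ℝ) + Real.log H) :=
      one_le_mul_of_one_le_of_one_le h3 (by linarith)
    have h7 : (1 : ℝ) ≤ C' := by exact_mod_cast hC'1
    have h8 : C * Module.finrank ℚ K' * (1 + Real.log (mdeg (x (i b)) (x (i a)) : ℝ) +
        Real.log H) ≤ C' * (Module.finrank ℚ K' *
        (1 + Real.log (mdeg (x (i b)) (x (i a)) : ℝ) + Real.log H)) := by
      rw [mul_assoc]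
      exact mul_le_mul_of_nonneg_right hC' (by linarith)
    refine h8.trans (le_self_pow₀ (one_le_mul_of_one_le_of_one_le h7 h6) (by omega))

theorem coreA {n : ℕ} {V : Set (Fin n → ℂ)} (hV : Pool.Agent.Hhelper14.ZPL.IsIrredClosed V)
    (hVk : KClosed V) (hdim : Pool.Agent.Hhelper14.ZPL.dim V = 1) (i : Fin 3 → Fin n)
    (hconst : ∀ a, ∀ c : ℂ, ∃ x ∈ V, x (i a) ≠ c) {a b : Fin 3} {F G : MvPolynomial (Fin 3) Qb}
    {p : ℕ} {C₀ : ℝ} {E : Set (Fin n → ℂ)} (h : TorData V i a b F G p p C₀ E)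
    {Y : MvPolynomial (Fin 3) Qb} {κ β : ℂ} {C₂ : ℝ} {m₁ : ℕ} (hm₁ : 0 < m₁)
    {E' : Set (Fin n → ℂ)} (hY : NearA V i a b F G p Y κ β C₂ m₁ E') :
    ∃ (C : ℕ) (E : Set (Fin n → ℂ)), E.Finite ∧ ∀ x ∈ V, x ∉ E → (∀ a, NCM (x (i a))) →
      (∀ a b, ∃ N, 0 < N ∧ IsogDeg N (x (i a)) (x (i b))) → (∀ a, IsIntegral ℤ (x (i a))) →
      Concl i C x := by
  obtain ⟨C₁, m, hC₁, hm, hpt⟩ := tor_pt hV hVk hdim i hconst h
  obtain ⟨C, hC, hall⟩ := allA hY.ne hY.algκ hY.algβ h.hp C₁ hC₁ m hm C₂ m₁ hm₁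
  obtain ⟨d₀, hd₀, hfld⟩ := fld_mv F G
  refine core_F hV hVk hdim i (Y := Y) (C₀ := 2 * C * d₀) (E₀ := E ∪ E') hY.nc
    (h.fin.union hY.fin) ?_
  intro x hx hxE hncm hiso hint K _ hxK N hN hmN H hH hsx s
  have hxE1 : x ∉ E := fun h => hxE (Or.inl h)
  have hxE2 : x ∉ E' := fun h => hxE (Or.inr h)
  obtain ⟨K', hKK', hfd, hfr, hval⟩ := hfld K
  obtain ⟨hF, hG⟩ := hval (x ∘ i) hxK
  have hP := hpt x hx hxE1 (hncm b) (hiso b a) (hint a) (hint b)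
  have h1 := hall K' (x (i a)) (x (i b)) _ (aeval (x ∘ i) Y : ℂ) hP (hKK' (hxK a))
    (hKK' (hxK b)) (K'.div_mem hF hG) (fun s hs => hY.h s x hx hxE2 hs) H hH (hsx a) (hsx b) s
  exact h1.trans (Real.exp_le_exp.2 (Cores_num hC hd₀ (D := Module.finrank ℚ K)
    Module.finrank_pos hfr hN (hmN b a) hH))

theorem coreB {n : ℕ} {V : Set (Fin n → ℂ)} (hV : Pool.Agent.Hhelper14.ZPL.IsIrredClosed V)
    (hVk : KClosed V) (hdim : Pool.Agent.Hhelper14.ZPL.dim V = 1) (i : Fin 3 → Fin n)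
    (hconst : ∀ a, ∀ c : ℂ, ∃ x ∈ V, x (i a) ≠ c) {a b : Fin 3} {F G : MvPolynomial (Fin 3) Qb}
    {p : ℕ} {C₀ : ℝ} {E : Set (Fin n → ℂ)} (h : TorData V i a b F G p p C₀ E)
    {Y : MvPolynomial (Fin 3) Qb} {κ α β : ℂ} {C₂ : ℝ} {m₁ : ℕ} (hm₁ : 0 < m₁)
    {E' : Set (Fin n → ℂ)} (hY : NearB V i a b F G Y κ α β C₂ m₁ E') (hβ : NCM β)
    (hni : ¬ ∃ N, 0 < N ∧ IsogDeg N α β) :
    ∃ (C : ℕ) (E : Set (Fin n → ℂ)), E.Finite ∧ ∀ x ∈ V, x ∉ E → (∀ a, NCM (x (i a))) →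
      (∀ a b, ∃ N, 0 < N ∧ IsogDeg N (x (i a)) (x (i b))) → (∀ a, IsIntegral ℤ (x (i a))) →
      Concl i C x := by
  obtain ⟨C₁, m, hC₁, hm, hpt⟩ := tor_pt hV hVk hdim i hconst h
  obtain ⟨C, hC, hall⟩ := allB hY.ne hY.algκ hY.algα hY.algβ hβ hni h.hp C₁ hC₁ m hm C₂ m₁ hm₁
  obtain ⟨d₀, hd₀, hfld⟩ := fld_mv F G
  refine core_F hV hVk hdim i (Y := Y) (C₀ := 2 * C * d₀) (E₀ := E ∪ E') hY.nc
    (h.fin.union hY.fin) ?_
  intro x hx hxE hncm hiso hint K _ hxK N hN hmN H hH hsx s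
  have hxE1 : x ∉ E := fun h => hxE (Or.inl h)
  have hxE2 : x ∉ E' := fun h => hxE (Or.inr h)
  obtain ⟨K', hKK', hfd, hfr, hval⟩ := hfld K
  obtain ⟨hF, hG⟩ := hval (x ∘ i) hxK
  have hP := hpt x hx hxE1 (hncm b) (hiso b a) (hint a) (hint b)
  have h1 := hall K' (x (i a)) (x (i b)) _ (aeval (x ∘ i) Y : ℂ) hP (hKK' (hxK a))
    (hKK' (hxK b)) (K'.div_mem hF hG) (fun s hs => hY.h s x hx hxE2 hs) H hH (hsx a) (hsx b) s
  exact h1.trans (Real.exp_le_exp.2 (Cores_num hC hd₀ (D := Module.finrank ℚ K)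
    Module.finrank_pos hfr hN (hmN b a) hH))

end Pool.Agent.LGO.T
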