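import Mathlib
import Pool.Agent.LGO.T.Defs
import Pool.Agent.LGO.G.RelF
import Pool.Agent.LGO.G.Geo

/-!
# LGO/T: limits of algebraic functions are algebraic

PROOF, as `limit_algebraic` in `LGO/G/RelF.lean`.  `L, ψ` from `exists_funQ` (`LGO/G/FunF.lean`), `z = aeval ψ N / aeval ψ D` (`aeval ψ D ≠ 0`).
`Dep Qb L` for `t = z`, `x = ψ c`: `R ≠ 0` with `Σ_j R_j(z) ψ_c ^ j = 0`.  Multiply by a power `(aeval ψ D) ^ M`, `M` at least the degrees of all
`R_j`: the polynomial `Σ_j (Σ_k r_jk N ^ k D ^ (M - k)) X_c ^ j` vanishes on `V`.  The points with `D = 0` on `V` are finitely many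
(`finite_zero`), so `D(P m) ≠ 0` for large `m` (`eventually_notMem_finite` in `LGO/G/Geo.lean`), and there
`Σ_j R_j(z_m) x_c ^ j = 0` with `z_m = N(P m) / D(P m)`.  Let `d = natDegree R`.  Divide by `x_c ^ d`: `R_d(z_m) = - Σ_{j < d} R_j(z_m) x_c ^ (j - d) → 0`,
so `R_d(κ) = 0`, `R_d ≠ 0`, and `κ` is algebraic over `Qb`, so over `ℚ`.
-/

namespace Pool.Agent.LGO.T

open MvPolynomial Filter Topology Pool.Agent.Hhelper14.ZPL Pool.Agent.LGO

/-- the numerator of a polynomial of degree at most `M` in `N / D` -/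
private noncomputable def LimAlg_num (M : ℕ) (N D : MvPolynomial (Fin 3) Qb)
    (r : Polynomial Qb) : MvPolynomial (Fin 3) Qb :=
  ∑ k ∈ Finset.range (M + 1), C (r.coeff k) * N ^ k * D ^ (M - k)

private theorem LimAlg_map {K : Type} [Field K] [Algebra Qb K]
    (φ : MvPolynomial (Fin 3) Qb →ₐ[Qb] K) (M : ℕ) (N D : MvPolynomial (Fin 3) Qb)
    (hD : φ D ≠ 0) (r : Polynomial Qb) (hr : r.natDegree ≤ M) :
    φ (LimAlg_num M N D r) = (φ D) ^ M * Polynomial.aeval (φ N / φ D) r := by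
  unfold LimAlg_num
  rw [Polynomial.aeval_eq_sum_range' (n := M + 1) (by omega), Finset.mul_sum, map_sum]
  refine Finset.sum_congr rfl fun k hk => ?_
  have hk' : k ≤ M := by
    have := Finset.mem_range.1 hk
    omega
  rw [map_mul, map_mul, map_pow, map_pow, Algebra.smul_def]
  have h1 : φ (C (r.coeff k)) = algebraMap Qb K (r.coeff k) := by
    rw [← MvPolynomial.algebraMap_eq]
    exact φ.commutes _
  have h2 : (φ D) ^ M = (φ D) ^ k * (φ D) ^ (M - k) := by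
    rw [← pow_add, Nat.add_sub_cancel' hk']
  have h3 : (φ D) ^ k * (φ N / φ D) ^ k = (φ N) ^ k := by
    rw [← mul_pow, mul_div_cancel₀ _ hD]
  rw [h1, h2, ← h3]
  ring

private theorem LimAlg_rel {K : Type} [Field K] [Algebra Qb K]
    (φ : MvPolynomial (Fin 3) Qb →ₐ[Qb] K) (M : ℕ) (N D : MvPolynomial (Fin 3) Qb)
    (hD : φ D ≠ 0) (c : Fin 3) (R : Polynomial (Polynomial Qb))
    (hM : ∀ j ∈ Finset.range (R.natDegree + 1), (R.coeff j).natDegree ≤ M) :
    φ (∑ j ∈ Finset.range (R.natDegree + 1), LimAlg_num M N D (R.coeff j) * X c ^ j) =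
      (φ D) ^ M * ∑ j ∈ Finset.range (R.natDegree + 1),
        Polynomial.aeval (φ N / φ D) (R.coeff j) * (φ (X c)) ^ j := by
  rw [map_sum, Finset.mul_sum]
  refine Finset.sum_congr rfl fun j hj => ?_
  rw [map_mul, map_pow, LimAlg_map φ M N D hD _ (hM j hj), mul_assoc]

theorem limit_alg {n : ℕ} {V : Set (Fin n → ℂ)} (hV : Pool.Agent.Hhelper14.ZPL.IsIrredClosed V)
    (hVk : KClosed V) (hdim : Pool.Agent.Hhelper14.ZPL.dim V = 1) (i : Fin 3 → Fin n)
    (P : ℕ → Fin n → ℂ) (hP : ∀ m, P m ∈ V) (c : Fin 3)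
    (hc : Tendsto (fun m => ‖P m (i c)‖) atTop atTop) (N D : MvPolynomial (Fin 3) Qb)
    (hD : ∃ x ∈ V, (aeval (x ∘ i) D : ℂ) ≠ 0) {κ : ℂ}
    (h : Tendsto (fun m => (aeval (P m ∘ i) N / aeval (P m ∘ i) D : ℂ)) atTop (𝓝 κ)) :
    IsAlgebraic ℚ κ := by
  have hfinD := finite_zero hV hVk hdim i hD
  obtain ⟨L, hL, hLQ, ψ, -, hdep, h0, hfin⟩ := exists_funQ hV hVk hdim i
  have hDψ : (aeval ψ D : L) ≠ 0 := by
    intro h1
    obtain ⟨x, hx, hne⟩ := hD
    exact hne ((h0 D).1 h1 x hx)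
  obtain ⟨R, hR, hR0⟩ := hdep (aeval ψ N / aeval ψ D) (ψ c)
  have hlc : R.leadingCoeff ≠ 0 := Polynomial.leadingCoeff_ne_zero.2 hR
  obtain ⟨M, hM⟩ : ∃ M, ∀ j ∈ Finset.range (R.natDegree + 1), (R.coeff j).natDegree ≤ M :=
    ⟨(Finset.range (R.natDegree + 1)).sup fun j => (R.coeff j).natDegree,
      fun j hj => Finset.le_sup (f := fun j => (R.coeff j).natDegree) hj⟩
  have hX : (aeval ψ (X c : MvPolynomial (Fin 3) Qb) : L) = ψ c := aeval_X _ _
  have hG0 : (aeval ψ (∑ j ∈ Finset.range (R.natDegree + 1),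
      LimAlg_num M N D (R.coeff j) * X c ^ j) : L) = 0 := by
    rw [LimAlg_rel (aeval ψ) M N D hDψ c R hM, hX]
    unfold ev2 at hR0
    rw [Polynomial.eval₂_eq_sum_range] at hR0
    exact mul_eq_zero_of_right _ hR0
  have hGV := (h0 _).1 hG0
  have hrel : ∀ᶠ m in atTop, ∑ j ∈ Finset.range (R.natDegree + 1),
      (Polynomial.aeval (aeval (P m ∘ i) N / aeval (P m ∘ i) D : ℂ) (R.coeff j) : ℂ) *
        P m (i c) ^ j = 0 := by
    filter_upwards [eventually_notMem_finite hfinD (i c) P hc] with m hm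
    have hDm : (aeval (P m ∘ i) D : ℂ) ≠ 0 := fun h1 => hm ⟨hP m, h1⟩
    have h1 := hGV (P m) (hP m)
    rw [LimAlg_rel (aeval (P m ∘ i)) M N D hDm c R hM, aeval_X] at h1
    exact (mul_eq_zero.1 h1).resolve_left (pow_ne_zero _ hDm)
  set z : ℕ → ℂ := fun m => (aeval (P m ∘ i) N / aeval (P m ∘ i) D : ℂ) with hz
  set d := R.natDegree with hd
  have hinv : Tendsto (fun m => (P m (i c))⁻¹) atTop (𝓝 0) :=
    tendsto_inv₀_cobounded.comp (tendsto_norm_atTop_iff_cobounded.1 hc)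
  have hcoef : ∀ j, Tendsto (fun m => (Polynomial.aeval (z m) (R.coeff j) : ℂ)) atTop
      (𝓝 (Polynomial.aeval κ (R.coeff j))) := by
    intro j
    exact ((R.coeff j).continuous_aeval.tendsto κ).comp h
  have hsum : Tendsto (fun m => ∑ j ∈ Finset.range d,
      (Polynomial.aeval (z m) (R.coeff j) : ℂ) * ((P m (i c))⁻¹) ^ (d - j)) atTop (𝓝 0) := by
    have h2 : (0 : ℂ) = ∑ j ∈ Finset.range d,
        (Polynomial.aeval κ (R.coeff j) : ℂ) * 0 ^ (d - j) := by
      refine (Finset.sum_eq_zero fun j hj => ?_).symm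
      have : d - j ≠ 0 := Nat.sub_ne_zero_of_lt (Finset.mem_range.1 hj)
      rw [zero_pow this, mul_zero]
    rw [h2]
    exact tendsto_finsetSum _ fun j _ => (hcoef j).mul (hinv.pow _)
  have hev : ∀ᶠ m in atTop, ∑ j ∈ Finset.range d,
      (Polynomial.aeval (z m) (R.coeff j) : ℂ) * ((P m (i c))⁻¹) ^ (d - j) =
      -(Polynomial.aeval (z m) (R.coeff d) : ℂ) := by
    filter_upwards [hc.eventually_gt_atTop 0, hrel] with m hm h3
    have hne : P m (i c) ≠ 0 := norm_pos_iff.1 hm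
    rw [Finset.sum_range_succ] at h3
    have h4 : ∀ j ∈ Finset.range d, (Polynomial.aeval (z m) (R.coeff j) : ℂ) *
        ((P m (i c))⁻¹) ^ (d - j) =
        (Polynomial.aeval (z m) (R.coeff j) : ℂ) * P m (i c) ^ j * ((P m (i c))⁻¹) ^ d := by
      intro j hj
      have hj' : j ≤ d := (Finset.mem_range.1 hj).le
      have h5 : ((P m (i c))⁻¹) ^ d = ((P m (i c))⁻¹) ^ j * ((P m (i c))⁻¹) ^ (d - j) := by
        rw [← pow_add, Nat.add_sub_cancel' hj']
      rw [h5]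
      have h6 : P m (i c) ^ j * ((P m (i c))⁻¹) ^ j = 1 := by
        rw [← mul_pow, mul_inv_cancel₀ hne, one_pow]
      calc (Polynomial.aeval (z m) (R.coeff j) : ℂ) * ((P m (i c))⁻¹) ^ (d - j)
          = (Polynomial.aeval (z m) (R.coeff j) : ℂ) *
            (P m (i c) ^ j * ((P m (i c))⁻¹) ^ j) * ((P m (i c))⁻¹) ^ (d - j) := by
            rw [h6, mul_one]
        _ = _ := by ring
    rw [Finset.sum_congr rfl h4, ← Finset.sum_mul, eq_neg_of_add_eq_zero_left h3, neg_mul,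
      mul_assoc, ← mul_pow, mul_inv_cancel₀ hne, one_pow, mul_one]
  have hlim : (Polynomial.aeval κ (R.coeff d) : ℂ) = 0 := by
    have h7 : Tendsto (fun m => ∑ j ∈ Finset.range d,
        (Polynomial.aeval (z m) (R.coeff j) : ℂ) * ((P m (i c))⁻¹) ^ (d - j)) atTop
        (𝓝 (-(Polynomial.aeval κ (R.coeff d) : ℂ))) :=
      ((hcoef d).neg).congr' (hev.mono fun m hm => hm.symm)
    have h8 := tendsto_nhds_unique hsum h7
    exact neg_eq_zero.1 h8.symm
  have halg : IsAlgebraic Qb κ := ⟨R.coeff d, hlc, hlim⟩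
  have : Algebra.IsAlgebraic ℚ Qb := algebraicClosure.isAlgebraic ℚ ℂ
  exact halg.restrictScalars ℚ

end Pool.Agent.LGO.T
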