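import Mathlib
import Pool.Agent.LGO.T.LimAlg
import Pool.Agent.LGO.G.Geo

/-!
# LGO/T: a function with its only pole at the limit of a sequence, and the values of other functions there

PROOF.  `Y` from `geo` (`LGO/G/Geo.lean`) for the sequence `P` and the coordinate `c`.
First claim: `κ` is algebraic (`limit_alg`), so it is an element `k` of `Qb`; `geo` for `N - C k * D` and `D`: the quotients tend to `0`
(`D(P m) ≠ 0` for large `m`).  Divide by `‖s D(x)‖ ^ m ≠ 0`: `s (N(x) / D(x)) - s κ = s (N - κ D)(x) / s D(x)`.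
Second claim: `geo` for `N = 1`, `D = X a`: `‖s Y‖ ≤ C ‖s x_a‖ ^ m`.
See `cuspA` (`LGO/S/CuspA.lean`) for the same arguments.
-/

namespace Pool.Agent.LGO.T

open MvPolynomial Filter Topology Pool.Agent.Hhelper14.ZPL Pool.Agent.LGO

theorem geo_lim {n : ℕ} {V : Set (Fin n → ℂ)} (hV : Pool.Agent.Hhelper14.ZPL.IsIrredClosed V)
    (hVk : KClosed V) (hdim : Pool.Agent.Hhelper14.ZPL.dim V = 1) (i : Fin 3 → Fin n)
    (P : ℕ → Fin n → ℂ) (hP : ∀ m, P m ∈ V) (c : Fin 3)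
    (hc : Tendsto (fun m => ‖P m (i c)‖) atTop atTop) :
    ∃ Y : MvPolynomial (Fin 3) Qb, (∀ c : ℂ, ∃ x ∈ V, (aeval (x ∘ i) Y : ℂ) ≠ c) ∧
      (∀ (N D : MvPolynomial (Fin 3) Qb) (κ : ℂ), (∃ x ∈ V, (aeval (x ∘ i) D : ℂ) ≠ 0) →
        Tendsto (fun m => (aeval (P m ∘ i) N / aeval (P m ∘ i) D : ℂ)) atTop (𝓝 κ) →
        ∃ (C : ℝ) (m : ℕ), 1 ≤ C ∧ 0 < m ∧ ∀ s : ℂ ≃+* ℂ, ∀ x ∈ V,
          (aeval (x ∘ i) D : ℂ) ≠ 0 → C ≤ ‖s (aeval (x ∘ i) Y : ℂ)‖ →
          ‖s (aeval (x ∘ i) N / aeval (x ∘ i) D : ℂ) - s κ‖ ^ m *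
            ‖s (aeval (x ∘ i) Y : ℂ)‖ ≤ C) ∧
      ∀ a : Fin 3, Tendsto (fun m => ‖P m (i a)‖) atTop atTop →
        ∃ (C : ℝ) (m : ℕ), 1 ≤ C ∧ 0 < m ∧ ∀ s : ℂ ≃+* ℂ, ∀ x ∈ V,
          C ≤ ‖s (aeval (x ∘ i) Y : ℂ)‖ →
          ‖s (aeval (x ∘ i) Y : ℂ)‖ ≤ C * ‖s (x (i a))‖ ^ m := by
  obtain ⟨Y, hY, hgeo⟩ := geo hV hVk hdim i P hP c hc
  refine ⟨Y, hY, ?_, ?_⟩
  · intro N D κ hD hlim
    have halg : IsAlgebraic ℚ κ := limit_alg hV hVk hdim i P hP c hc N D hD hlim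
    have hk : κ ∈ Qb := by
      rw [show Qb = algebraicClosure ℚ ℂ from rfl, mem_algebraicClosure_iff]
      exact halg
    obtain ⟨L, hL, hA, ψ, hgen, hdep, h0, hfin⟩ := exists_funQ hV hVk hdim i
    have hDψ : aeval ψ D ≠ 0 := by
      intro h
      obtain ⟨x, hx, hx0⟩ := hD
      exact hx0 ((h0 D).mp h x hx)
    have hev : ∀ᶠ m in atTop, (aeval (P m ∘ i) D : ℂ) ≠ 0 := by
      filter_upwards [eventually_notMem_finite (hfin D hDψ) (i c) P hc] with m hm h5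
      exact hm ⟨hP m, h5⟩
    obtain ⟨C', m', hC', hm', h3⟩ := hgeo (N - C (⟨κ, hk⟩ : Qb) * D) D hD (by
      have h4 : Tendsto (fun m => (aeval (P m ∘ i) N / aeval (P m ∘ i) D : ℂ) - κ) atTop
          (𝓝 (κ - κ)) := hlim.sub_const κ
      rw [sub_self] at h4
      refine h4.congr' ?_
      filter_upwards [hev] with m hm
      rw [map_sub, map_mul, aeval_C]
      have h5 : (algebraMap Qb ℂ) (⟨κ, hk⟩ : Qb) = κ := rfl
      rw [h5, sub_div, mul_div_assoc, div_self hm, mul_one])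
    refine ⟨max 1 C', m', le_max_left _ _, hm', fun s x hx hDx hle => ?_⟩
    have h5 := h3 s x hx ((le_max_right _ _).trans hle)
    have hsD : s (aeval (x ∘ i) D : ℂ) ≠ 0 := by
      intro h
      exact hDx ((map_eq_zero s).1 h)
    have hsDpos : 0 < ‖s (aeval (x ∘ i) D : ℂ)‖ := norm_pos_iff.2 hsD
    have h6 : s (aeval (x ∘ i) N / aeval (x ∘ i) D : ℂ) - s κ =
        s (aeval (x ∘ i) (N - C (⟨κ, hk⟩ : Qb) * D) : ℂ) / s (aeval (x ∘ i) D : ℂ) := by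
      have h7 : (aeval (x ∘ i) (N - C (⟨κ, hk⟩ : Qb) * D) : ℂ) =
          aeval (x ∘ i) N - κ * aeval (x ∘ i) D := by
        rw [map_sub, map_mul, aeval_C]
        rfl
      rw [h7, map_sub s, map_mul s, map_div₀ s, sub_div, mul_div_assoc, div_self hsD, mul_one]
    rw [h6, norm_div, div_pow, div_mul_eq_mul_div, div_le_iff₀ (pow_pos hsDpos _)]
    exact h5.trans (mul_le_mul_of_nonneg_right (le_max_right _ _) (pow_nonneg hsDpos.le _))
  · intro a ha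
    obtain ⟨C1, m1, hC1, hm1, h1⟩ := hgeo 1 (X a) (by
      obtain ⟨m, hm⟩ := (ha.eventually_gt_atTop 0).exists
      refine ⟨P m, hP m, ?_⟩
      rw [aeval_X]
      exact norm_pos_iff.1 hm) (by
      have h2 : Tendsto (fun m => (P m (i a))⁻¹) atTop (𝓝 0) :=
        tendsto_inv₀_cobounded.comp (tendsto_norm_atTop_iff_cobounded.1 ha)
      simpa only [aeval_X, map_one, one_div, Function.comp_apply] using h2)
    refine ⟨max 1 C1, m1, le_max_left _ _, hm1, fun s x hx hle => ?_⟩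
    have h5 : ‖s (aeval (x ∘ i) Y : ℂ)‖ ≤ C1 * ‖s (x (i a))‖ ^ m1 := by
      have h6 := h1 s x hx ((le_max_right _ _).trans hle)
      simpa only [map_one, norm_one, one_pow, one_mul, aeval_X, Function.comp_apply] using h6
    exact h5.trans (mul_le_mul_of_nonneg_right (le_max_right _ _) (by positivity))

end Pool.Agent.LGO.T
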