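import Mathlib
import Pool.Agent.LGO.T.GeoLim

/-!
# LGO/T: the functions near a point at infinity, two cases

PROOF of `nearA`.  `P m → ∞` in the coordinates `c` and `a`, `x_b → β`.  `M_b = max 1 ‖x_b‖` is bounded along the sequence, `‖x_a‖ → ∞`, so for large `m`
(`P m ∉ E` for large `m`: `eventually_notMem_finite`; `G(P m) ≠ 0`) `W_m = F(P m) / G(P m) * x_a ^ p` satisfies `‖W_m‖ ≤ C M_b ^ q ≤ C'` and
`1 ≤ C ‖W_m‖` (`up`, `lo` with `max 1 ‖x_a‖ = ‖x_a‖`).  A subsequence of `W_m` converges (`tendsto_subseq_of_bounded`) to `κ`, `‖κ‖ ≥ 1 / C > 0`.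
Pass to the subsequence and take `Y` from `geo_lim`.  `κ` is algebraic: `limit_alg` for `N = F * X a ^ p`, `D = G`; `β` is algebraic: `N = X b`, `D = 1`.
The three inequalities: second part of `geo_lim` for `a`; first part for `(X b, 1, β)` and for `(F * X a ^ p, G, κ)` (for `x ∈ V`, `x ∉ E`: `G(x) ≠ 0`).
Common constants: `C = ` the sum of the constants, `m` = the sum of the exponents: `C ≤ ‖s Y‖` implies `‖..‖ ≤ 1` for the two numbers which are small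
and `‖s x_a‖ ≥ 1`, so larger exponents are allowed (see `cuspA` in `LGO/S/CuspA.lean`).
PROOF of `nearB`: the same with `x_a → α`: `M_a` is bounded too, so `‖Φ‖` and `1 / ‖Φ‖` are bounded along the sequence, `κ = lim Φ ≠ 0`.
-/

namespace Pool.Agent.LGO.T

open MvPolynomial Filter Topology Pool.Agent.Hhelper14.ZPL Pool.Agent.LGO

/-- a bounded sequence which stays away from `0` has a subsequence with a limit which is not `0` -/
private theorem Near_sub {W : ℕ → ℂ} {R δ : ℝ} (h : ∀ᶠ m in atTop, ‖W m‖ ≤ R ∧ δ ≤ ‖W m‖) :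
    ∃ κ : ℂ, δ ≤ ‖κ‖ ∧ ∃ φ : ℕ → ℕ, StrictMono φ ∧ Tendsto (fun m => W (φ m)) atTop (𝓝 κ) := by
  have hK : IsCompact (Metric.closedBall (0 : ℂ) R \ Metric.ball (0 : ℂ) δ) :=
    (isCompact_closedBall (0 : ℂ) R).diff Metric.isOpen_ball
  obtain ⟨κ, hκ, φ, hφ, hlim⟩ := hK.tendsto_subseq' (x := W) (by
    refine h.frequently.mono fun m hm => ⟨?_, ?_⟩
    · rw [mem_closedBall_zero_iff]
      exact hm.1
    · rw [mem_ball_zero_iff, not_lt]
      exact hm.2)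
  refine ⟨κ, ?_, φ, hφ, hlim⟩
  have h1 := hκ.2
  rwa [mem_ball_zero_iff, not_lt] at h1

/-- a power of a small distance -/
private theorem Near_small {r f D : ℝ} {k M : ℕ} (hr : 0 ≤ r) (hD : 0 < D) (hk : 0 < k) (hkM : k ≤ M)
    (hDf : D ≤ f) (hrf : r ^ k * f ≤ D) : r ^ M * f ≤ D := by
  have hr1 : r ≤ 1 := by
    by_contra hcon
    push Not at hcon
    have h4 : 1 < r ^ k := one_lt_pow₀ hcon hk.ne'
    have h5 : f < r ^ k * f := by
      have h6 : 0 < f := hD.trans_le hDf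
      nlinarith
    linarith
  have h4 : r ^ M ≤ r ^ k := pow_le_pow_of_le_one hr hr1 hkM
  exact (mul_le_mul_of_nonneg_right h4 (hD.le.trans hDf)).trans hrf

/-- a power of a large number -/
private theorem Near_large {r f D D' : ℝ} {k M : ℕ} (hr : 0 ≤ r) (hD : 0 < D) (hk : 0 < k) (hkM : k ≤ M)
    (hDf : D ≤ f) (hrf : f ≤ D * r ^ k) (hDD : D ≤ D') : f ≤ D' * r ^ M := by
  have h6 : 1 ≤ r ^ k := by
    have h7 : D * 1 ≤ D * r ^ k := by rw [mul_one]; exact hDf.trans hrf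
    exact le_of_mul_le_mul_left h7 hD
  have h8 : 1 ≤ r := by
    by_contra hcon
    push Not at hcon
    have := pow_lt_one₀ hr hcon hk.ne'
    linarith
  calc f ≤ D * r ^ k := hrf
    _ ≤ D * r ^ M := mul_le_mul_of_nonneg_left (pow_le_pow_right₀ h8 hkM) hD.le
    _ ≤ D' * r ^ M := mul_le_mul_of_nonneg_right hDD (by positivity)

/-- the quotient `f A / g` from the two inequalities -/
private theorem Near_quot {f g A B C : ℝ} (hf : 0 ≤ f) (hg : 0 < g) (hA : 0 ≤ A) (hB : 1 ≤ B)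
    (up : f * A ≤ C * (g * B)) (lo : g * B ≤ C * (f * A)) :
    f * A / g ≤ |C| * B ∧ (|C| + 1)⁻¹ ≤ f * A / g := by
  constructor
  · rw [div_le_iff₀ hg]
    calc f * A ≤ C * (g * B) := up
      _ ≤ |C| * (g * B) := mul_le_mul_of_nonneg_right (le_abs_self C) (by positivity)
      _ = |C| * B * g := by ring
  · rw [le_div_iff₀ hg, inv_mul_le_iff₀ (by positivity)]
    calc g = g * 1 := (mul_one g).symm
      _ ≤ g * B := mul_le_mul_of_nonneg_left hB hg.le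
      _ ≤ C * (f * A) := lo
      _ ≤ (|C| + 1) * (f * A) :=
          mul_le_mul_of_nonneg_right ((le_abs_self C).trans (by linarith)) (by positivity)

private theorem Near_bdd {u : ℕ → ℂ} {β : ℂ} (h : Tendsto u atTop (𝓝 β)) :
    ∀ᶠ m in atTop, max 1 ‖u m‖ ≤ ‖β‖ + 1 := by
  filter_upwards [h.norm.eventually_lt_const (lt_add_one ‖β‖)] with m hm
  exact max_le (by linarith [norm_nonneg β]) hm.le

theorem nearA {n : ℕ} {V : Set (Fin n → ℂ)} (hV : Pool.Agent.Hhelper14.ZPL.IsIrredClosed V)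
    (hVk : KClosed V) (hdim : Pool.Agent.Hhelper14.ZPL.dim V = 1) (i : Fin 3 → Fin n)
    {a b : Fin 3} {F G : MvPolynomial (Fin 3) Qb} {p q : ℕ} {C₀ : ℝ} {E : Set (Fin n → ℂ)}
    (h : TorData V i a b F G p q C₀ E) (c : Fin 3) (P : ℕ → Fin n → ℂ) (hP : ∀ m, P m ∈ V)
    (hc : Tendsto (fun m => ‖P m (i c)‖) atTop atTop)
    (ha : Tendsto (fun m => ‖P m (i a)‖) atTop atTop) {β : ℂ}
    (hb : Tendsto (fun m => P m (i b)) atTop (𝓝 β)) :
    ∃ (Y : MvPolynomial (Fin 3) Qb) (κ : ℂ) (C : ℝ) (m : ℕ), 1 ≤ C ∧ 0 < m ∧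
      NearA V i a b F G p Y κ β C m E := by
  obtain ⟨W, hW⟩ : ∃ W : ℕ → ℂ, W = fun m =>
      (aeval (P m ∘ i) (F * X a ^ p) / aeval (P m ∘ i) G : ℂ) := ⟨_, rfl⟩
  have hE := eventually_notMem_finite h.fin (i c) P hc
  have hev : ∀ᶠ m in atTop, ‖W m‖ ≤ |C₀| * (‖β‖ + 1) ^ q ∧ (|C₀| + 1)⁻¹ ≤ ‖W m‖ := by
    filter_upwards [hE, ha.eventually_ge_atTop 1, Near_bdd hb] with m hm h1 h2
    have h3 := h.up (P m) (hP m) hm
    have h4 := h.lo (P m) (hP m) hm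
    rw [max_eq_right h1] at h3 h4
    have hB : (1 : ℝ) ≤ max 1 ‖P m (i b)‖ ^ q := one_le_pow₀ (le_max_left _ _)
    obtain ⟨h5, h6⟩ := Near_quot (norm_nonneg _) (norm_pos_iff.2 (h.neG (P m) (hP m) hm))
      (by positivity : (0 : ℝ) ≤ ‖P m (i a)‖ ^ p) hB h3 h4
    have h7 : ‖W m‖ = ‖(aeval (P m ∘ i) F : ℂ)‖ * ‖P m (i a)‖ ^ p / ‖(aeval (P m ∘ i) G : ℂ)‖ := by
      rw [hW]
      simp only [map_mul, map_pow, aeval_X, Function.comp_apply, norm_div, norm_mul, norm_pow]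
    rw [h7]
    refine ⟨h5.trans ?_, h6⟩
    exact mul_le_mul_of_nonneg_left (pow_le_pow_left₀ (by positivity) h2 q) (abs_nonneg _)
  obtain ⟨κ, hκ, φ, hφ, hlim⟩ := Near_sub hev
  have hκ0 : κ ≠ 0 := by
    intro h0
    rw [h0, norm_zero] at hκ
    have : 0 < (|C₀| + 1)⁻¹ := by positivity
    linarith
  have hφt := hφ.tendsto_atTop
  have hP' : ∀ m, P (φ m) ∈ V := fun m => hP _
  have hc' : Tendsto (fun m => ‖P (φ m) (i c)‖) atTop atTop := hc.comp hφt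
  have ha' : Tendsto (fun m => ‖P (φ m) (i a)‖) atTop atTop := ha.comp hφt
  have hb' : Tendsto (fun m => P (φ m) (i b)) atTop (𝓝 β) := hb.comp hφt
  have hne1 : ∃ x ∈ V, (aeval (x ∘ i) (1 : MvPolynomial (Fin 3) Qb) : ℂ) ≠ 0 :=
    ⟨P 0, hP 0, by rw [map_one]; exact one_ne_zero⟩
  have hneG : ∃ x ∈ V, (aeval (x ∘ i) G : ℂ) ≠ 0 := by
    obtain ⟨m, hm⟩ := hE.exists
    exact ⟨P m, hP m, h.neG (P m) (hP m) hm⟩
  have hX : ∀ (y : Fin n → ℂ) (d : Fin 3), (aeval (y ∘ i) (X d : MvPolynomial (Fin 3) Qb) /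
      aeval (y ∘ i) (1 : MvPolynomial (Fin 3) Qb) : ℂ) = y (i d) := by
    intro y d
    rw [aeval_X, map_one, div_one]
    rfl
  have hlb : Tendsto (fun m => (aeval (P (φ m) ∘ i) (X b : MvPolynomial (Fin 3) Qb) /
      aeval (P (φ m) ∘ i) (1 : MvPolynomial (Fin 3) Qb) : ℂ)) atTop (𝓝 β) := by
    refine hb'.congr fun m => ?_
    exact (hX _ b).symm
  have hlW : Tendsto (fun m => (aeval (P (φ m) ∘ i) (F * X a ^ p) / aeval (P (φ m) ∘ i) G : ℂ)) atTop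
      (𝓝 κ) := by
    rw [hW] at hlim
    exact hlim
  obtain ⟨Y, hnc, h1, h2⟩ := geo_lim hV hVk hdim i (fun m => P (φ m)) hP' c hc'
  obtain ⟨C1, m1, hC1, hm1, g1⟩ := h2 a ha'
  obtain ⟨C2, m2, hC2, hm2, g2⟩ := h1 (X b) 1 β hne1 hlb
  obtain ⟨C3, m3, hC3, hm3, g3⟩ := h1 (F * X a ^ p) G κ hneG hlW
  refine ⟨Y, κ, C1 + C2 + C3, m1 + m2 + m3, by linarith, by omega, ?_⟩
  refine ⟨limit_alg hV hVk hdim i _ hP' c hc' _ G hneG hlW, limit_alg hV hVk hdim i _ hP' c hc' _ 1 hne1 hlb,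
    hκ0, h.fin, hnc, fun s x hx hxE hle => ⟨?_, ?_, ?_⟩⟩
  · exact Near_large (norm_nonneg _) (by linarith) hm1 (by omega) (by linarith)
      (g1 s x hx (by linarith)) (by linarith)
  · have h5 := g2 s x hx (by rw [map_one]; exact one_ne_zero) (by linarith)
    rw [hX x b] at h5
    have h6 := Near_small (M := m1 + m2 + m3) (norm_nonneg _) (by linarith : (0 : ℝ) < C2) hm2 (by omega)
      (by linarith) h5
    linarith
  · have h5 := g3 s x hx (h.neG x hx hxE) (by linarith)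
    have h7 : s (aeval (x ∘ i) (F * X a ^ p) / aeval (x ∘ i) G : ℂ) =
        s (aeval (x ∘ i) F / aeval (x ∘ i) G : ℂ) * s (x (i a)) ^ p := by
      rw [← map_pow s, ← map_mul s]
      congr 1
      rw [map_mul, map_pow, aeval_X, Function.comp_apply]
      ring
    rw [h7] at h5
    have h6 := Near_small (M := m1 + m2 + m3) (norm_nonneg _) (by linarith : (0 : ℝ) < C3) hm3 (by omega)
      (by linarith) h5
    linarith

theorem nearB {n : ℕ} {V : Set (Fin n → ℂ)} (hV : Pool.Agent.Hhelper14.ZPL.IsIrredClosed V)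
    (hVk : KClosed V) (hdim : Pool.Agent.Hhelper14.ZPL.dim V = 1) (i : Fin 3 → Fin n)
    {a b : Fin 3} {F G : MvPolynomial (Fin 3) Qb} {p q : ℕ} {C₀ : ℝ} {E : Set (Fin n → ℂ)}
    (h : TorData V i a b F G p q C₀ E) (c : Fin 3) (P : ℕ → Fin n → ℂ) (hP : ∀ m, P m ∈ V)
    (hc : Tendsto (fun m => ‖P m (i c)‖) atTop atTop) {α β : ℂ}
    (ha : Tendsto (fun m => P m (i a)) atTop (𝓝 α))
    (hb : Tendsto (fun m => P m (i b)) atTop (𝓝 β)) :
    ∃ (Y : MvPolynomial (Fin 3) Qb) (κ : ℂ) (C : ℝ) (m : ℕ), 1 ≤ C ∧ 0 < m ∧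
      NearB V i a b F G Y κ α β C m E := by
  obtain ⟨W, hW⟩ : ∃ W : ℕ → ℂ, W = fun m =>
      (aeval (P m ∘ i) F / aeval (P m ∘ i) G : ℂ) := ⟨_, rfl⟩
  have hE := eventually_notMem_finite h.fin (i c) P hc
  have hα0 : 0 < (‖α‖ + 1) ^ p := by positivity
  have hev : ∀ᶠ m in atTop, ‖W m‖ ≤ |C₀| * (‖β‖ + 1) ^ q ∧
      (|C₀| + 1)⁻¹ * ((‖α‖ + 1) ^ p)⁻¹ ≤ ‖W m‖ := by
    filter_upwards [hE, Near_bdd ha, Near_bdd hb] with m hm h1 h2
    have h3 := h.up (P m) (hP m) hm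
    have h4 := h.lo (P m) (hP m) hm
    have hA : (1 : ℝ) ≤ max 1 ‖P m (i a)‖ ^ p := one_le_pow₀ (le_max_left _ _)
    have hA' : max 1 ‖P m (i a)‖ ^ p ≤ (‖α‖ + 1) ^ p := pow_le_pow_left₀ (by positivity) h1 p
    have hB : (1 : ℝ) ≤ max 1 ‖P m (i b)‖ ^ q := one_le_pow₀ (le_max_left _ _)
    obtain ⟨h5, h6⟩ := Near_quot (norm_nonneg _) (norm_pos_iff.2 (h.neG (P m) (hP m) hm))
      (by positivity : (0 : ℝ) ≤ max 1 ‖P m (i a)‖ ^ p) hB h3 h4
    have h7 : ‖W m‖ = ‖(aeval (P m ∘ i) F : ℂ)‖ / ‖(aeval (P m ∘ i) G : ℂ)‖ := by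
      rw [hW]
      simp only [norm_div]
    have h8 : ‖(aeval (P m ∘ i) F : ℂ)‖ * max 1 ‖P m (i a)‖ ^ p / ‖(aeval (P m ∘ i) G : ℂ)‖ =
        ‖W m‖ * max 1 ‖P m (i a)‖ ^ p := by
      rw [h7]
      ring
    rw [h8] at h5 h6
    constructor
    · calc ‖W m‖ = ‖W m‖ * 1 := (mul_one _).symm
        _ ≤ ‖W m‖ * max 1 ‖P m (i a)‖ ^ p := mul_le_mul_of_nonneg_left hA (norm_nonneg _)
        _ ≤ |C₀| * max 1 ‖P m (i b)‖ ^ q := h5
        _ ≤ |C₀| * (‖β‖ + 1) ^ q :=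
            mul_le_mul_of_nonneg_left (pow_le_pow_left₀ (by positivity) h2 q) (abs_nonneg _)
    · rw [← div_eq_mul_inv, div_le_iff₀ hα0]
      exact h6.trans (mul_le_mul_of_nonneg_left hA' (norm_nonneg _))
  obtain ⟨κ, hκ, φ, hφ, hlim⟩ := Near_sub hev
  have hκ0 : κ ≠ 0 := by
    intro h0
    rw [h0, norm_zero] at hκ
    have : 0 < (|C₀| + 1)⁻¹ * ((‖α‖ + 1) ^ p)⁻¹ := by positivity
    linarith
  have hφt := hφ.tendsto_atTop
  have hP' : ∀ m, P (φ m) ∈ V := fun m => hP _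
  have hc' : Tendsto (fun m => ‖P (φ m) (i c)‖) atTop atTop := hc.comp hφt
  have ha' : Tendsto (fun m => P (φ m) (i a)) atTop (𝓝 α) := ha.comp hφt
  have hb' : Tendsto (fun m => P (φ m) (i b)) atTop (𝓝 β) := hb.comp hφt
  have hne1 : ∃ x ∈ V, (aeval (x ∘ i) (1 : MvPolynomial (Fin 3) Qb) : ℂ) ≠ 0 :=
    ⟨P 0, hP 0, by rw [map_one]; exact one_ne_zero⟩
  have hneG : ∃ x ∈ V, (aeval (x ∘ i) G : ℂ) ≠ 0 := by
    obtain ⟨m, hm⟩ := hE.exists
    exact ⟨P m, hP m, h.neG (P m) (hP m) hm⟩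
  have hX : ∀ (y : Fin n → ℂ) (d : Fin 3), (aeval (y ∘ i) (X d : MvPolynomial (Fin 3) Qb) /
      aeval (y ∘ i) (1 : MvPolynomial (Fin 3) Qb) : ℂ) = y (i d) := by
    intro y d
    rw [aeval_X, map_one, div_one]
    rfl
  have hla : Tendsto (fun m => (aeval (P (φ m) ∘ i) (X a : MvPolynomial (Fin 3) Qb) /
      aeval (P (φ m) ∘ i) (1 : MvPolynomial (Fin 3) Qb) : ℂ)) atTop (𝓝 α) := by
    refine ha'.congr fun m => ?_
    exact (hX _ a).symm
  have hlb : Tendsto (fun m => (aeval (P (φ m) ∘ i) (X b : MvPolynomial (Fin 3) Qb) /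
      aeval (P (φ m) ∘ i) (1 : MvPolynomial (Fin 3) Qb) : ℂ)) atTop (𝓝 β) := by
    refine hb'.congr fun m => ?_
    exact (hX _ b).symm
  have hlW : Tendsto (fun m => (aeval (P (φ m) ∘ i) F / aeval (P (φ m) ∘ i) G : ℂ)) atTop
      (𝓝 κ) := by
    rw [hW] at hlim
    exact hlim
  obtain ⟨Y, hnc, h1, h2⟩ := geo_lim hV hVk hdim i (fun m => P (φ m)) hP' c hc'
  obtain ⟨C1, m1, hC1, hm1, g1⟩ := h1 (X a) 1 α hne1 hla
  obtain ⟨C2, m2, hC2, hm2, g2⟩ := h1 (X b) 1 β hne1 hlb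
  obtain ⟨C3, m3, hC3, hm3, g3⟩ := h1 F G κ hneG hlW
  refine ⟨Y, κ, C1 + C2 + C3, m1 + m2 + m3, by linarith, by omega, ?_⟩
  refine ⟨limit_alg hV hVk hdim i _ hP' c hc' _ G hneG hlW, limit_alg hV hVk hdim i _ hP' c hc' _ 1 hne1 hla,
    limit_alg hV hVk hdim i _ hP' c hc' _ 1 hne1 hlb,
    hκ0, h.fin, hnc, fun s x hx hxE hle => ⟨?_, ?_, ?_⟩⟩
  · have h5 := g1 s x hx (by rw [map_one]; exact one_ne_zero) (by linarith)
    rw [hX x a] at h5
    have h6 := Near_small (M := m1 + m2 + m3) (norm_nonneg _) (by linarith : (0 : ℝ) < C1) hm1 (by omega)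
      (by linarith) h5
    linarith
  · have h5 := g2 s x hx (by rw [map_one]; exact one_ne_zero) (by linarith)
    rw [hX x b] at h5
    have h6 := Near_small (M := m1 + m2 + m3) (norm_nonneg _) (by linarith : (0 : ℝ) < C2) hm2 (by omega)
      (by linarith) h5
    linarith
  · have h5 := g3 s x hx (h.neG x hx hxE) (by linarith)
    have h6 := Near_small (M := m1 + m2 + m3) (norm_nonneg _) (by linarith : (0 : ℝ) < C3) hm3 (by omega)
      (by linarith) h5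
    linarith

end Pool.Agent.LGO.T
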