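import Mathlib
import Pool.Agent.LGO.T.Near
import Pool.Agent.LGO.S.Dich

/-!
# LGO/T: the trichotomy at infinity

PROOF.  Let `c` be the third index.  `exists_unbounded` (`LGO/S/Dich.lean`): `P m ∈ V` with `‖P m (i c)‖ → ∞`.  As in the proof of `dich`
(`LGO/S/Dich.lean`) pass to a subsequence such that each of `x_a`, `x_b` converges or tends to infinity in norm.  Not both tend to infinity
(`hQ`, see `Dich_inf`).  `x_a → ∞`, `x_b → β`: `nearA`.  `x_b → ∞`, `x_a → α`: `nearA` for the exchanged data `TorData V i b a G F q p C E` (`TorData.symm`).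
Both converge: `nearB` and `TypeA V i c a b α β`.
-/

namespace Pool.Agent.LGO.T

open MvPolynomial Filter Topology Pool.Agent.Hhelper14.ZPL Pool.Agent.LGO

theorem TorData.symm {n : ℕ} {V : Set (Fin n → ℂ)} {i : Fin 3 → Fin n} {a b : Fin 3}
    {F G : MvPolynomial (Fin 3) Qb} {p q : ℕ} {C₀ : ℝ} {E : Set (Fin n → ℂ)}
    (h : TorData V i a b F G p q C₀ E) : TorData V i b a G F q p C₀ E where
  hp := h.hq
  hq := h.hp
  fin := h.fin
  neF := h.neG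
  neG := h.neF
  up := h.lo
  lo := h.up

private theorem Tri_sub (u : ℕ → ℂ) : ∃ φ : ℕ → ℕ, StrictMono φ ∧
    (Tendsto (fun m => ‖u (φ m)‖) atTop atTop ∨ ∃ γ, Tendsto (fun m => u (φ m)) atTop (𝓝 γ)) := by
  by_cases h : Tendsto (fun m => ‖u m‖) atTop atTop
  · exact ⟨id, strictMono_id, Or.inl h⟩
  · rw [tendsto_atTop] at h
    push Not at h
    obtain ⟨B, hB⟩ := h
    obtain ⟨φ, hφ, hφ'⟩ := extraction_of_frequently_atTop hB
    have hb : Bornology.IsBounded (Metric.closedBall (0 : ℂ) B) := Metric.isBounded_closedBall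
    obtain ⟨γ, -, ψ, hψ, hγ⟩ := tendsto_subseq_of_bounded hb (x := fun m => u (φ m)) (by
      intro m
      rw [mem_closedBall_zero_iff]
      exact (hφ' m).le)
    exact ⟨φ ∘ ψ, hφ.comp hψ, Or.inr ⟨γ, hγ⟩⟩

private theorem Tri_inf {n : ℕ} {V : Set (Fin n → ℂ)} {i : Fin 3 → Fin n}
    {Q : MvPolynomial (Fin 3) ℂ} (hQ0 : constantCoeff Q ≠ 0)
    (hQ : ∀ x ∈ V, (∀ a, x (i a) ≠ 0) → eval (fun a => (x (i a))⁻¹) Q = 0)
    {P : ℕ → Fin n → ℂ} (hP : ∀ m, P m ∈ V)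
    (h : ∀ a, Tendsto (fun m => ‖P m (i a)‖) atTop atTop) : False := by
  have h1 : Tendsto (fun m => fun a => (P m (i a))⁻¹) atTop (𝓝 (0 : Fin 3 → ℂ)) := by
    rw [tendsto_pi_nhds]
    intro a
    have h2 : Tendsto (fun m => ‖(P m (i a))⁻¹‖) atTop (𝓝 0) := by
      simp only [norm_inv]
      exact tendsto_inv_atTop_zero.comp (h a)
    exact tendsto_zero_iff_norm_tendsto_zero.2 h2
  have h3 : Tendsto (fun m => eval (fun a => (P m (i a))⁻¹) Q) atTop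
      (𝓝 (eval (0 : Fin 3 → ℂ) Q)) :=
    ((MvPolynomial.continuous_eval Q).tendsto _).comp h1
  have h4 : ∀ᶠ m in atTop, ∀ a, P m (i a) ≠ 0 := by
    rw [eventually_all]
    intro a
    filter_upwards [(h a).eventually_gt_atTop 0] with m hm
    exact norm_pos_iff.1 hm
  have h5 : Tendsto (fun m => eval (fun a => (P m (i a))⁻¹) Q) atTop (𝓝 0) := by
    refine tendsto_const_nhds.congr' ?_
    filter_upwards [h4] with m hm
    exact (hQ _ (hP m) hm).symm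
  have h6 := tendsto_nhds_unique h3 h5
  apply hQ0
  rw [← h6]
  have : (0 : Fin 3 → ℂ) = fun _ => 0 := rfl
  rw [constantCoeff_eq, this, eval_zero']
  rfl

private theorem Tri_third : ∀ a b : Fin 3, a ≠ b →
    ∃ c : Fin 3, a ≠ c ∧ b ≠ c ∧ ∀ d, d = a ∨ d = b ∨ d = c := by decide

theorem tri {n : ℕ} {V : Set (Fin n → ℂ)} (hV : Pool.Agent.Hhelper14.ZPL.IsIrredClosed V)
    (hVk : KClosed V) (hdim : Pool.Agent.Hhelper14.ZPL.dim V = 1) (i : Fin 3 → Fin n)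
    (hconst : ∀ a, ∀ c : ℂ, ∃ x ∈ V, x (i a) ≠ c)
    {Q : MvPolynomial (Fin 3) ℂ} (hQ0 : MvPolynomial.constantCoeff Q ≠ 0)
    (hQ : ∀ x ∈ V, (∀ a, x (i a) ≠ 0) → MvPolynomial.eval (fun a => (x (i a))⁻¹) Q = 0)
    {a b : Fin 3} (hab : a ≠ b) {F G : MvPolynomial (Fin 3) Qb} {p q : ℕ} {C₀ : ℝ}
    {E : Set (Fin n → ℂ)} (h : TorData V i a b F G p q C₀ E) :
    (∃ (Y : MvPolynomial (Fin 3) Qb) (κ β : ℂ) (C : ℝ) (m : ℕ), 1 ≤ C ∧ 0 < m ∧
      NearA V i a b F G p Y κ β C m E) ∨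
    (∃ (Y : MvPolynomial (Fin 3) Qb) (κ α : ℂ) (C : ℝ) (m : ℕ), 1 ≤ C ∧ 0 < m ∧
      NearA V i b a G F q Y κ α C m E) ∨
    ∃ (Y : MvPolynomial (Fin 3) Qb) (κ α β : ℂ) (C : ℝ) (m : ℕ) (c : Fin 3), 1 ≤ C ∧ 0 < m ∧
      NearB V i a b F G Y κ α β C m E ∧ TypeA V i c a b α β := by
  obtain ⟨c, hac, hbc, hall⟩ := Tri_third a b hab
  obtain ⟨P, hP, hPc⟩ := exists_unbounded hV (i c) (hconst c)
  obtain ⟨φ, hφ, ha⟩ := Tri_sub fun m => P m (i a)
  obtain ⟨ψ, hψ, hb⟩ := Tri_sub fun m => P (φ m) (i b)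
  have hP' : ∀ m, P (φ (ψ m)) ∈ V := fun m => hP _
  have hcomp : Tendsto (fun m => φ (ψ m)) atTop atTop :=
    hφ.tendsto_atTop.comp hψ.tendsto_atTop
  have hPc' : Tendsto (fun m => ‖P (φ (ψ m)) (i c)‖) atTop atTop := hPc.comp hcomp
  rcases ha with ha | ⟨α, ha⟩
  · have ha' : Tendsto (fun m => ‖P (φ (ψ m)) (i a)‖) atTop atTop :=
      ha.comp hψ.tendsto_atTop
    rcases hb with hb | ⟨β, hb⟩
    · exfalso
      refine Tri_inf hQ0 hQ hP' ?_
      intro d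
      rcases hall d with rfl | rfl | rfl
      · exact ha'
      · exact hb
      · exact hPc'
    · left
      obtain ⟨Y, κ, C, m, hC, hm, hN⟩ :=
        nearA hV hVk hdim i h c (fun m => P (φ (ψ m))) hP' hPc' ha' hb
      exact ⟨Y, κ, β, C, m, hC, hm, hN⟩
  · have ha' : Tendsto (fun m => P (φ (ψ m)) (i a)) atTop (𝓝 α) :=
      ha.comp hψ.tendsto_atTop
    rcases hb with hb | ⟨β, hb⟩
    · right; left
      obtain ⟨Y, κ, C, m, hC, hm, hN⟩ :=
        nearA hV hVk hdim i h.symm c (fun m => P (φ (ψ m))) hP' hPc' hb ha'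
      exact ⟨Y, κ, α, C, m, hC, hm, hN⟩
    · right; right
      obtain ⟨Y, κ, C, m, hC, hm, hN⟩ :=
        nearB hV hVk hdim i h c (fun m => P (φ (ψ m))) hP' hPc' ha' hb
      exact ⟨Y, κ, α, β, C, m, c, hC, hm, hN, hac.symm, hbc.symm, hab,
        fun m => P (φ (ψ m)), hP', hPc', ha', hb⟩

end Pool.Agent.LGO.T
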