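import Mathlib
import Pool.Agent.LGO.T.Cores
import Pool.Agent.LGO.T.Tri
import Pool.Agent.LGO.End.Main

/-!
# LGO/T: Theorem T (note 3089)

PROOF.  `core_tor`: `p ≠ q`: `core_neq`.  `p = q`: `tri`.  First case: `coreA`.  Second case: `coreA` for the exchanged data (`TorData.symm`).  Third case: if `NCM α`, `NCM β` and `α`, `β` are
not isogenous: `coreB`.  If `¬ NCM α ∨ ¬ NCM β`: `cm_or_core` (`LGO/C/Core.lean`) for `TypeA V i c a b α β`.  If both are `NCM` and isogenous: a good cusp, `good_core` (`LGO/Q/Final.lean`), as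
in `OneInfRes.good_or` (`LGO/End/F.lean`).
`main_tor`: `finish` (`LGO/H/Fin.lean`).  `end_tor`: `fin_of` (`LGO/End/Link.lean`).
-/

namespace Pool.Agent.LGO.T

open MvPolynomial UpperHalfPlane Pool.Agent.Hhelper14.ZP Pool.Agent.Hhelper14.ZPL
open Pool.Agent.LGO Pool.Agent.LGO.U

theorem core_tor {n : ℕ} {V : Set (Fin n → ℂ)} (hV : Pool.Agent.Hhelper14.ZPL.IsIrredClosed V)
    (hVk : KClosed V) (hdim : Pool.Agent.Hhelper14.ZPL.dim V = 1) (i : Fin 3 → Fin n)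
    (hconst : ∀ a, ∀ c : ℂ, ∃ x ∈ V, x (i a) ≠ c)
    (hmod : ∀ a b, a ≠ b → ∀ g : GL (Fin 2) ℚ, 0 < g.det.val →
      ∃ x ∈ V, ¬ ∃ τ : ℍ, x (i a) = jInv τ ∧ x (i b) = jInv (gact g τ))
    {Q : MvPolynomial (Fin 3) ℂ} (hQ0 : constantCoeff Q ≠ 0)
    (hQ : ∀ x ∈ V, (∀ a, x (i a) ≠ 0) → eval (fun a => (x (i a))⁻¹) Q = 0) (h : Tor V i) :
    ∃ (C : ℕ) (E : Set (Fin n → ℂ)), E.Finite ∧ ∀ x ∈ V, x ∉ E → (∀ a, NCM (x (i a))) →
      (∀ a b, ∃ N, 0 < N ∧ IsogDeg N (x (i a)) (x (i b))) → (∀ a, IsIntegral ℤ (x (i a))) →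
      Concl i C x := by
  obtain ⟨a, b, F, G, p, q, C₀, E, hab, h⟩ := h
  by_cases hpq : p = q
  · subst hpq
    rcases tri hV hVk hdim i hconst hQ0 hQ hab h with ⟨Y, κ, β, C, m, -, hm, hY⟩ |
      ⟨Y, κ, α, C, m, -, hm, hY⟩ | ⟨Y, κ, α, β, C, m, c, -, hm, hY, hA⟩
    · exact coreA hV hVk hdim i hconst h hm hY
    · exact coreA hV hVk hdim i hconst h.symm hm hY
    · by_cases hα : NCM α
      · by_cases hβ : NCM β
        · by_cases hi : ∃ N, 0 < N ∧ IsogDeg N α β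
          · obtain ⟨P, hP, h0, h1, h2⟩ := hA.ex
            have hinj : Function.Injective ![c, a, b] := by
              intro x y hxy
              fin_cases x <;> fin_cases y <;>
                simp_all [hA.ab, hA.ac, hA.bc, hA.ab.symm, hA.ac.symm, hA.bc.symm]
            obtain ⟨e, he⟩ : ∃ e : Equiv.Perm (Fin 3), ∀ j, e j = ![c, a, b] j :=
              ⟨Equiv.ofBijective _ (Finite.injective_iff_bijective.mp hinj), fun j => rfl⟩
            have e0 : e 0 = c := he 0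
            have e1 : e 1 = a := he 1
            have e2 : e 2 = b := he 2
            refine good_core hV hVk hdim i hmod ⟨P, e, β, hP, ?_, ?_, fun τ hτ =>
              (nonCM_iff τ).mpr (hβ τ hτ), Or.inr ⟨α, ?_, Or.inl hi⟩⟩
            · rw [e0]; exact h0
            · rw [e2]; exact h2
            · rw [e1]; exact h1
          · exact coreB hV hVk hdim i hconst h hm hY hβ hi
        · exact cm_or_core hV hVk hdim i hconst hmod hA (Or.inr hβ)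
      · exact cm_or_core hV hVk hdim i hconst hmod hA (Or.inl hα)
  · exact core_neq hV hVk hdim i hconst h hpq

theorem main_tor {n : ℕ} {V : Set (Fin n → ℂ)} (hV : Pool.Agent.Hhelper14.ZPL.IsIrredClosed V)
    (hVk : KClosed V) (hdim : Pool.Agent.Hhelper14.ZPL.dim V = 1) (i : Fin 3 → Fin n)
    (hconst : ∀ a, ∀ c : ℂ, ∃ x ∈ V, x (i a) ≠ c)
    (hmod : ∀ a b, a ≠ b → ∀ g : GL (Fin 2) ℚ, 0 < g.det.val →
      ∃ x ∈ V, ¬ ∃ τ : ℍ, x (i a) = jInv τ ∧ x (i b) = jInv (gact g τ))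
    {Q : MvPolynomial (Fin 3) ℂ} (hQ0 : constantCoeff Q ≠ 0)
    (hQ : ∀ x ∈ V, (∀ a, x (i a) ≠ 0) → eval (fun a => (x (i a))⁻¹) Q = 0) (h : Tor V i) :
    ∃ C : ℕ, ∀ x ∈ V, (∀ a, NCM (x (i a))) →
      (∀ a b, ∃ N, 0 < N ∧ IsogDeg N (x (i a)) (x (i b))) → Concl i C x :=
  finish hV hVk hdim i hconst hmod hQ0 hQ (core_tor hV hVk hdim i hconst hmod hQ0 hQ h)

/-- curves for which the pole divisors of two coordinates are proportional modulo torsion -/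
theorem end_tor {n : ℕ} {V : Set (Fin n → ℂ)} (hV : Pool.Agent.Hhelper14.ZPL.IsIrredClosed V)
    (hVk : KClosed V) (hdim : Pool.Agent.Hhelper14.ZPL.dim V = 1) (i : Fin 3 → Fin n)
    (hconst : ∀ a, ∀ c : ℂ, ∃ x ∈ V, x (i a) ≠ c)
    (hmod : ∀ a b, a ≠ b → ∀ g : GL (Fin 2) ℚ, 0 < g.det.val →
      ∃ x ∈ V, ¬ ∃ τ : ℍ, x (i a) = jInv τ ∧ x (i b) = jInv (gact g τ))
    (hA : PW.HasAtlas {y | ∃ x ∈ V, y = fun a => x (i a)})
    {Q : MvPolynomial (Fin 3) ℂ} (hQ0 : constantCoeff Q ≠ 0)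
    (hQ : ∀ x ∈ V, (∀ a, x (i a) ≠ 0) → eval (fun a => (x (i a))⁻¹) Q = 0) (h : Tor V i) :
    {x ∈ V | (∀ τ : ℍ, jInv τ = x (i 0) → ¬ IsCM τ) ∧ HeckeRel (x (i 0)) (x (i 1)) ∧
      HeckeRel (x (i 0)) (x (i 2))}.Finite :=
  fin_of hV hVk hdim i hmod hA (main_tor hV hVk hdim i hconst hmod hQ0 hQ h)

end Pool.Agent.LGO.T
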